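import Pool.Agent.Lib_helper59.REV.Defs

open MeasureTheory Filter Topology

namespace Pool.Agent.Lib_helper59.REV

theorem dif_meas_nr : Measurable nr := by
  unfold nr
  fun_prop

theorem dif_polar (E : Set ℝ) (hE : MeasurableSet E) (h0 : volume E = 0) :
    ∀ᵐ p : ℝ × ℝ, nr p ∉ E := by
  have h1 : ∫⁻ p : ℝ × ℝ, E.indicator (fun _ => (1:ENNReal)) (nr p) = 0 := by
    rw [← lintegral_comp_polarCoord_symm]
    have hmeas : Measurable fun p : ℝ × ℝ => ENNReal.ofReal p.1 •
        E.indicator (fun _ => (1:ENNReal)) (nr (polarCoord.symm p)) := by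
      simp only [smul_eq_mul]
      refine Measurable.mul (measurable_fst.ennreal_ofReal) ?_
      refine (measurable_const.indicator hE).comp (dif_meas_nr.comp ?_)
      exact continuous_polarCoord_symm.measurable
    rw [lintegral_eq_zero_iff hmeas]
    have hT : MeasurableSet (Set.Ioi (0:ℝ) ×ˢ Set.Ioo (-Real.pi) Real.pi) :=
      measurableSet_Ioi.prod measurableSet_Ioo
    rw [Filter.EventuallyEq, polarCoord_target, ae_restrict_iff' hT]
    have h2 : ∀ᵐ p : ℝ × ℝ, p.1 ∉ E := by
      rw [Measure.volume_eq_prod]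
      have h3 : ∀ᵐ x : ℝ, x ∉ E := by
        rw [ae_iff]
        simpa using h0
      exact Measure.quasiMeasurePreserving_fst.ae h3
    filter_upwards [h2] with p hp hpT
    obtain ⟨hp1, -⟩ := hpT
    have hp1 : 0 < p.1 := hp1
    have h4 : nr (polarCoord.symm p) = p.1 := by
      rw [polarCoord_symm_apply]
      unfold nr
      have : (p.1 * Real.cos p.2) ^ 2 + (p.1 * Real.sin p.2) ^ 2 = p.1 ^ 2 := by
        have := Real.sin_sq_add_cos_sq p.2
        linear_combination p.1 ^ 2 * this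
      simp only []
      rw [this, Real.sqrt_sq hp1.le]
    rw [h4, Set.indicator_of_notMem hp]
    simp
  have hm0 : Measurable fun p : ℝ × ℝ => E.indicator (fun _ => (1:ENNReal)) (nr p) :=
    (measurable_const.indicator hE).comp dif_meas_nr
  rw [lintegral_eq_zero_iff hm0] at h1
  filter_upwards [h1] with p hp hpE
  rw [Set.indicator_of_mem hpE] at hp
  simp at hp

theorem dif_disc (R : ℝ) (u : ℝ → ℝ) (hu : Cap R u) :
    ∀ᵐ p : ℝ × ℝ, p ∈ disc R → 0 < nr p ∧ nr p < R ∧ DifferentiableAt ℝ u (nr p) := by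
  have hR := hu.hR
  set E : Set ℝ := {r | r ∈ Set.Ioo 0 R ∧ ¬ DifferentiableAt ℝ u r} with hE
  have hEm : MeasurableSet E :=
    measurableSet_Ioo.inter (measurableSet_of_differentiableAt ℝ u).compl
  have hE0 : volume E = 0 := by
    have hm : MonotoneOn (fun r => -u r) (Set.Ioo 0 R) := by
      intro a ha b hb hab
      exact neg_le_neg (hu.anti (Set.Ioo_subset_Icc_self ha) (Set.Ioo_subset_Icc_self hb) hab)
    have h1 := hm.ae_differentiableWithinAt measurableSet_Ioo
    rw [ae_restrict_iff' measurableSet_Ioo, ae_iff] at h1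
    refine measure_mono_null ?_ h1
    rintro r ⟨hr, hnd⟩ hcon
    have h2 := hcon hr
    have h3 : DifferentiableAt ℝ (fun r => -u r) r :=
      h2.differentiableAt (Ioo_mem_nhds hr.1 hr.2)
    apply hnd
    have := h3.neg
    simpa using this
  have hx : ∀ᵐ p : ℝ × ℝ, p.1 ≠ 0 := by
    rw [Measure.volume_eq_prod]
    have h0 : ∀ᵐ x : ℝ, x ≠ 0 := Measure.ae_ne volume 0
    exact Measure.quasiMeasurePreserving_fst.ae h0
  filter_upwards [dif_polar E hEm hE0, hx] with p hp hpx hpd
  have h1 : 0 < nr p := by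
    unfold nr
    have : p.1 ^ 2 > 0 := by positivity
    exact Real.sqrt_pos.2 (by positivity)
  have h2 : nr p < R := by
    unfold nr
    rw [Real.sqrt_lt' hR]
    exact hpd
  refine ⟨h1, h2, ?_⟩
  by_contra hcon
  exact hp ⟨⟨h1, h2⟩, hcon⟩

theorem dif_sec (R : ℝ) (u : ℝ → ℝ) (hu : Cap R u) :
    ∀ᵐ d : ℝ, ∀ᵐ s : ℝ, d ^ 2 + s ^ 2 < R ^ 2 →
      0 < nr (d, s) ∧ nr (d, s) < R ∧ DifferentiableAt ℝ u (nr (d, s)) := by
  have h := dif_disc R u hu
  rw [Measure.volume_eq_prod] at h
  exact Measure.ae_ae_of_ae_prod h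

end Pool.Agent.Lib_helper59.REV
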