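import Pool.Agent.Lib_helper59.REV.Defs

/-! # REV, block dscA -/

open MeasureTheory Filter Topology

namespace Pool.Agent.Lib_helper59.REV

theorem dscA_meas_nr : Measurable nr := by
  unfold nr
  fun_prop

theorem dscA_polar (G : ℝ → ENNReal) (hG : Measurable G) :
    ∫⁻ p : ℝ × ℝ, G (nr p) =
      ENNReal.ofReal (2 * Real.pi) * ∫⁻ r in Set.Ioi (0:ℝ), ENNReal.ofReal r * G r := by
  rw [← lintegral_comp_polarCoord_symm, polarCoord_target]
  have hpt : ∀ p ∈ Set.Ioi (0:ℝ) ×ˢ Set.Ioo (-Real.pi) Real.pi,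
      ENNReal.ofReal p.1 • G (nr (polarCoord.symm p)) = ENNReal.ofReal p.1 * G p.1 := by
    rintro ⟨r, θ⟩ ⟨hr, -⟩
    have hr0 : 0 < r := hr
    have hsum : (r * Real.cos θ) ^ 2 + (r * Real.sin θ) ^ 2 = r ^ 2 := by
      have := Real.cos_sq_add_sin_sq θ
      nlinarith [this]
    have hnr : nr (polarCoord.symm (r, θ)) = r := by
      simp only [polarCoord_symm_apply, nr]
      rw [hsum, Real.sqrt_sq hr0.le]
    rw [hnr, smul_eq_mul]
  have hm : Measurable (fun r : ℝ => ENNReal.ofReal r * G r) := by fun_prop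
  have hm3 : Measurable (fun p : ℝ × ℝ => ENNReal.ofReal p.1 * G p.1) := hm.comp measurable_fst
  rw [setLIntegral_congr_fun (measurableSet_Ioi.prod measurableSet_Ioo) hpt,
    Measure.volume_eq_prod, ← Measure.prod_restrict, lintegral_prod _ hm3.aemeasurable]
  simp only [lintegral_const, Measure.restrict_apply_univ, Real.volume_Ioo]
  rw [lintegral_mul_const _ hm, mul_comm]
  congr 2
  ring

theorem dsc_meas (R : ℝ) : MeasurableSet (disc R) := by
  unfold disc
  exact measurableSet_lt (by fun_prop) (by fun_prop)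

theorem dscA_mem (R : ℝ) (hR : 0 < R) (p : ℝ × ℝ) : p ∈ disc R ↔ nr p < R := by
  unfold nr
  rw [Real.sqrt_lt' hR]
  rfl

theorem dscA_deriv (R r : ℝ) (hr : r ∈ Set.Ioo 0 R) :
    HasDerivAt (fun x : ℝ => -(√(R ^ 2 - x ^ 2) ^ 3 / 3)) (r * √(R ^ 2 - r ^ 2)) r := by
  have hpos : 0 < R ^ 2 - r ^ 2 := by nlinarith [hr.1, hr.2]
  have h1 : HasDerivAt (fun x : ℝ => R ^ 2 - x ^ 2) (-(2 * r)) r := by
    have := (hasDerivAt_pow 2 r).const_sub (R ^ 2)
    simpa using this
  have h2 := (((h1.sqrt hpos.ne').pow 3).div_const 3).neg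
  refine h2.congr_deriv ?_
  have : √(R ^ 2 - r ^ 2) ≠ 0 := (Real.sqrt_pos.mpr hpos).ne'
  have h3 : √(R ^ 2 - r ^ 2) ^ 2 = R ^ 2 - r ^ 2 := Real.sq_sqrt hpos.le
  field_simp
  norm_num
  ring

theorem dscA_one (R : ℝ) (hR : 0 < R) :
    ∫⁻ r in Set.Ioo 0 R, ENNReal.ofReal (r * √(R ^ 2 - r ^ 2)) = ENNReal.ofReal (R ^ 3 / 3) := by
  have hc : ContinuousOn (fun x : ℝ => -(√(R ^ 2 - x ^ 2) ^ 3 / 3)) (Set.Icc 0 R) := by fun_prop
  have hint : IntervalIntegrable (fun r : ℝ => r * √(R ^ 2 - r ^ 2)) volume 0 R := by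
    apply Continuous.intervalIntegrable
    fun_prop
  have hval := intervalIntegral.integral_eq_sub_of_hasDerivAt_of_le hR.le hc
    (fun r hr => dscA_deriv R r hr) hint
  have hval2 : ∫ r in (0:ℝ)..R, r * √(R ^ 2 - r ^ 2) = R ^ 3 / 3 := by
    rw [hval]
    have : √(R ^ 2 - (0:ℝ) ^ 2) = R := by
      rw [show R ^ 2 - (0:ℝ) ^ 2 = R ^ 2 by ring, Real.sqrt_sq hR.le]
    simp only [this]
    simp
  rw [intervalIntegral.integral_of_le hR.le, integral_Ioc_eq_integral_Ioo] at hval2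
  have hI : IntegrableOn (fun r : ℝ => r * √(R ^ 2 - r ^ 2)) (Set.Ioo 0 R) volume :=
    (intervalIntegrable_iff_integrableOn_Ioo_of_le hR.le).mp hint
  rw [← ofReal_integral_eq_lintegral_ofReal hI, hval2]
  filter_upwards [self_mem_ae_restrict (μ := volume) (measurableSet_Ioo (a := (0:ℝ)) (b := R))]
    with r hr
  exact mul_nonneg hr.1.le (Real.sqrt_nonneg _)

theorem dsc_half (R : ℝ) (hR : 0 < R) :
    ∫⁻ p in disc R, ENNReal.ofReal √(R ^ 2 - nr p ^ 2) =
      ENNReal.ofReal (2 * Real.pi * R ^ 3 / 3) := by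
  have hG : Measurable ((Set.Iio R).indicator (fun r : ℝ => ENNReal.ofReal √(R ^ 2 - r ^ 2))) :=
    Measurable.indicator (by fun_prop) measurableSet_Iio
  have h1 : ∫⁻ p in disc R, ENNReal.ofReal √(R ^ 2 - nr p ^ 2) =
      ∫⁻ p : ℝ × ℝ, (Set.Iio R).indicator (fun r : ℝ => ENNReal.ofReal √(R ^ 2 - r ^ 2)) (nr p) := by
    rw [← lintegral_indicator (dsc_meas R)]
    refine lintegral_congr fun p => ?_
    by_cases h : p ∈ disc R
    · rw [Set.indicator_of_mem h, Set.indicator_of_mem (show nr p ∈ Set.Iio R from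
        (dscA_mem R hR p).mp h)]
    · rw [Set.indicator_of_notMem h, Set.indicator_of_notMem (fun h' : nr p ∈ Set.Iio R =>
        h ((dscA_mem R hR p).mpr h'))]
  rw [h1, dscA_polar _ hG]
  have h2 : ∫⁻ r in Set.Ioi (0:ℝ), ENNReal.ofReal r *
      (Set.Iio R).indicator (fun r : ℝ => ENNReal.ofReal √(R ^ 2 - r ^ 2)) r =
      ∫⁻ r in Set.Ioo 0 R, ENNReal.ofReal (r * √(R ^ 2 - r ^ 2)) := by
    rw [← lintegral_indicator measurableSet_Ioi, ← lintegral_indicator measurableSet_Ioo]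
    refine lintegral_congr fun r => ?_
    by_cases h : 0 < r
    · rw [Set.indicator_of_mem (show r ∈ Set.Ioi (0:ℝ) from h)]
      by_cases h' : r < R
      · rw [Set.indicator_of_mem (show r ∈ Set.Iio R from h'),
          Set.indicator_of_mem (show r ∈ Set.Ioo 0 R from ⟨h, h'⟩), ENNReal.ofReal_mul h.le]
      · rw [Set.indicator_of_notMem (show r ∉ Set.Iio R from h'),
          Set.indicator_of_notMem (show r ∉ Set.Ioo 0 R from fun h2 => h' h2.2), mul_zero]
    · rw [Set.indicator_of_notMem (show r ∉ Set.Ioi (0:ℝ) from h),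
        Set.indicator_of_notMem (show r ∉ Set.Ioo 0 R from fun h2 => h h2.1)]
  rw [h2, dscA_one R hR, ← ENNReal.ofReal_mul (by positivity)]
  congr 1
  ring

theorem dsc_ann (R R' : ℝ) (hR : 0 < R) (hR' : R ≤ R') :
    volume {p : ℝ × ℝ | R ≤ nr p ∧ nr p ≤ R'} = ENNReal.ofReal (Real.pi * (R' ^ 2 - R ^ 2)) := by
  have hm : MeasurableSet {p : ℝ × ℝ | R ≤ nr p ∧ nr p ≤ R'} :=
    (measurableSet_le measurable_const dscA_meas_nr).inter
      (measurableSet_le dscA_meas_nr measurable_const)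
  have hG : Measurable ((Set.Icc R R').indicator (fun _ : ℝ => (1:ENNReal))) :=
    measurable_const.indicator measurableSet_Icc
  have h1 : volume {p : ℝ × ℝ | R ≤ nr p ∧ nr p ≤ R'} =
      ∫⁻ p : ℝ × ℝ, (Set.Icc R R').indicator (fun _ : ℝ => (1:ENNReal)) (nr p) := by
    rw [← lintegral_indicator_one hm]
    refine lintegral_congr fun p => ?_
    rfl
  rw [h1, dscA_polar _ hG]
  have h2 : ∫⁻ r in Set.Ioi (0:ℝ), ENNReal.ofReal r *
      (Set.Icc R R').indicator (fun _ : ℝ => (1:ENNReal)) r =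
      ∫⁻ r in Set.Icc R R', ENNReal.ofReal r := by
    rw [← lintegral_indicator measurableSet_Ioi, ← lintegral_indicator measurableSet_Icc]
    refine lintegral_congr fun r => ?_
    by_cases h : r ∈ Set.Icc R R'
    · rw [Set.indicator_of_mem (show r ∈ Set.Ioi (0:ℝ) from lt_of_lt_of_le hR h.1),
        Set.indicator_of_mem h, Set.indicator_of_mem h, mul_one]
    · rw [Set.indicator_of_notMem h]
      by_cases h0 : r ∈ Set.Ioi (0:ℝ)
      · rw [Set.indicator_of_mem h0, Set.indicator_of_notMem h, mul_zero]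
      · rw [Set.indicator_of_notMem h0]
  have hint : IntervalIntegrable (fun r : ℝ => r) volume R R' :=
    Continuous.intervalIntegrable continuous_id _ _
  have hval2 : ∫ r in R..R', r = (R' ^ 2 - R ^ 2) / 2 := integral_id
  rw [intervalIntegral.integral_of_le hR', ← integral_Icc_eq_integral_Ioc] at hval2
  have hI : IntegrableOn (fun r : ℝ => r) (Set.Icc R R') volume :=
    (intervalIntegrable_iff_integrableOn_Icc_of_le hR').mp hint
  rw [h2, ← ofReal_integral_eq_lintegral_ofReal hI, hval2, ← ENNReal.ofReal_mul (by positivity)]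
  · congr 1
    ring
  · filter_upwards [self_mem_ae_restrict (μ := volume) (measurableSet_Icc (a := R) (b := R'))]
      with r hr
    exact hR.le.trans hr.1

end Pool.Agent.Lib_helper59.REV
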