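import Pool.Agent.Lib_helper59.REV.Defs

/-! # REV, block dscB -/

open MeasureTheory Filter Topology

namespace Pool.Agent.Lib_helper59.REV

theorem dscB_disc_meas (R : ℝ) : MeasurableSet (disc R) := by
  have : Measurable (fun p : ℝ × ℝ => p.1 ^ 2 + p.2 ^ 2) := by fun_prop
  exact this measurableSet_Iio

theorem dscB_nr_meas : Measurable nr := by
  unfold nr
  have : Measurable (fun p : ℝ × ℝ => p.1 ^ 2 + p.2 ^ 2) := by fun_prop
  exact this.sqrt

theorem dscB_nr_swap (p : ℝ × ℝ) : nr p.swap = nr p := by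
  simp only [nr, Prod.fst_swap, Prod.snd_swap, add_comm]

theorem dscB_swap (R : ℝ) (G : ℝ → ℝ) :
    ∫⁻ p in disc R, ENNReal.ofReal ((p.2 / nr p) ^ 2 * G (nr p)) =
      ∫⁻ p in disc R, ENNReal.ofReal ((p.1 / nr p) ^ 2 * G (nr p)) := by
  have mp : MeasurePreserving (Prod.swap : ℝ × ℝ → ℝ × ℝ) volume volume := by
    have := Measure.measurePreserving_swap (μ := (volume : Measure ℝ)) (ν := (volume : Measure ℝ))
    simpa only [← Measure.volume_eq_prod] using this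
  have he : MeasurableEmbedding (Prod.swap : ℝ × ℝ → ℝ × ℝ) :=
    (MeasurableEquiv.prodComm : (ℝ × ℝ) ≃ᵐ (ℝ × ℝ)).measurableEmbedding
  have h := mp.setLIntegral_comp_preimage_emb he
    (fun p => ENNReal.ofReal ((p.1 / nr p) ^ 2 * G (nr p))) (disc R)
  have hpre : (Prod.swap : ℝ × ℝ → ℝ × ℝ) ⁻¹' (disc R) = disc R := by
    ext p
    simp only [disc, Set.mem_preimage, Set.mem_ofPred_eq, Prod.fst_swap, Prod.snd_swap, add_comm]
  rw [hpre] at h
  rw [← h]
  refine lintegral_congr fun p => ?_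
  rw [dscB_nr_swap, Prod.fst_swap]

theorem dscB_sum (R : ℝ) (G : ℝ → ℝ) (hG : Measurable G) (h0 : ∀ r, 0 ≤ G r) :
    (∫⁻ p in disc R, ENNReal.ofReal ((p.2 / nr p) ^ 2 * G (nr p))) +
      (∫⁻ p in disc R, ENNReal.ofReal ((p.1 / nr p) ^ 2 * G (nr p))) =
    ∫⁻ p in disc R, ENNReal.ofReal (G (nr p)) := by
  have hnr := dscB_nr_meas
  have hm : Measurable (fun p : ℝ × ℝ => ENNReal.ofReal ((p.2 / nr p) ^ 2 * G (nr p))) := by
    have h1 : Measurable (fun p : ℝ × ℝ => p.2 / nr p) := measurable_snd.div hnr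
    exact ((h1.pow_const 2).mul (hG.comp hnr)).ennreal_ofReal
  rw [← lintegral_add_left hm]
  have hne : ∀ᵐ p : ℝ × ℝ, p ≠ 0 := by
    have : (volume : Measure (ℝ × ℝ)) {0} = 0 := measure_singleton _
    exact compl_mem_ae_iff.mpr this
  refine lintegral_congr_ae ?_
  filter_upwards [ae_restrict_of_ae hne] with p hp
  rw [← ENNReal.ofReal_add (mul_nonneg (sq_nonneg _) (h0 _)) (mul_nonneg (sq_nonneg _) (h0 _))]
  congr 1
  have hpos : 0 < p.1 ^ 2 + p.2 ^ 2 := by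
    rcases eq_or_ne p.1 0 with h1 | h1
    · rcases eq_or_ne p.2 0 with h2 | h2
      · exact absurd (Prod.ext h1 h2) hp
      · have := sq_nonneg p.1
        have := pow_pos (abs_pos.mpr h2) 2
        rw [sq_abs] at this
        linarith
    · have := sq_nonneg p.2
      have := pow_pos (abs_pos.mpr h1) 2
      rw [sq_abs] at this
      linarith
  have hn2 : nr p ^ 2 = p.1 ^ 2 + p.2 ^ 2 := Real.sq_sqrt hpos.le
  have hn : nr p ^ 2 ≠ 0 := by rw [hn2]; exact hpos.ne'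
  rw [← add_mul, div_pow, div_pow, ← add_div, add_comm (p.2 ^ 2), ← hn2, div_self hn, one_mul]

theorem dscB_half (A I : ENNReal) (h : A + A = I) : A = ENNReal.ofReal (1 / 2) * I := by
  rw [← h, ← two_mul, ← mul_assoc]
  have : ENNReal.ofReal (1 / 2) * 2 = 1 := by
    have h2 : (2 : ENNReal) = ENNReal.ofReal 2 := by norm_num
    rw [h2, ← ENNReal.ofReal_mul (by norm_num)]
    norm_num
  rw [this, one_mul]

theorem dsc_sin (R : ℝ) (hR : 0 < R) (G : ℝ → ℝ) (hG : Measurable G) (h0 : ∀ r, 0 ≤ G r) :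
    ∫⁻ p in disc R, ENNReal.ofReal ((p.2 / nr p) ^ 2 * G (nr p)) =
      ENNReal.ofReal (1 / 2) * ∫⁻ p in disc R, ENNReal.ofReal (G (nr p)) := by
  have h1 := dscB_sum R G hG h0
  rw [← dscB_swap R G] at h1
  exact dscB_half _ _ h1

theorem dsc_cos (R : ℝ) (hR : 0 < R) (G : ℝ → ℝ) (hG : Measurable G) (h0 : ∀ r, 0 ≤ G r) :
    ∫⁻ p in disc R, ENNReal.ofReal ((p.1 / nr p) ^ 2 * G (nr p)) =
      ENNReal.ofReal (1 / 2) * ∫⁻ p in disc R, ENNReal.ofReal (G (nr p)) := by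
  rw [← dscB_swap R G]
  exact dsc_sin R hR G hG h0

end Pool.Agent.Lib_helper59.REV
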