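import Pool.Agent.Lib_helper59.REV.Defs

/-! # REV, block oned (helper39) -/

open MeasureTheory Filter Topology

namespace Pool.Agent.Lib_helper59.REV

theorem oned_cont (R : ℝ) : Continuous fun d : ℝ => √(R ^ 2 - d ^ 2) := by fun_prop

theorem oned_int (R : ℝ) (hR : 0 < R) :
    ∫ d in (-R)..R, √(R ^ 2 - d ^ 2) = Real.pi * R ^ 2 / 2 := by
  have h1 : ∫ x in (-1 : ℝ)..1, √(R ^ 2 - (R * x) ^ 2) =
      R⁻¹ • ∫ x in (R * (-1))..(R * 1), √(R ^ 2 - x ^ 2) :=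
    intervalIntegral.integral_comp_mul_left (fun x => √(R ^ 2 - x ^ 2)) hR.ne'
  have h2 : ∀ x : ℝ, √(R ^ 2 - (R * x) ^ 2) = R * √(1 - x ^ 2) := by
    intro x
    have : R ^ 2 - (R * x) ^ 2 = R ^ 2 * (1 - x ^ 2) := by ring
    rw [this, Real.sqrt_mul (sq_nonneg R), Real.sqrt_sq hR.le]
  simp_rw [h2] at h1
  rw [intervalIntegral.integral_const_mul, integral_sqrt_one_sub_sq, mul_neg, mul_one,
    smul_eq_mul] at h1
  field_simp at h1
  linarith

theorem one_w (R : ℝ) (hR : 0 < R) :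
    ∫⁻ d in Set.Ioo (-R) R, ENNReal.ofReal √(R ^ 2 - d ^ 2) =
      ENNReal.ofReal (Real.pi * R ^ 2 / 2) := by
  have hi : IntegrableOn (fun d : ℝ => √(R ^ 2 - d ^ 2)) (Set.Ioo (-R) R) :=
    ((oned_cont R).continuousOn.integrableOn_Icc (a := -R) (b := R)).mono_set
      Set.Ioo_subset_Icc_self
  rw [← ofReal_integral_eq_lintegral_ofReal hi
    (Eventually.of_forall fun _ => Real.sqrt_nonneg _)]
  congr 1
  rw [← integral_Ioc_eq_integral_Ioo, ← intervalIntegral.integral_of_le (by linarith),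
    oned_int R hR]

theorem one_w2 (R : ℝ) (hR : 0 < R) :
    ∫⁻ d in Set.Ioo (-R) R, ENNReal.ofReal √(R ^ 2 - d ^ 2) ^ 2 =
      ENNReal.ofReal (4 * R ^ 3 / 3) := by
  have h1 : ∫⁻ d in Set.Ioo (-R) R, ENNReal.ofReal √(R ^ 2 - d ^ 2) ^ 2 =
      ∫⁻ d in Set.Ioo (-R) R, ENNReal.ofReal (R ^ 2 - d ^ 2) := by
    refine setLIntegral_congr_fun measurableSet_Ioo fun d hd => ?_
    have h2 : 0 ≤ R ^ 2 - d ^ 2 := by nlinarith [hd.1, hd.2]
    show ENNReal.ofReal √(R ^ 2 - d ^ 2) ^ 2 = ENNReal.ofReal (R ^ 2 - d ^ 2)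
    rw [← ENNReal.ofReal_pow (Real.sqrt_nonneg _), Real.sq_sqrt h2]
  have hc : Continuous fun d : ℝ => R ^ 2 - d ^ 2 := by fun_prop
  have hi : IntegrableOn (fun d : ℝ => R ^ 2 - d ^ 2) (Set.Ioo (-R) R) :=
    (hc.continuousOn.integrableOn_Icc (a := -R) (b := R)).mono_set Set.Ioo_subset_Icc_self
  have hnn : 0 ≤ᵐ[volume.restrict (Set.Ioo (-R) R)] fun d : ℝ => R ^ 2 - d ^ 2 := by
    filter_upwards [ae_restrict_mem measurableSet_Ioo] with d hd
    show 0 ≤ R ^ 2 - d ^ 2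
    nlinarith [hd.1, hd.2]
  rw [h1, ← ofReal_integral_eq_lintegral_ofReal hi hnn]
  congr 1
  rw [← integral_Ioc_eq_integral_Ioo, ← intervalIntegral.integral_of_le (by linarith),
    intervalIntegral.integral_sub (by simp) (by
      exact (continuous_pow 2).intervalIntegrable _ _), integral_pow]
  rw [intervalIntegral.integral_const, smul_eq_mul]
  push_cast
  ring

end Pool.Agent.Lib_helper59.REV
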