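import Pool.Agent.Lib_helper59.REV.Defs
import Pool.Agent.Lib_helper59.REVF.oned
import Pool.Agent.Lib_helper59.REVF.dscA
import Pool.Agent.Lib_helper59.REVF.dscB

/-! # REV, block intB -/

open MeasureTheory Filter Topology

namespace Pool.Agent.Lib_helper59.REV

theorem intB_nr_meas : Measurable nr := by
  unfold nr
  fun_prop

theorem intB_gl_meas (u : ℝ → ℝ) : Measurable (fun p : ℝ × ℝ => gl u p.1 p.2) := by
  unfold gl
  have h1 : Measurable (fun p : ℝ × ℝ => nr (p.1, p.2)) := intB_nr_meas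
  have h2 : Measurable (fun p : ℝ × ℝ => deriv u (nr (p.1, p.2))) := (measurable_deriv u).comp h1
  have h3 : Measurable (fun p : ℝ × ℝ => p.2 / nr (p.1, p.2)) := measurable_snd.div h1
  exact (measurable_const.add ((h2.mul h3).pow_const 2)).sqrt

theorem intB_gr_meas (u : ℝ → ℝ) : Measurable (gr u) := by
  unfold gr
  exact (measurable_const.add ((measurable_deriv u).pow_const 2)).sqrt

theorem intB_mem (R d s : ℝ) :
    s ∈ Set.Ioo (-√(R ^ 2 - d ^ 2)) (√(R ^ 2 - d ^ 2)) ↔ (d, s) ∈ disc R := by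
  unfold disc
  simp only [Set.mem_Ioo, Set.mem_ofPred_eq]
  rw [← abs_lt, Real.lt_sqrt (abs_nonneg s), sq_abs]
  constructor <;> intro h <;> linarith

theorem intB_col (R : ℝ) (hR : 0 < R) (g : ℝ × ℝ → ENNReal) (d : ℝ) :
    ∫⁻ s in Set.Ioo (-√(R ^ 2 - d ^ 2)) (√(R ^ 2 - d ^ 2)), g (d, s) =
      ∫⁻ s : ℝ, (disc R).indicator g (d, s) := by
  rw [← lintegral_indicator measurableSet_Ioo]
  refine lintegral_congr fun s => ?_
  by_cases h : (d, s) ∈ disc R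
  · rw [Set.indicator_of_mem h, Set.indicator_of_mem ((intB_mem R d s).mpr h)]
  · rw [Set.indicator_of_notMem h,
      Set.indicator_of_notMem (fun h' => h ((intB_mem R d s).mp h'))]

theorem intB_colzero (R : ℝ) (hR : 0 < R) (g : ℝ × ℝ → ENNReal) (d : ℝ)
    (hd : d ∉ Set.Ioo (-R) R) : ∫⁻ s : ℝ, (disc R).indicator g (d, s) = 0 := by
  rw [← intB_col R hR]
  have h1 : R ^ 2 - d ^ 2 ≤ 0 := by
    rw [Set.mem_Ioo, ← abs_lt, not_lt] at hd
    have := pow_le_pow_left₀ hR.le hd 2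
    rw [sq_abs] at this
    linarith
  rw [Real.sqrt_eq_zero_of_nonpos h1]
  simp

theorem intB_tonelli (R : ℝ) (hR : 0 < R) (g : ℝ × ℝ → ENNReal) (hg : Measurable g)
    (w : ℝ → ENNReal) (hw : Measurable w) :
    ∫⁻ d in Set.Ioo (-R) R, w d *
      (∫⁻ s in Set.Ioo (-√(R ^ 2 - d ^ 2)) (√(R ^ 2 - d ^ 2)), g (d, s)) =
      ∫⁻ p in disc R, w p.1 * g p := by
  have hD : MeasurableSet (disc R) := dsc_meas R
  have hi : Measurable ((disc R).indicator g) := hg.indicator hD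
  calc ∫⁻ d in Set.Ioo (-R) R, w d *
      (∫⁻ s in Set.Ioo (-√(R ^ 2 - d ^ 2)) (√(R ^ 2 - d ^ 2)), g (d, s))
      = ∫⁻ d : ℝ, w d * ∫⁻ s : ℝ, (disc R).indicator g (d, s) := by
        rw [← lintegral_indicator measurableSet_Ioo]
        refine lintegral_congr fun d => ?_
        by_cases hd : d ∈ Set.Ioo (-R) R
        · rw [Set.indicator_of_mem hd, intB_col R hR]
        · rw [Set.indicator_of_notMem hd, intB_colzero R hR g d hd, mul_zero]
    _ = ∫⁻ d : ℝ, ∫⁻ s : ℝ, w d * (disc R).indicator g (d, s) := by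
        refine lintegral_congr fun d => ?_
        have hm : Measurable (fun s : ℝ => (disc R).indicator g (d, s)) :=
          hi.comp measurable_prodMk_left
        exact (lintegral_const_mul _ hm).symm
    _ = ∫⁻ p : ℝ × ℝ, w p.1 * (disc R).indicator g p := by
        have hm : Measurable (fun p : ℝ × ℝ => w p.1 * (disc R).indicator g p) :=
          (hw.comp measurable_fst).mul hi
        rw [Measure.volume_eq_prod]
        exact (lintegral_prod _ hm.aemeasurable).symm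
    _ = ∫⁻ p in disc R, w p.1 * g p := by
        rw [← lintegral_indicator hD]
        refine lintegral_congr fun p => ?_
        by_cases hp : p ∈ disc R
        · rw [Set.indicator_of_mem hp, Set.indicator_of_mem hp]
        · rw [Set.indicator_of_notMem hp, Set.indicator_of_notMem hp, mul_zero]

theorem intB_A_meas (R : ℝ) (hR : 0 < R) (g : ℝ × ℝ → ENNReal) (hg : Measurable g) :
    Measurable (fun d : ℝ =>
      ∫⁻ s in Set.Ioo (-√(R ^ 2 - d ^ 2)) (√(R ^ 2 - d ^ 2)), g (d, s)) := by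
  have e : (fun d : ℝ => ∫⁻ s in Set.Ioo (-√(R ^ 2 - d ^ 2)) (√(R ^ 2 - d ^ 2)), g (d, s)) =
      fun d => ∫⁻ s : ℝ, (disc R).indicator g (d, s) := by
    funext d
    exact intB_col R hR g d
  rw [e]
  exact (hg.indicator (dsc_meas R)).lintegral_prod_right'

theorem intB_L0 (R : ℝ) (u v : ℝ → ℝ) (h : Prof R u v) :
    ∫⁻ d in Set.Ioo (-R) R, ENNReal.ofReal √(R ^ 2 - d ^ 2) * L0 R u v d =
      (∫⁻ p in disc R, ENNReal.ofReal (√(R ^ 2 - p.1 ^ 2) * gl u p.1 p.2)) +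
      (∫⁻ p in disc R, ENNReal.ofReal (√(R ^ 2 - p.1 ^ 2) * gl v p.1 p.2)) +
      ENNReal.ofReal (Real.pi * R ^ 2 * (u R + v R)) := by
  have hR := h.cu.hR
  have hw : Measurable (fun d : ℝ => ENNReal.ofReal √(R ^ 2 - d ^ 2)) := by fun_prop
  have gu : Measurable (fun p : ℝ × ℝ => ENNReal.ofReal (gl u p.1 p.2)) :=
    (intB_gl_meas u).ennreal_ofReal
  have gv : Measurable (fun p : ℝ × ℝ => ENNReal.ofReal (gl v p.1 p.2)) :=
    (intB_gl_meas v).ennreal_ofReal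
  have mu := intB_A_meas R hR _ gu
  have mv := intB_A_meas R hR _ gv
  have tu := intB_tonelli R hR _ gu _ hw
  have tv := intB_tonelli R hR _ gv _ hw
  simp only at mu mv tu tv
  have e1 : ∀ d : ℝ, ENNReal.ofReal √(R ^ 2 - d ^ 2) * L0 R u v d =
      (ENNReal.ofReal √(R ^ 2 - d ^ 2) *
        ∫⁻ s in Set.Ioo (-√(R ^ 2 - d ^ 2)) (√(R ^ 2 - d ^ 2)), ENNReal.ofReal (gl u d s)) +
      (ENNReal.ofReal √(R ^ 2 - d ^ 2) *
        ∫⁻ s in Set.Ioo (-√(R ^ 2 - d ^ 2)) (√(R ^ 2 - d ^ 2)), ENNReal.ofReal (gl v d s)) +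
      ENNReal.ofReal √(R ^ 2 - d ^ 2) * ENNReal.ofReal (2 * (u R + v R)) := by
    intro d
    unfold L0
    rw [mul_add, mul_add]
  have key : ∀ (f : ℝ → ℝ) , ∀ p : ℝ × ℝ, ENNReal.ofReal √(R ^ 2 - p.1 ^ 2) *
      ENNReal.ofReal (gl f p.1 p.2) = ENNReal.ofReal (√(R ^ 2 - p.1 ^ 2) * gl f p.1 p.2) := by
    intro f p
    rw [ENNReal.ofReal_mul (Real.sqrt_nonneg _)]
  have hmu : Measurable (fun d : ℝ => ENNReal.ofReal √(R ^ 2 - d ^ 2) *
      ∫⁻ s in Set.Ioo (-√(R ^ 2 - d ^ 2)) (√(R ^ 2 - d ^ 2)), ENNReal.ofReal (gl u d s)) :=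
    hw.mul mu
  have hmv : Measurable (fun d : ℝ => ENNReal.ofReal √(R ^ 2 - d ^ 2) *
      ∫⁻ s in Set.Ioo (-√(R ^ 2 - d ^ 2)) (√(R ^ 2 - d ^ 2)), ENNReal.ofReal (gl v d s)) :=
    hw.mul mv
  have hmuv : Measurable (fun d : ℝ => (ENNReal.ofReal √(R ^ 2 - d ^ 2) *
      ∫⁻ s in Set.Ioo (-√(R ^ 2 - d ^ 2)) (√(R ^ 2 - d ^ 2)), ENNReal.ofReal (gl u d s)) +
      (ENNReal.ofReal √(R ^ 2 - d ^ 2) *
      ∫⁻ s in Set.Ioo (-√(R ^ 2 - d ^ 2)) (√(R ^ 2 - d ^ 2)), ENNReal.ofReal (gl v d s))) :=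
    hmu.add hmv
  rw [lintegral_congr e1, lintegral_add_left hmuv,
    lintegral_add_left hmu, tu, tv, lintegral_mul_const _ hw]
  simp only [key]
  congr 1
  rw [one_w R hR, ← ENNReal.ofReal_mul (by positivity)]
  congr 1
  ring

theorem intB_half (R : ℝ) (hR : 0 < R) (G : ℝ → ℝ) (hG : Measurable G) (h0 : ∀ r, 0 ≤ G r) :
    ∫⁻ p in disc R, ENNReal.ofReal (R * ((p.2 / nr p) ^ 2 * G (nr p)) +
        (p.1 / nr p) ^ 2 * √(R ^ 2 - nr p ^ 2)) =
      ENNReal.ofReal (R / 2) * (∫⁻ p in disc R, ENNReal.ofReal (G (nr p))) +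
        ENNReal.ofReal (Real.pi * R ^ 3 / 3) := by
  have m1 : Measurable (fun p : ℝ × ℝ => ENNReal.ofReal (R * ((p.2 / nr p) ^ 2 * G (nr p)))) := by
    have := intB_nr_meas
    exact (measurable_const.mul (((measurable_snd.div this).pow_const 2).mul
      (hG.comp this))).ennreal_ofReal
  have e : ∀ p : ℝ × ℝ, ENNReal.ofReal (R * ((p.2 / nr p) ^ 2 * G (nr p)) +
        (p.1 / nr p) ^ 2 * √(R ^ 2 - nr p ^ 2)) =
      ENNReal.ofReal (R * ((p.2 / nr p) ^ 2 * G (nr p))) +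
        ENNReal.ofReal ((p.1 / nr p) ^ 2 * √(R ^ 2 - nr p ^ 2)) := by
    intro p
    exact ENNReal.ofReal_add (mul_nonneg hR.le (mul_nonneg (sq_nonneg _) (h0 _)))
      (mul_nonneg (sq_nonneg _) (Real.sqrt_nonneg _))
  have c2 := dsc_cos R hR (fun r => √(R ^ 2 - r ^ 2)) (by fun_prop) (fun r => Real.sqrt_nonneg _)
  have c1 := dsc_sin R hR G hG h0
  have m2 : Measurable (fun p : ℝ × ℝ => ENNReal.ofReal ((p.2 / nr p) ^ 2 * G (nr p))) := by
    have := intB_nr_meas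
    exact (((measurable_snd.div this).pow_const 2).mul (hG.comp this)).ennreal_ofReal
  have c3 : ∫⁻ p in disc R, ENNReal.ofReal (R * ((p.2 / nr p) ^ 2 * G (nr p))) =
      ENNReal.ofReal R * ∫⁻ p in disc R, ENNReal.ofReal ((p.2 / nr p) ^ 2 * G (nr p)) := by
    rw [← lintegral_const_mul _ m2]
    refine lintegral_congr fun p => ?_
    rw [ENNReal.ofReal_mul hR.le]
  rw [lintegral_congr e, lintegral_add_left m1, c3, c1, c2, dsc_half R hR, ← mul_assoc,
    ← ENNReal.ofReal_mul hR.le, ← ENNReal.ofReal_mul (by norm_num)]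
  congr 2
  · congr 1
    ring
  · ring

theorem intB_S1 (R : ℝ) (u v : ℝ → ℝ) (h : Prof R u v) :
    ENNReal.ofReal (R / 2) * S1 R u v + ENNReal.ofReal (2 * Real.pi * R ^ 3 / 3) =
      (∫⁻ p in disc R, ENNReal.ofReal (R * ((p.2 / nr p) ^ 2 * gr u (nr p)) +
        (p.1 / nr p) ^ 2 * √(R ^ 2 - nr p ^ 2))) +
      (∫⁻ p in disc R, ENNReal.ofReal (R * ((p.2 / nr p) ^ 2 * gr v (nr p)) +
        (p.1 / nr p) ^ 2 * √(R ^ 2 - nr p ^ 2))) +
      ENNReal.ofReal (Real.pi * R ^ 2 * (u R + v R)) := by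
  have hR := h.cu.hR
  have g0 : ∀ (f : ℝ → ℝ) (r : ℝ), 0 ≤ gr f r := fun f r => Real.sqrt_nonneg _
  rw [intB_half R hR (gr u) (intB_gr_meas u) (g0 u), intB_half R hR (gr v) (intB_gr_meas v) (g0 v)]
  unfold S1
  rw [mul_add, mul_add, ← ENNReal.ofReal_mul (p := R / 2) (by positivity)]
  have e1 : ENNReal.ofReal (2 * Real.pi * R ^ 3 / 3) =
      ENNReal.ofReal (Real.pi * R ^ 3 / 3) + ENNReal.ofReal (Real.pi * R ^ 3 / 3) := by
    rw [← ENNReal.ofReal_add (by positivity) (by positivity)]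
    congr 1
    ring
  have e2 : R / 2 * (2 * Real.pi * R * (u R + v R)) = Real.pi * R ^ 2 * (u R + v R) := by ring
  rw [e1, e2]
  ring

end Pool.Agent.Lib_helper59.REV
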