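import Pool.Agent.Lib_helper59.REV.Defs

/-! # REV, block eqF -/

open MeasureTheory Filter Topology

namespace Pool.Agent.Lib_helper59.REV

theorem eqF_cs (μ : Measure ℝ) (w L : ℝ → ENNReal) (hw : AEMeasurable w μ)
    (hL : AEMeasurable L μ) :
    (∫⁻ d, w d * L d ∂μ) ^ 2 ≤ (∫⁻ d, w d ^ 2 ∂μ) * (∫⁻ d, L d ^ 2 ∂μ) := by
  have h := ENNReal.lintegral_mul_le_Lp_mul_Lq μ
    (Real.HolderConjugate.two_two) hw hL
  have h2 : (∫⁻ d, w d * L d ∂μ) ^ 2 ≤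
      ((∫⁻ d, w d ^ (2:ℝ) ∂μ) ^ (1 / (2:ℝ)) * (∫⁻ d, L d ^ (2:ℝ) ∂μ) ^ (1 / (2:ℝ))) ^ 2 := by
    exact pow_le_pow_left' h 2
  have h3 : ∀ x : ENNReal, (x ^ (1 / (2:ℝ))) ^ 2 = x := by
    intro x
    rw [← ENNReal.rpow_natCast, ← ENNReal.rpow_mul]
    norm_num
  rw [mul_pow, h3, h3] at h2
  simpa [ENNReal.rpow_two] using h2

theorem eqF_main (R m S V : ℝ) (L A : ℝ → ENNReal) (hR : 0 < R) (hm : 0 ≤ m) (hS : 0 ≤ S)
    (hV : 0 < V) (hL : Measurable L)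
    (hA : ∀ᵐ d : ℝ, d ∈ Set.Ioo (-R) R → ENNReal.ofReal m * L d ^ 2 ≤ A d)
    (hVA : ∫⁻ d : ℝ, A d = ENNReal.ofReal V)
    (hw : ∫⁻ d in Set.Ioo (-R) R, ENNReal.ofReal √(R ^ 2 - d ^ 2) ^ 2 =
      ENNReal.ofReal (4 * R ^ 3 / 3))
    (hI : ENNReal.ofReal (R / 2 * S + 2 * Real.pi * R ^ 3 / 3) ≤
      ∫⁻ d in Set.Ioo (-R) R, ENNReal.ofReal √(R ^ 2 - d ^ 2) * L d)
    (heq : 4 * Real.pi / 9 * m ^ 2 * S ^ 3 = V ^ 2) :
    S = 4 * Real.pi * R ^ 2 ∧ ∫⁻ d in Set.Ioo (-R) R, ENNReal.ofReal √(R ^ 2 - d ^ 2) * L d =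
      ENNReal.ofReal (8 * Real.pi * R ^ 3 / 3) := by
  have hpi := Real.pi_pos
  have hm0 : 0 < m := by
    rcases hm.lt_or_eq with h | h
    · exact h
    · exfalso
      rw [← h] at heq
      have : 0 < V ^ 2 := by positivity
      linarith
  set J : ℝ := R / 2 * S + 2 * Real.pi * R ^ 3 / 3 with hJ
  have hJ0 : 0 ≤ J := by positivity
  set X : ENNReal := ∫⁻ d in Set.Ioo (-R) R, ENNReal.ofReal √(R ^ 2 - d ^ 2) * L d with hX
  have h1 : ENNReal.ofReal m * ∫⁻ d in Set.Ioo (-R) R, L d ^ 2 ≤ ENNReal.ofReal V := by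
    calc ENNReal.ofReal m * ∫⁻ d in Set.Ioo (-R) R, L d ^ 2
        = ∫⁻ d in Set.Ioo (-R) R, ENNReal.ofReal m * L d ^ 2 := by
          rw [lintegral_const_mul _ (hL.pow_const 2)]
      _ ≤ ∫⁻ d in Set.Ioo (-R) R, A d :=
          lintegral_mono_ae ((ae_restrict_iff' measurableSet_Ioo).mpr hA)
      _ ≤ ∫⁻ d, A d := setLIntegral_le_lintegral _ _
      _ = ENNReal.ofReal V := hVA
  have h2 : X ^ 2 ≤ ENNReal.ofReal (4 * R ^ 3 / 3) * ∫⁻ d in Set.Ioo (-R) R, L d ^ 2 := by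
    have h2 := eqF_cs (volume.restrict (Set.Ioo (-R) R))
      (fun d => ENNReal.ofReal √(R ^ 2 - d ^ 2)) L
      (by
        have : Measurable fun d : ℝ => ENNReal.ofReal √(R ^ 2 - d ^ 2) := by
          refine ENNReal.measurable_ofReal.comp ?_
          exact (Real.continuous_sqrt.comp (by fun_prop)).measurable
        exact this.aemeasurable) hL.aemeasurable
    rwa [hw] at h2
  have h4 : ENNReal.ofReal m * X ^ 2 ≤ ENNReal.ofReal (4 * R ^ 3 / 3) * ENNReal.ofReal V := by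
    calc ENNReal.ofReal m * X ^ 2
        ≤ ENNReal.ofReal m *
          (ENNReal.ofReal (4 * R ^ 3 / 3) * ∫⁻ d in Set.Ioo (-R) R, L d ^ 2) := by gcongr
      _ = ENNReal.ofReal (4 * R ^ 3 / 3) *
          (ENNReal.ofReal m * ∫⁻ d in Set.Ioo (-R) R, L d ^ 2) := by ring
      _ ≤ _ := by gcongr
  have hXt : X ≠ ⊤ := by
    intro h
    rw [h] at h4
    have h5 : ENNReal.ofReal m * ⊤ ^ 2 = ⊤ := by
      rw [ENNReal.top_pow two_ne_zero, ENNReal.mul_top]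
      rw [ne_eq, ENNReal.ofReal_eq_zero, not_le]
      exact hm0
    rw [h5, top_le_iff] at h4
    exact ENNReal.mul_ne_top ENNReal.ofReal_ne_top ENNReal.ofReal_ne_top h4
  obtain ⟨x, hx0, hx⟩ : ∃ x : ℝ, 0 ≤ x ∧ X = ENNReal.ofReal x :=
    ⟨X.toReal, ENNReal.toReal_nonneg, (ENNReal.ofReal_toReal hXt).symm⟩
  rw [hx] at h4 hI ⊢
  rw [← ENNReal.ofReal_pow hx0, ← ENNReal.ofReal_mul hm, ← ENNReal.ofReal_mul (by positivity)] at h4
  have h5 : m * x ^ 2 ≤ 4 * R ^ 3 / 3 * V := by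
    rwa [ENNReal.ofReal_le_ofReal_iff (by positivity)] at h4
  have hJx : J ≤ x := by rwa [ENNReal.ofReal_le_ofReal_iff hx0] at hI
  have h6 : J = 2 * R * (S / 4 + Real.pi * R ^ 2 / 3) := by rw [hJ]; ring
  have h5' : m * J ^ 2 ≤ 4 * R ^ 3 / 3 * V :=
    (mul_le_mul_of_nonneg_left (pow_le_pow_left₀ hJ0 hJx 2) hm).trans h5
  have h7 : 3 * m * (S / 4 + Real.pi * R ^ 2 / 3) ^ 2 ≤ R * V := by
    rw [h6] at h5'
    have h8 : 4 * R ^ 2 / 3 * (3 * m * (S / 4 + Real.pi * R ^ 2 / 3) ^ 2) ≤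
        4 * R ^ 2 / 3 * (R * V) := by nlinarith [h5']
    exact le_of_mul_le_mul_left h8 (by positivity)
  have h9 : (3 * m * (S / 4 + Real.pi * R ^ 2 / 3) ^ 2) ^ 2 ≤ (R * V) ^ 2 := by
    apply pow_le_pow_left₀ (by positivity) h7
  set a : ℝ := S / 12 with ha
  set b : ℝ := Real.pi * R ^ 2 / 3 with hb
  have hab : S / 4 + b = 3 * a + b := by rw [ha]; ring
  have ha0 : 0 ≤ a := by positivity
  have hb0 : 0 < b := by positivity
  rw [hab] at h7 h9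
  have h10 : (3 * a + b) ^ 4 - 256 * a ^ 3 * b =
      (a - b) ^ 2 * (81 * a ^ 2 + 14 * a * b + b ^ 2) := by ring
  have h11 : (R * V) ^ 2 = 9 * m ^ 2 * (256 * a ^ 3 * b) := by
    have : (R * V) ^ 2 = R ^ 2 * (4 * Real.pi / 9 * m ^ 2 * S ^ 3) := by rw [heq]; ring
    rw [this, ha, hb]
    ring
  have h12 : 9 * m ^ 2 * ((a - b) ^ 2 * (81 * a ^ 2 + 14 * a * b + b ^ 2)) ≤ 0 := by
    rw [← h10]
    have : (3 * m * (3 * a + b) ^ 2) ^ 2 = 9 * m ^ 2 * (3 * a + b) ^ 4 := by ring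
    rw [this] at h9
    linarith
  have h13 : 0 < 81 * a ^ 2 + 14 * a * b + b ^ 2 := by positivity
  have h14 : a = b := by
    by_contra hne
    have h15 : 0 < (a - b) ^ 2 := by
      have : a - b ≠ 0 := sub_ne_zero.2 hne
      positivity
    have : 0 < 9 * m ^ 2 * ((a - b) ^ 2 * (81 * a ^ 2 + 14 * a * b + b ^ 2)) := by positivity
    linarith
  have hS4 : S = 4 * Real.pi * R ^ 2 := by
    rw [ha, hb] at h14
    linarith
  refine ⟨hS4, ?_⟩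
  have hJ8 : J = 8 * Real.pi * R ^ 3 / 3 := by
    rw [hJ, hS4]
    ring
  have h16 : (R * V) ^ 2 = (3 * m * (3 * a + b) ^ 2) ^ 2 := by
    rw [h11, ← h14]
    ring
  have h17 : R * V = 3 * m * (3 * a + b) ^ 2 :=
    (sq_eq_sq₀ (by positivity) (by positivity)).1 h16
  have h18 : m * x ^ 2 ≤ m * J ^ 2 := by
    refine h5.trans (le_of_eq ?_)
    rw [h6, hab]
    have : 4 * R ^ 3 / 3 * V = 4 * R ^ 2 / 3 * (R * V) := by ring
    rw [this, h17]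
    ring
  have h19 : x ^ 2 ≤ J ^ 2 := le_of_mul_le_mul_left h18 hm0
  have h20 : x ≤ J := (pow_le_pow_iff_left₀ hx0 hJ0 two_ne_zero).1 h19
  rw [le_antisymm h20 hJx, hJ8]

end Pool.Agent.Lib_helper59.REV
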