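import Pool.Agent.Lib_helper59.REV.Defs

/-! # REV, block eqI -/

open MeasureTheory Filter Topology

namespace Pool.Agent.Lib_helper59.REV

theorem eqI_cont (R r : ℝ) (h : r ∈ Set.Ioo 0 R) :
    ContinuousAt (fun r : ℝ => -(r / √(R ^ 2 - r ^ 2))) r := by
  have h1 : 0 < R ^ 2 - r ^ 2 := by nlinarith [h.1, h.2]
  have h2 : √(R ^ 2 - r ^ 2) ≠ 0 := (Real.sqrt_pos.2 h1).ne'
  refine ContinuousAt.neg (ContinuousAt.div continuousAt_id ?_ h2)
  exact (Real.continuous_sqrt.comp (continuous_const.sub (continuous_id.pow 2))).continuousAt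

theorem eqI_deriv (R r : ℝ) (h : r ∈ Set.Ioo 0 R) :
    HasDerivAt (fun r : ℝ => √(R ^ 2 - r ^ 2)) (-(r / √(R ^ 2 - r ^ 2))) r := by
  have h1 : 0 < R ^ 2 - r ^ 2 := by nlinarith [h.1, h.2]
  have h2 : √(R ^ 2 - r ^ 2) ≠ 0 := (Real.sqrt_pos.2 h1).ne'
  have h3 : HasDerivAt (fun r : ℝ => R ^ 2 - r ^ 2) (-(2 * r)) r := by
    have := (hasDerivAt_pow 2 r).const_sub (R ^ 2)
    simpa using this
  have h4 := h3.sqrt h1.ne'
  convert h4 using 1
  field_simp

theorem eqI_main (R : ℝ) (u : ℝ → ℝ) (hu : Cap R u)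
    (hd : ∀ᵐ r : ℝ, r ∈ Set.Ioo 0 R → DifferentiableAt ℝ u r ∧
      deriv u r = -(r / √(R ^ 2 - r ^ 2))) :
    ∀ r ∈ Set.Icc 0 R, u r = u R + √(R ^ 2 - r ^ 2) := by
  obtain ⟨hR, hconc, _, hcont⟩ := hu
  set g : ℝ → ℝ := fun r => -(r / √(R ^ 2 - r ^ 2)) with hg
  set w : ℝ → ℝ := fun r => √(R ^ 2 - r ^ 2) with hw
  have hgc : ∀ r ∈ Set.Ioo 0 R, ContinuousAt g r := fun r h => eqI_cont R r h
  have hdense : Dense {r : ℝ | r ∈ Set.Ioo 0 R → DifferentiableAt ℝ u r ∧ deriv u r = g r} :=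
    Measure.dense_of_ae hd
  have good : ∀ p q, 0 ≤ p → p < q → q ≤ R →
      ∃ a ∈ Set.Ioo p q, DifferentiableAt ℝ u a ∧ deriv u a = g a := by
    intro p q hp hpq hq
    obtain ⟨a, ha, hb⟩ := hdense.exists_mem_open isOpen_Ioo (Set.nonempty_Ioo.2 hpq)
    exact ⟨a, hb, ha ⟨by linarith [hb.1], by linarith [hb.2]⟩⟩
  -- upper bound of slopes
  have up : ∀ r s, 0 < r → r < s → s < R → (u s - u r) / (s - r) ≤ g r := by
    intro r s hr hrs hs
    refine le_of_forall_pos_le_add fun ε hε => ?_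
    have hc := hgc r ⟨hr, by linarith⟩
    obtain ⟨δ, hδ, hδ'⟩ := Metric.continuousAt_iff.1 hc ε hε
    obtain ⟨a, ha, had, hag⟩ := good (max 0 (r - δ)) r (le_max_left _ _)
      (max_lt hr (by linarith)) (by linarith)
    have ha0 : 0 < a := lt_of_le_of_lt (le_max_left _ _) ha.1
    have ha1 : r - δ < a := lt_of_le_of_lt (le_max_right _ _) ha.1
    have h1 := hδ' (x := a) (by rw [Real.dist_eq, abs_lt]; constructor <;> linarith [ha.2])
    rw [Real.dist_eq, abs_lt] at h1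
    have h2 : slope u a r ≤ deriv u a :=
      hconc.slope_le_deriv (x := a) (y := r) ⟨ha0.le, by linarith [ha.2]⟩
        ⟨hr.le, by linarith⟩ ha.2 had
    have h3 := hconc.slope_anti_adjacent (x := a) (y := r) (z := s)
      ⟨ha0.le, by linarith [ha.2]⟩ ⟨by linarith, hs.le⟩ ha.2 hrs
    rw [slope_def_field] at h2
    linarith [h1.2]
  have low : ∀ r s, 0 < r → r < s → s < R → g s ≤ (u s - u r) / (s - r) := by
    intro r s hr hrs hs
    refine le_of_forall_pos_le_add fun ε hε => ?_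
    have hc := hgc s ⟨by linarith, hs⟩
    obtain ⟨δ, hδ, hδ'⟩ := Metric.continuousAt_iff.1 hc ε hε
    obtain ⟨b, hb, hbd, hbg⟩ := good s (min R (s + δ)) (by linarith)
      (lt_min hs (by linarith)) (min_le_left _ _)
    have hb0 : b < R := lt_of_lt_of_le hb.2 (min_le_left _ _)
    have hb1 : b < s + δ := lt_of_lt_of_le hb.2 (min_le_right _ _)
    have h1 := hδ' (x := b) (by rw [Real.dist_eq, abs_lt]; constructor <;> linarith [hb.1])
    rw [Real.dist_eq, abs_lt] at h1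
    have h2 : deriv u b ≤ slope u s b :=
      hconc.deriv_le_slope (x := s) (y := b) ⟨by linarith, hs.le⟩
        ⟨by linarith [hb.1], hb0.le⟩ hb.1 hbd
    have h3 := hconc.slope_anti_adjacent (x := r) (y := s) (z := b)
      ⟨hr.le, by linarith⟩ ⟨by linarith [hb.1], hb0.le⟩ hrs hb.1
    rw [slope_def_field] at h2
    linarith [h1.1]
  -- right derivative of u
  have hder : ∀ r ∈ Set.Ioo 0 R, HasDerivWithinAt u (g r) (Set.Ici r) r := by
    intro r hr
    rw [← hasDerivWithinAt_Ioi_iff_Ici, hasDerivWithinAt_iff_tendsto_slope' (by simp)]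
    have e1 : ∀ᶠ s in 𝓝[>] r, s ∈ Set.Ioo r R := Ioo_mem_nhdsGT hr.2
    refine tendsto_of_tendsto_of_tendsto_of_le_of_le' (g := g) (h := fun _ => g r) ?_
      tendsto_const_nhds ?_ ?_
    · exact (hgc r hr).tendsto.mono_left nhdsWithin_le_nhds
    · filter_upwards [e1] with s hs
      rw [slope_def_field]
      exact low r s hr.1 hs.1 hs.2
    · filter_upwards [e1] with s hs
      rw [slope_def_field]
      exact up r s hr.1 hs.1 hs.2
  have hwc : Continuous w :=
    Real.continuous_sqrt.comp (continuous_const.sub (continuous_id.pow 2))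
  have hwR : w R = 0 := by simp [hw]
  have key : ∀ a ∈ Set.Ioo 0 R, u a = u R + w a := by
    intro a ha
    have h1 := constant_of_has_deriv_right_zero (f := fun r => u r - w r) (a := a) (b := R)
      ((hcont.mono (Set.Icc_subset_Icc_left ha.1.le)).sub hwc.continuousOn) (by
        intro x hx
        have hx' : x ∈ Set.Ioo 0 R := ⟨lt_of_lt_of_le ha.1 hx.1, hx.2⟩
        have h5 : HasDerivWithinAt (fun r => u r - w r) (g x - g x) (Set.Ici x) x :=
          (hder x hx').sub (eqI_deriv R x hx').hasDerivWithinAt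
        rw [sub_self] at h5
        exact h5) R ⟨ha.2.le, le_rfl⟩
    simp only [hwR] at h1
    linarith
  intro r hr
  change u r = u R + w r
  rcases eq_or_lt_of_le hr.1 with h0 | h0
  · subst h0
    have hne : (𝓝[Set.Ioo 0 R] (0:ℝ)).NeBot := by
      rw [nhdsWithin_Ioo_eq_nhdsGT hR]
      infer_instance
    have t1 : Tendsto u (𝓝[Set.Ioo 0 R] 0) (𝓝 (u 0)) :=
      (hcont 0 ⟨le_rfl, hR.le⟩).mono_left (nhdsWithin_mono _ Set.Ioo_subset_Icc_self)
    have t2 : Tendsto (fun r => u R + w r) (𝓝[Set.Ioo 0 R] 0) (𝓝 (u R + w 0)) :=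
      ((continuous_const.add hwc).tendsto 0).mono_left nhdsWithin_le_nhds
    refine tendsto_nhds_unique t1 (t2.congr' ?_)
    filter_upwards [self_mem_nhdsWithin] with a ha
    exact (key a ha).symm
  · rcases eq_or_lt_of_le hr.2 with h1 | h1
    · subst h1
      rw [hwR, add_zero]
    · exact key r ⟨h0, h1⟩

end Pool.Agent.Lib_helper59.REV
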