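import Pool.Agent.Lib_helper59.REV.Defs

open MeasureTheory Filter Topology

namespace Pool.Agent.Lib_helper59.REV

theorem pwi_main (R : ℝ) (f : ℝ → ℝ) (x y : ℝ) (h0 : 0 < nr (x, y)) (h1 : nr (x, y) < R) :
    R * ((y / nr (x, y)) ^ 2 * gr f (nr (x, y))) +
        (x / nr (x, y)) ^ 2 * √(R ^ 2 - nr (x, y) ^ 2) ≤
      √(R ^ 2 - x ^ 2) * gl f x y := by
  have hr2 : nr (x, y) ^ 2 = x ^ 2 + y ^ 2 := by
    unfold nr
    exact Real.sq_sqrt (by positivity)
  unfold gl gr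
  set r := nr (x, y) with hr
  set q := deriv f r with hq
  set s := y / r with hs
  set c := x / r with hc
  have hx : x = c * r := by rw [hc]; field_simp
  have hy : y = s * r := by rw [hs]; field_simp
  have hsc : s ^ 2 + c ^ 2 = 1 := by
    rw [hs, hc, div_pow, div_pow, ← add_div, add_comm, ← hr2, div_self (by positivity)]
  have hR : 0 < R := h0.trans h1
  have hA : 0 ≤ R ^ 2 - r ^ 2 := by nlinarith
  have hB : R ^ 2 - x ^ 2 = R ^ 2 * s ^ 2 + (R ^ 2 - r ^ 2) * c ^ 2 := by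
    rw [hx]
    linear_combination (-R ^ 2) * hsc
  have hC : 1 + (q * s) ^ 2 = (1 + q ^ 2) * s ^ 2 + c ^ 2 := by
    linear_combination (-1 : ℝ) * hsc
  rw [hB, hC, ← Real.sqrt_mul (by positivity)]
  apply Real.le_sqrt_of_sq_le
  have e1 : √(1 + q ^ 2) ^ 2 = 1 + q ^ 2 := Real.sq_sqrt (by positivity)
  have e2 : √(R ^ 2 - r ^ 2) ^ 2 = R ^ 2 - r ^ 2 := Real.sq_sqrt hA
  set a := √(1 + q ^ 2) with ha
  set b := √(R ^ 2 - r ^ 2) with hb
  rw [← e1, ← e2]
  nlinarith [sq_nonneg (s * c * (R - a * b)), sq_nonneg (s * c)]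

end Pool.Agent.Lib_helper59.REV
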