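import Pool.Agent.Lib_helper59.REV.Defs
import Pool.Agent.Lib_helper59.REVF.intB
import Pool.Agent.Lib_helper59.REVF.pwi
import Pool.Agent.Lib_helper59.REVF.dif

/-! # REV, block eqG -/

open MeasureTheory Filter Topology

namespace Pool.Agent.Lib_helper59.REV

theorem eqG_meas_nr : Measurable nr := by
  unfold nr
  fun_prop

theorem eqG_meas_disc (R : ℝ) : MeasurableSet (disc R) := by
  have : IsOpen (disc R) := by
    unfold disc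
    exact isOpen_lt (by fun_prop) (by fun_prop)
  exact this.measurableSet

theorem eqG_meas (R : ℝ) (f : ℝ → ℝ) :
    Measurable fun p : ℝ × ℝ => ENNReal.ofReal (√(R ^ 2 - p.1 ^ 2) * gl f p.1 p.2) := by
  have h1 : Measurable fun p : ℝ × ℝ => deriv f (nr (p.1, p.2)) :=
    (measurable_deriv f).comp eqG_meas_nr
  have h2 : Measurable fun p : ℝ × ℝ => nr (p.1, p.2) := eqG_meas_nr
  unfold gl
  fun_prop

theorem eqG_le (R : ℝ) (u v : ℝ → ℝ) (h : Prof R u v) (f : ℝ → ℝ) :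
    ∀ᵐ p : ℝ × ℝ ∂(volume.restrict (disc R)),
      ENNReal.ofReal (R * ((p.2 / nr p) ^ 2 * gr f (nr p)) +
        (p.1 / nr p) ^ 2 * √(R ^ 2 - nr p ^ 2)) ≤
      ENNReal.ofReal (√(R ^ 2 - p.1 ^ 2) * gl f p.1 p.2) := by
  rw [ae_restrict_iff' (eqG_meas_disc R)]
  filter_upwards [dif_disc R u h.cu] with p hp hd
  obtain ⟨h0, h1, -⟩ := hp hd
  exact ENNReal.ofReal_le_ofReal (pwi_main R f p.1 p.2 h0 h1)

theorem eqG_eq (R : ℝ) (u v : ℝ → ℝ) (h : Prof R u v) (f : ℝ → ℝ)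
    (hfin : ∫⁻ p in disc R, ENNReal.ofReal (R * ((p.2 / nr p) ^ 2 * gr f (nr p)) +
        (p.1 / nr p) ^ 2 * √(R ^ 2 - nr p ^ 2)) ≠ ⊤)
    (hle : ∫⁻ p in disc R, ENNReal.ofReal (√(R ^ 2 - p.1 ^ 2) * gl f p.1 p.2) ≤
      ∫⁻ p in disc R, ENNReal.ofReal (R * ((p.2 / nr p) ^ 2 * gr f (nr p)) +
        (p.1 / nr p) ^ 2 * √(R ^ 2 - nr p ^ 2))) :
    ∀ᵐ p : ℝ × ℝ, p ∈ disc R → R * ((p.2 / nr p) ^ 2 * gr f (nr p)) +
        (p.1 / nr p) ^ 2 * √(R ^ 2 - nr p ^ 2) = √(R ^ 2 - p.1 ^ 2) * gl f p.1 p.2 := by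
  have h1 := ae_eq_of_ae_le_of_lintegral_le (eqG_le R u v h f) hfin
    (eqG_meas R f).aemeasurable hle
  rw [Filter.EventuallyEq, ae_restrict_iff' (eqG_meas_disc R)] at h1
  filter_upwards [h1] with p hp hd
  have h2 := hp hd
  have hR := h.cu.hR
  have h3 : 0 ≤ R * ((p.2 / nr p) ^ 2 * gr f (nr p)) +
        (p.1 / nr p) ^ 2 * √(R ^ 2 - nr p ^ 2) := by
    unfold gr
    positivity
  have h4 : 0 ≤ √(R ^ 2 - p.1 ^ 2) * gl f p.1 p.2 := by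
    unfold gl
    positivity
  exact (ENNReal.ofReal_eq_ofReal_iff h3 h4).1 h2

theorem eqG_main (R : ℝ) (u v : ℝ → ℝ) (h : Prof R u v) (hfin : S1 R u v ≠ ⊤)
    (hE : ∫⁻ d in Set.Ioo (-R) R, ENNReal.ofReal √(R ^ 2 - d ^ 2) * L0 R u v d ≤
      ENNReal.ofReal (R / 2) * S1 R u v + ENNReal.ofReal (2 * Real.pi * R ^ 3 / 3)) :
    (∀ᵐ p : ℝ × ℝ, p ∈ disc R → R * ((p.2 / nr p) ^ 2 * gr u (nr p)) +
        (p.1 / nr p) ^ 2 * √(R ^ 2 - nr p ^ 2) = √(R ^ 2 - p.1 ^ 2) * gl u p.1 p.2) ∧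
    (∀ᵐ p : ℝ × ℝ, p ∈ disc R → R * ((p.2 / nr p) ^ 2 * gr v (nr p)) +
        (p.1 / nr p) ^ 2 * √(R ^ 2 - nr p ^ 2) = √(R ^ 2 - p.1 ^ 2) * gl v p.1 p.2) := by
  have hf2 : ENNReal.ofReal (R / 2) * S1 R u v + ENNReal.ofReal (2 * Real.pi * R ^ 3 / 3) ≠ ⊤ :=
    ENNReal.add_ne_top.2 ⟨ENNReal.mul_ne_top ENNReal.ofReal_ne_top hfin, ENNReal.ofReal_ne_top⟩
  rw [intB_L0 R u v h] at hE
  rw [intB_S1 R u v h] at hE hf2
  have hleu := lintegral_mono_ae (eqG_le R u v h u)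
  have hlev := lintegral_mono_ae (eqG_le R u v h v)
  set au := ∫⁻ p in disc R, ENNReal.ofReal (R * ((p.2 / nr p) ^ 2 * gr u (nr p)) +
        (p.1 / nr p) ^ 2 * √(R ^ 2 - nr p ^ 2)) with hau
  set av := ∫⁻ p in disc R, ENNReal.ofReal (R * ((p.2 / nr p) ^ 2 * gr v (nr p)) +
        (p.1 / nr p) ^ 2 * √(R ^ 2 - nr p ^ 2)) with hav
  set bu := ∫⁻ p in disc R, ENNReal.ofReal (√(R ^ 2 - p.1 ^ 2) * gl u p.1 p.2) with hbu
  set bv := ∫⁻ p in disc R, ENNReal.ofReal (√(R ^ 2 - p.1 ^ 2) * gl v p.1 p.2) with hbv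
  have hab := (ENNReal.add_ne_top.1 hf2).1
  obtain ⟨hauf, havf⟩ := ENNReal.add_ne_top.1 hab
  have hE2 : bu + bv ≤ au + av := (ENNReal.add_le_add_iff_right ENNReal.ofReal_ne_top).1 hE
  have hu : bu ≤ au := by
    have : bu + av ≤ au + av := (add_le_add le_rfl hlev).trans hE2
    exact (ENNReal.add_le_add_iff_right havf).1 this
  have hv : bv ≤ av := by
    have : au + bv ≤ au + av := (add_le_add hleu le_rfl).trans hE2
    exact (ENNReal.add_le_add_iff_left hauf).1 this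
  exact ⟨eqG_eq R u v h u hauf hu, eqG_eq R u v h v havf hv⟩

end Pool.Agent.Lib_helper59.REV
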