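import Pool.Agent.Lib_helper59.REV.Defs
import Pool.Agent.Lib_helper59.REVF.dif

/-! # REV, block eqH -/

open MeasureTheory Filter Topology

namespace Pool.Agent.Lib_helper59.REV

theorem eqH_pt (R : ℝ) (f : ℝ → ℝ) (x y : ℝ) (hx : x ≠ 0) (hy : y ≠ 0) (h1 : nr (x, y) < R)
    (he : R * ((y / nr (x, y)) ^ 2 * gr f (nr (x, y))) +
      (x / nr (x, y)) ^ 2 * √(R ^ 2 - nr (x, y) ^ 2) = √(R ^ 2 - x ^ 2) * gl f x y) :
    deriv f (nr (x, y)) ^ 2 = nr (x, y) ^ 2 / (R ^ 2 - nr (x, y) ^ 2) := by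
  have hx2 : 0 < x ^ 2 := by positivity
  have hy2 : 0 < y ^ 2 := by positivity
  have hn2 : nr (x, y) ^ 2 = x ^ 2 + y ^ 2 := by
    unfold nr
    exact Real.sq_sqrt (by positivity)
  have hn0 : 0 < nr (x, y) := by
    unfold nr
    exact Real.sqrt_pos.2 (by positivity)
  unfold gr gl at he
  set n := nr (x, y) with hn
  set D := deriv f n with hD
  have hRn : 0 < R ^ 2 - n ^ 2 := by nlinarith
  have hRx : 0 < R ^ 2 - x ^ 2 := by nlinarith
  set P := √(1 + D ^ 2) with hP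
  set Q := √(R ^ 2 - n ^ 2) with hQ
  have hP2 : P ^ 2 = 1 + D ^ 2 := Real.sq_sqrt (by positivity)
  have hQ2 : Q ^ 2 = R ^ 2 - n ^ 2 := Real.sq_sqrt hRn.le
  set s := y / n with hs
  set c := x / n with hc
  have hcn : x = c * n := by rw [hc]; field_simp
  have hsn : y = s * n := by rw [hs]; field_simp
  have hcs : c ^ 2 + s ^ 2 = 1 := by
    rw [hc, hs, div_pow, div_pow, ← add_div, ← hn2]
    exact div_self (by positivity)
  have hc0 : c ≠ 0 := div_ne_zero hx hn0.ne'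
  have hs0 : s ≠ 0 := div_ne_zero hy hn0.ne'
  have hsq : (R * (s ^ 2 * P) + c ^ 2 * Q) ^ 2 = (R ^ 2 - x ^ 2) * (1 + (D * s) ^ 2) := by
    rw [he, mul_pow, Real.sq_sqrt hRx.le, Real.sq_sqrt (by positivity)]
  have hx2' : x ^ 2 = c ^ 2 * (R ^ 2 - Q ^ 2) := by
    rw [hQ2, hcn]; ring
  have hD2 : D ^ 2 = P ^ 2 - 1 := by rw [hP2]; ring
  have h3 : s ^ 2 * c ^ 2 * (R - P * Q) ^ 2 = 0 := by
    have h4 : (R ^ 2 - x ^ 2) * (1 + (D * s) ^ 2) =
        (s ^ 2 * R ^ 2 + c ^ 2 * Q ^ 2) * (c ^ 2 + s ^ 2 * P ^ 2) := by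
      rw [hx2', mul_pow, hD2]
      have hc2 : c ^ 2 = 1 - s ^ 2 := by linarith
      rw [hc2]
      ring
    rw [h4] at hsq
    linear_combination (-1) * hsq
  have h5 : (R - P * Q) ^ 2 = 0 := by
    have : s ^ 2 * c ^ 2 ≠ 0 := by positivity
    exact (mul_eq_zero.1 h3).resolve_left this
  have h6 : R = P * Q := by
    have := pow_eq_zero_iff (two_ne_zero) |>.1 h5
    linarith
  have h7 : R ^ 2 = (1 + D ^ 2) * (R ^ 2 - n ^ 2) := by
    rw [← hP2, ← hQ2]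
    nth_rewrite 1 [h6]
    ring
  rw [eq_div_iff hRn.ne']
  linarith

theorem eqH_meas_nr : Measurable nr := by
  unfold nr
  fun_prop

theorem eqH_polar (E : Set ℝ) (hE : MeasurableSet E)
    (h : ∀ᵐ p : ℝ × ℝ, nr p ∉ E) : ∀ᵐ r : ℝ, 0 < r → r ∉ E := by
  have h1 : ∫⁻ p : ℝ × ℝ, E.indicator (fun _ => (1:ENNReal)) (nr p) = 0 := by
    rw [lintegral_eq_zero_iff]
    · filter_upwards [h] with p hp
      simp [Set.indicator_of_notMem hp]
    · exact (measurable_const.indicator hE).comp eqH_meas_nr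
  rw [← lintegral_comp_polarCoord_symm] at h1
  have hmeas : Measurable fun p : ℝ × ℝ => ENNReal.ofReal p.1 •
      E.indicator (fun _ => (1:ENNReal)) (nr (polarCoord.symm p)) := by
    simp only [smul_eq_mul]
    refine Measurable.mul (measurable_fst.ennreal_ofReal) ?_
    refine (measurable_const.indicator hE).comp (eqH_meas_nr.comp ?_)
    exact continuous_polarCoord_symm.measurable
  rw [lintegral_eq_zero_iff hmeas] at h1
  have h2 : ∀ᵐ p : ℝ × ℝ ∂((volume.restrict (Set.Ioi (0:ℝ))).prod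
      (volume.restrict (Set.Ioo (-Real.pi) Real.pi))), p.1 ∉ E := by
    rw [Measure.prod_restrict, ← Measure.volume_eq_prod]
    have hT : MeasurableSet (Set.Ioi (0:ℝ) ×ˢ Set.Ioo (-Real.pi) Real.pi) :=
      measurableSet_Ioi.prod measurableSet_Ioo
    rw [Filter.EventuallyEq, polarCoord_target, ae_restrict_iff' hT] at h1
    rw [ae_restrict_iff' hT]
    filter_upwards [h1] with p hp hpT hpE
    have h3 := hp hpT
    obtain ⟨hp1, -⟩ := hpT
    have hp1 : 0 < p.1 := hp1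
    have h4 : nr (polarCoord.symm p) = p.1 := by
      rw [polarCoord_symm_apply]
      unfold nr
      have : (p.1 * Real.cos p.2) ^ 2 + (p.1 * Real.sin p.2) ^ 2 = p.1 ^ 2 := by
        have := Real.sin_sq_add_cos_sq p.2
        linear_combination p.1 ^ 2 * this
      simp only []
      rw [this, Real.sqrt_sq hp1.le]
    rw [h4, Set.indicator_of_mem hpE] at h3
    simp at h3
    linarith
  have h5 := Measure.ae_ae_of_ae_prod h2
  rw [ae_restrict_iff' measurableSet_Ioi] at h5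
  filter_upwards [h5] with r hr hr0 hrE
  have h6 := hr hr0
  have h7 : (volume.restrict (Set.Ioo (-Real.pi) Real.pi)) ≠ 0 := by
    rw [Ne, Measure.restrict_eq_zero, Real.volume_Ioo]
    have := Real.pi_pos
    simp
    linarith
  have : (ae (volume.restrict (Set.Ioo (-Real.pi) Real.pi))).NeBot := ae_neBot.2 h7
  obtain ⟨θ, hθ⟩ := h6.exists
  exact hθ hrE

theorem eqH_main (R : ℝ) (u : ℝ → ℝ) (hu : Cap R u)
    (he : ∀ᵐ p : ℝ × ℝ, p ∈ disc R → R * ((p.2 / nr p) ^ 2 * gr u (nr p)) +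
        (p.1 / nr p) ^ 2 * √(R ^ 2 - nr p ^ 2) = √(R ^ 2 - p.1 ^ 2) * gl u p.1 p.2) :
    ∀ᵐ r : ℝ, r ∈ Set.Ioo 0 R → DifferentiableAt ℝ u r ∧ deriv u r = -(r / √(R ^ 2 - r ^ 2)) := by
  set E : Set ℝ := {r | r ∈ Set.Ioo 0 R ∧
    ¬ (DifferentiableAt ℝ u r ∧ deriv u r = -(r / √(R ^ 2 - r ^ 2)))} with hE
  have hEm : MeasurableSet E := by
    refine measurableSet_Ioo.inter (MeasurableSet.compl (MeasurableSet.inter ?_ ?_))
    · exact measurableSet_of_differentiableAt ℝ u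
    · exact measurableSet_eq_fun (measurable_deriv u) (by fun_prop)
  have hR := hu.hR
  have hx : ∀ᵐ p : ℝ × ℝ, p.1 ≠ 0 := by
    rw [Measure.volume_eq_prod]
    have h0 : ∀ᵐ x : ℝ, x ≠ 0 := Measure.ae_ne volume 0
    exact Measure.quasiMeasurePreserving_fst.ae h0
  have hy : ∀ᵐ p : ℝ × ℝ, p.2 ≠ 0 := by
    rw [Measure.volume_eq_prod]
    have h0 : ∀ᵐ x : ℝ, x ≠ 0 := Measure.ae_ne volume 0
    exact Measure.quasiMeasurePreserving_snd.ae h0
  have h1 : ∀ᵐ p : ℝ × ℝ, nr p ∉ E := by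
    filter_upwards [he, dif_disc R u hu, hx, hy] with p hp hd hpx hpy hpE
    obtain ⟨⟨hp0, hpR⟩, hne⟩ := hpE
    have hsq : nr p ^ 2 = p.1 ^ 2 + p.2 ^ 2 := by
      unfold nr
      exact Real.sq_sqrt (by positivity)
    have hdisc : p ∈ disc R := by
      show p.1 ^ 2 + p.2 ^ 2 < R ^ 2
      rw [← hsq]
      exact pow_lt_pow_left₀ hpR hp0.le two_ne_zero
    obtain ⟨-, -, hdiff⟩ := hd hdisc
    apply hne
    refine ⟨hdiff, ?_⟩
    have h2 := eqH_pt R u p.1 p.2 hpx hpy hpR (hp hdisc)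
    have h2 : deriv u (nr p) ^ 2 = nr p ^ 2 / (R ^ 2 - nr p ^ 2) := h2
    have hneg : deriv u (nr p) ≤ 0 := by
      have hmem : Set.Icc 0 R ∈ 𝓝 (nr p) := Icc_mem_nhds hp0 hpR
      rw [← derivWithin_of_mem_nhds hmem]
      exact hu.anti.derivWithin_nonpos
    have hpos : 0 < R ^ 2 - nr p ^ 2 := by
      have := pow_lt_pow_left₀ hpR hp0.le two_ne_zero
      linarith
    have h3 : (-deriv u (nr p)) ^ 2 = (nr p / √(R ^ 2 - nr p ^ 2)) ^ 2 := by
      rw [neg_sq, h2, div_pow, Real.sq_sqrt hpos.le]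
    have h4 : -deriv u (nr p) = nr p / √(R ^ 2 - nr p ^ 2) :=
      (sq_eq_sq₀ (by linarith) (by positivity)).1 h3
    linarith
  filter_upwards [eqH_polar E hEm h1] with r hr hr2
  by_contra hcon
  exact hr hr2.1 ⟨hr2, hcon⟩

end Pool.Agent.Lib_helper59.REV
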