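import Pool.Agent.Lib_helper59.REV.Defs

/-! # REV, block dscC -/

open MeasureTheory Filter Topology

namespace Pool.Agent.Lib_helper59.REV

theorem dscC_deriv (R r : ℝ) (hr : r ∈ Set.Ioo 0 R) :
    HasDerivAt (fun x : ℝ => -(R * √(R ^ 2 - x ^ 2))) (r * (R / √(R ^ 2 - r ^ 2))) r := by
  have hpos : 0 < R ^ 2 - r ^ 2 := by nlinarith [hr.1, hr.2]
  have h1 : HasDerivAt (fun x : ℝ => R ^ 2 - x ^ 2) (-(2 * r)) r := by
    have := (hasDerivAt_pow 2 r).const_sub (R ^ 2)
    simpa using this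
  have h2 := ((h1.sqrt hpos.ne').const_mul R).neg
  refine h2.congr_deriv ?_
  have : √(R ^ 2 - r ^ 2) ≠ 0 := (Real.sqrt_pos.mpr hpos).ne'
  field_simp

theorem dscC_one (R : ℝ) (hR : 0 < R) :
    ∫⁻ r in Set.Ioo 0 R, ENNReal.ofReal (r * (R / √(R ^ 2 - r ^ 2))) =
      ENNReal.ofReal (R ^ 2) := by
  have hc : ContinuousOn (fun x : ℝ => -(R * √(R ^ 2 - x ^ 2))) (Set.Icc 0 R) := by fun_prop
  have hnn : ∀ r ∈ Set.Ioo 0 R, 0 ≤ r * (R / √(R ^ 2 - r ^ 2)) := fun r hr =>
    mul_nonneg hr.1.le (div_nonneg hR.le (Real.sqrt_nonneg _))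
  have hint : IntervalIntegrable (fun r : ℝ => r * (R / √(R ^ 2 - r ^ 2))) volume 0 R := by
    apply intervalIntegral.intervalIntegrable_deriv_of_nonneg
      (g := fun x : ℝ => -(R * √(R ^ 2 - x ^ 2)))
    · rw [Set.uIcc_of_le hR.le]; exact hc
    · intro r hr
      rw [min_eq_left hR.le, max_eq_right hR.le] at hr
      exact dscC_deriv R r hr
    · intro r hr
      rw [min_eq_left hR.le, max_eq_right hR.le] at hr
      exact hnn r hr
  have hval := intervalIntegral.integral_eq_sub_of_hasDerivAt_of_le hR.le hc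
    (fun r hr => dscC_deriv R r hr) hint
  have hval2 : ∫ r in (0:ℝ)..R, r * (R / √(R ^ 2 - r ^ 2)) = R ^ 2 := by
    rw [hval]
    have : √(R ^ 2 - (0:ℝ) ^ 2) = R := by
      rw [show R ^ 2 - (0:ℝ) ^ 2 = R ^ 2 by ring, Real.sqrt_sq hR.le]
    simp only [this]
    simp
    ring
  rw [intervalIntegral.integral_of_le hR.le, integral_Ioc_eq_integral_Ioo] at hval2
  have hI : IntegrableOn (fun r : ℝ => r * (R / √(R ^ 2 - r ^ 2))) (Set.Ioo 0 R) volume := by
    have := (intervalIntegrable_iff_integrableOn_Ioo_of_le hR.le).mp hint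
    exact this
  rw [← ofReal_integral_eq_lintegral_ofReal hI, hval2]
  filter_upwards [self_mem_ae_restrict (μ := volume) (measurableSet_Ioo (a := (0:ℝ)) (b := R))]
    with r hr
  exact hnn r hr

theorem dscC_main (R : ℝ) (hR : 0 < R) :
    ∫⁻ p in disc R, ENNReal.ofReal (R / √(R ^ 2 - nr p ^ 2)) =
      ENNReal.ofReal (2 * Real.pi * R ^ 2) := by
  have hD : MeasurableSet (disc R) := by
    unfold disc
    exact measurableSet_lt (by fun_prop) (by fun_prop)
  have hm : Measurable (fun r : ℝ => ENNReal.ofReal (r * (R / √(R ^ 2 - r ^ 2)))) := by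
    fun_prop
  rw [← lintegral_indicator hD, ← lintegral_comp_polarCoord_symm, polarCoord_target]
  have hpt : ∀ p ∈ Set.Ioi (0:ℝ) ×ˢ Set.Ioo (-Real.pi) Real.pi,
      ENNReal.ofReal p.1 • (disc R).indicator
        (fun p => ENNReal.ofReal (R / √(R ^ 2 - nr p ^ 2))) (polarCoord.symm p) =
      (Set.Ioo 0 R).indicator (fun r => ENNReal.ofReal (r * (R / √(R ^ 2 - r ^ 2)))) p.1 := by
    rintro ⟨r, θ⟩ ⟨hr, -⟩
    have hr0 : 0 < r := hr
    have hsum : (r * Real.cos θ) ^ 2 + (r * Real.sin θ) ^ 2 = r ^ 2 := by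
      have := Real.cos_sq_add_sin_sq θ
      nlinarith [this]
    have hnr : nr (polarCoord.symm (r, θ)) = r := by
      simp only [polarCoord_symm_apply, nr]
      rw [hsum, Real.sqrt_sq hr0.le]
    have hmem : polarCoord.symm (r, θ) ∈ disc R ↔ r ∈ Set.Ioo 0 R := by
      simp only [polarCoord_symm_apply, disc, Set.mem_ofPred_eq, hsum, Set.mem_Ioo]
      constructor
      · intro h
        exact ⟨hr0, lt_of_pow_lt_pow_left₀ 2 hR.le h⟩
      · intro h
        exact pow_lt_pow_left₀ h.2 hr0.le two_ne_zero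
    by_cases h : r ∈ Set.Ioo 0 R
    · rw [Set.indicator_of_mem (hmem.mpr h), Set.indicator_of_mem (show (r, θ).1 ∈ Set.Ioo 0 R from h),
        hnr, smul_eq_mul, ← ENNReal.ofReal_mul hr0.le]
    · rw [Set.indicator_of_notMem (fun h' => h (hmem.mp h')),
        Set.indicator_of_notMem (show (r, θ).1 ∉ Set.Ioo 0 R from h), smul_zero]
  rw [setLIntegral_congr_fun (measurableSet_Ioi.prod measurableSet_Ioo) hpt,
    Measure.volume_eq_prod, ← Measure.prod_restrict]
  have hm2 : Measurable ((Set.Ioo 0 R).indicator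
      (fun r : ℝ => ENNReal.ofReal (r * (R / √(R ^ 2 - r ^ 2))))) := hm.indicator measurableSet_Ioo
  have hm3 : Measurable (fun p : ℝ × ℝ => (Set.Ioo 0 R).indicator
      (fun r : ℝ => ENNReal.ofReal (r * (R / √(R ^ 2 - r ^ 2)))) p.1) := hm2.comp measurable_fst
  rw [lintegral_prod _ hm3.aemeasurable]
  simp only [lintegral_const, Measure.restrict_apply_univ, Real.volume_Ioo]
  rw [lintegral_mul_const _ hm2, lintegral_indicator measurableSet_Ioo,
    Measure.restrict_restrict measurableSet_Ioo, Set.inter_eq_self_of_subset_left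
      (fun x hx => hx.1), dscC_one R hR, ← ENNReal.ofReal_mul (by positivity)]
  congr 1
  ring

end Pool.Agent.Lib_helper59.REV
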