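import Pool.Agent.Lib_helper59.REV.Defs
import Pool.Agent.Lib_helper59.REVF.dscC

/-! # REV, block eqJ -/

open MeasureTheory Filter Topology

namespace Pool.Agent.Lib_helper59.REV

theorem eqJ_deriv (R r c : ℝ) (h : r ∈ Set.Ioo 0 R) (u : ℝ → ℝ)
    (hu : ∀ r ∈ Set.Icc 0 R, u r = c + √(R ^ 2 - r ^ 2)) :
    deriv u r = -(r / √(R ^ 2 - r ^ 2)) := by
  have h1 : 0 < R ^ 2 - r ^ 2 := by nlinarith [h.1, h.2]
  have h2 : √(R ^ 2 - r ^ 2) ≠ 0 := (Real.sqrt_pos.2 h1).ne'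
  have h3 : HasDerivAt (fun r : ℝ => R ^ 2 - r ^ 2) (-(2 * r)) r := by
    have := (hasDerivAt_pow 2 r).const_sub (R ^ 2)
    simpa using this
  have h4 : HasDerivAt (fun r : ℝ => c + √(R ^ 2 - r ^ 2)) (-(r / √(R ^ 2 - r ^ 2))) r := by
    have h6 := (h3.sqrt h1.ne').const_add c
    have h7 : -(2 * r) / (2 * √(R ^ 2 - r ^ 2)) = -(r / √(R ^ 2 - r ^ 2)) := by
      field_simp
    rw [h7] at h6
    exact h6
  have h5 : u =ᶠ[𝓝 r] fun r : ℝ => c + √(R ^ 2 - r ^ 2) := by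
    filter_upwards [Ioo_mem_nhds h.1 h.2] with s hs
    exact hu s ⟨hs.1.le, hs.2.le⟩
  rw [h5.deriv_eq]
  exact h4.deriv

theorem eqJ_gr (R r c : ℝ) (h : r ∈ Set.Ioo 0 R) (u : ℝ → ℝ)
    (hu : ∀ r ∈ Set.Icc 0 R, u r = c + √(R ^ 2 - r ^ 2)) :
    gr u r = R / √(R ^ 2 - r ^ 2) := by
  have h1 : 0 < R ^ 2 - r ^ 2 := by nlinarith [h.1, h.2]
  have hR : 0 < R := h.1.trans h.2
  have h2 : √(R ^ 2 - r ^ 2) ≠ 0 := (Real.sqrt_pos.2 h1).ne'
  unfold gr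
  rw [eqJ_deriv R r c h u hu]
  have h3 : 1 + (-(r / √(R ^ 2 - r ^ 2))) ^ 2 = R ^ 2 / (R ^ 2 - r ^ 2) := by
    rw [neg_sq, div_pow, Real.sq_sqrt h1.le]
    field_simp
    ring
  rw [h3, Real.sqrt_div (sq_nonneg R), Real.sqrt_sq hR.le]

theorem eqJ_int (R c : ℝ) (hR : 0 < R) (u : ℝ → ℝ)
    (hu : ∀ r ∈ Set.Icc 0 R, u r = c + √(R ^ 2 - r ^ 2)) :
    ∫⁻ p in disc R, ENNReal.ofReal (gr u (nr p)) = ENNReal.ofReal (2 * Real.pi * R ^ 2) := by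
  rw [← dscC_main R hR]
  refine lintegral_congr_ae ?_
  have hm : MeasurableSet (disc R) := by
    unfold disc
    exact (isOpen_lt (by fun_prop) continuous_const).measurableSet
  rw [Filter.EventuallyEq, ae_restrict_iff' hm]
  have h0 : ∀ᵐ p : ℝ × ℝ, p ≠ 0 := by
    rw [ae_iff]
    simp
  filter_upwards [h0] with p hp hpd
  have hp2 : 0 < p.1 ^ 2 + p.2 ^ 2 := by
    rcases (show p.1 ≠ 0 ∨ p.2 ≠ 0 by
      by_contra hc
      push Not at hc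
      exact hp (Prod.ext hc.1 hc.2)) with h | h
    · have := sq_pos_of_ne_zero h
      nlinarith [sq_nonneg p.2]
    · have := sq_pos_of_ne_zero h
      nlinarith [sq_nonneg p.1]
  have hn : nr p ∈ Set.Ioo 0 R := by
    unfold nr
    refine ⟨Real.sqrt_pos.2 hp2, ?_⟩
    rw [Real.sqrt_lt' hR]
    exact hpd
  rw [eqJ_gr R (nr p) c hn u hu]

theorem eqJ_main (R : ℝ) (u v : ℝ → ℝ) (h : Prof R u v)
    (hu : ∀ r ∈ Set.Icc 0 R, u r = u R + √(R ^ 2 - r ^ 2))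
    (hv : ∀ r ∈ Set.Icc 0 R, v r = v R + √(R ^ 2 - r ^ 2))
    (hS : S1 R u v ≤ ENNReal.ofReal (4 * Real.pi * R ^ 2)) :
    Bo R u v = Metric.closedBall (!₂[0, 0, u R] : E3) R := by
  have hR : 0 < R := h.cu.hR
  have hpi := Real.pi_pos
  have hh : u R + v R = 0 := by
    refine le_antisymm ?_ h.hh
    unfold S1 at hS
    rw [eqJ_int R (u R) hR u hu, eqJ_int R (v R) hR v hv,
      ← ENNReal.ofReal_add (by positivity) (by positivity),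
      ← ENNReal.ofReal_add (by positivity) (by have := h.hh; positivity),
      ENNReal.ofReal_le_ofReal_iff (by positivity)] at hS
    have h1 : 2 * Real.pi * R * (u R + v R) ≤ 0 := by linarith
    by_contra hc
    push Not at hc
    have : 0 < 2 * Real.pi * R * (u R + v R) := by positivity
    linarith
  ext x
  simp only [Bo, Set.mem_ofPred_eq, Metric.mem_closedBall]
  have hdist : dist x (!₂[0, 0, u R] : E3) = √(x 0 ^ 2 + x 1 ^ 2 + (x 2 - u R) ^ 2) := by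
    rw [EuclideanSpace.dist_eq, Fin.sum_univ_three]
    simp [Real.dist_eq, sq_abs]
  rw [hdist, Real.sqrt_le_left hR.le]
  have hnr : nr (x 0, x 1) ^ 2 = x 0 ^ 2 + x 1 ^ 2 := by
    unfold nr
    rw [Real.sq_sqrt (by positivity)]
  have hn0 : 0 ≤ nr (x 0, x 1) := Real.sqrt_nonneg _
  constructor
  · rintro ⟨h1, h2, h3⟩
    have hm : nr (x 0, x 1) ∈ Set.Icc 0 R := ⟨hn0, by nlinarith⟩
    rw [hu _ hm, hnr] at h3
    rw [hv _ hm, hnr] at h2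
    have h4 : |x 2 - u R| ≤ √(R ^ 2 - (x 0 ^ 2 + x 1 ^ 2)) := by
      rw [abs_le]
      constructor <;> linarith
    have h5 := Real.sq_sqrt (show 0 ≤ R ^ 2 - (x 0 ^ 2 + x 1 ^ 2) by linarith)
    have h6 : |x 2 - u R| ^ 2 ≤ √(R ^ 2 - (x 0 ^ 2 + x 1 ^ 2)) ^ 2 :=
      pow_le_pow_left₀ (abs_nonneg _) h4 2
    rw [sq_abs, h5] at h6
    linarith
  · intro h1
    have h0 : x 0 ^ 2 + x 1 ^ 2 ≤ R ^ 2 := by nlinarith [sq_nonneg (x 2 - u R)]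
    have hm : nr (x 0, x 1) ∈ Set.Icc 0 R := ⟨hn0, by nlinarith⟩
    have h4 : |x 2 - u R| ≤ √(R ^ 2 - (x 0 ^ 2 + x 1 ^ 2)) := by
      refine Real.le_sqrt_of_sq_le ?_
      rw [sq_abs]
      linarith
    rw [abs_le] at h4
    rw [hu _ hm, hv _ hm, hnr]
    refine ⟨h0, ?_, ?_⟩ <;> linarith [h4.1, h4.2]

end Pool.Agent.Lib_helper59.REV
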