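import Pool.Agent.Lib_helper59.REV.Defs

/-! # REV, block incl -/

open MeasureTheory Filter Topology

namespace Pool.Agent.Lib_helper59.REV

lemma incl_nr_nonneg (p : ℝ × ℝ) : 0 ≤ nr p := Real.sqrt_nonneg _

lemma incl_nr_sq (p : ℝ × ℝ) : nr p ^ 2 = p.1 ^ 2 + p.2 ^ 2 :=
  Real.sq_sqrt (by positivity)

lemma incl_nr_cont : Continuous (fun x : E3 => nr (x 0, x 1)) := by
  unfold nr
  fun_prop

lemma incl_nr_mem {R : ℝ} (hR : 0 < R) {p : ℝ × ℝ} (hp : p.1 ^ 2 + p.2 ^ 2 ≤ R ^ 2) :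
    nr p ∈ Set.Icc 0 R := by
  refine ⟨incl_nr_nonneg p, ?_⟩
  have h := incl_nr_sq p
  nlinarith [incl_nr_nonneg p]

lemma incl_disc_closed (R : ℝ) : IsClosed {x : E3 | x 0 ^ 2 + x 1 ^ 2 ≤ R ^ 2} :=
  isClosed_le (by fun_prop) (by fun_prop)

lemma incl_cap_cont {R : ℝ} {u : ℝ → ℝ} (h : Cap R u) :
    ContinuousOn (fun x : E3 => u (nr (x 0, x 1))) {x : E3 | x 0 ^ 2 + x 1 ^ 2 ≤ R ^ 2} := by
  refine h.cont.comp incl_nr_cont.continuousOn ?_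
  intro x hx
  exact incl_nr_mem h.hR hx

lemma incl_coord_cont (R : ℝ) :
    ContinuousOn (fun x : E3 => x 2) {x : E3 | x 0 ^ 2 + x 1 ^ 2 ≤ R ^ 2} :=
  Continuous.continuousOn (by fun_prop)

lemma incl_closed (R : ℝ) (u v : ℝ → ℝ) (h : Prof R u v) : IsClosed (Bo R u v) := by
  have h1 := (incl_disc_closed R).isClosed_le (incl_cap_cont h.cv).neg (incl_coord_cont R)
  have h2 := (incl_disc_closed R).isClosed_le (incl_coord_cont R) (incl_cap_cont h.cu)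
  have h3 : Bo R u v = {x : E3 | x ∈ {x : E3 | x 0 ^ 2 + x 1 ^ 2 ≤ R ^ 2} ∧
      (-fun x : E3 => v (nr (x 0, x 1))) x ≤ x 2} ∩
      {x : E3 | x ∈ {x : E3 | x 0 ^ 2 + x 1 ^ 2 ≤ R ^ 2} ∧ x 2 ≤ u (nr (x 0, x 1))} := by
    ext x
    simp only [Bo, Set.mem_ofPred_eq, Set.mem_inter_iff, Pi.neg_apply]
    tauto
  rw [h3]
  exact h1.inter h2

lemma incl_dist_sq (x y : E3) :
    dist x y ^ 2 = (x 0 - y 0) ^ 2 + (x 1 - y 1) ^ 2 + (x 2 - y 2) ^ 2 := by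
  rw [EuclideanSpace.dist_eq, Real.sq_sqrt (Finset.sum_nonneg fun i _ => sq_nonneg _),
    Fin.sum_univ_three]
  simp only [Real.dist_eq, sq_abs]

theorem Bo_compact (R : ℝ) (u v : ℝ → ℝ) (h : Prof R u v) : IsCompact (Bo R u v) := by
  refine Metric.isCompact_of_isClosed_isBounded (incl_closed R u v h) ?_
  rw [Metric.isBounded_iff_subset_closedBall 0]
  refine ⟨R + |u 0| + |v 0|, ?_⟩
  intro x hx
  obtain ⟨hx1, hx2, hx3⟩ := hx
  have hm := incl_nr_mem (p := (x 0, x 1)) h.cu.hR hx1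
  have h0 : (0:ℝ) ∈ Set.Icc 0 R := ⟨le_refl _, h.cu.hR.le⟩
  have hu := h.cu.anti h0 hm hm.1
  have hv := h.cv.anti h0 hm hm.1
  rw [Metric.mem_closedBall]
  have hd := incl_dist_sq x 0
  simp only [PiLp.zero_apply, sub_zero] at hd
  have hR := h.cu.hR
  have hub : |x 2| ≤ |u 0| + |v 0| := by
    rw [abs_le]
    have := neg_abs_le (v 0)
    have := le_abs_self (v 0)
    have := le_abs_self (u 0)
    have := neg_abs_le (u 0)
    have := abs_nonneg (u 0)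
    have := abs_nonneg (v 0)
    constructor <;> linarith
  have h4 : x 2 ^ 2 ≤ (|u 0| + |v 0|) ^ 2 := by
    rw [← sq_abs (x 2)]
    exact pow_le_pow_left₀ (abs_nonneg _) hub 2
  have h5 : 0 ≤ |u 0| + |v 0| := by positivity
  have h6 : dist x 0 ^ 2 ≤ (R + |u 0| + |v 0|) ^ 2 := by
    rw [hd]
    nlinarith [mul_nonneg hR.le h5]
  exact le_of_sq_le_sq₀' h6 (by positivity)
where
  le_of_sq_le_sq₀' {a b : ℝ} (h : a ^ 2 ≤ b ^ 2) (hb : 0 ≤ b) : a ≤ b := by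
    nlinarith [abs_le_of_sq_le_sq h hb, le_abs_self a]

lemma incl_near (R : ℝ) (u v : ℝ → ℝ) (h : Prof R u v) (ε : ℝ) (hε : 0 < ε) (x : E3)
    (hx : x ∈ Metric.cthickening ε (Bo R u v)) :
    ∃ y ∈ Bo R u v, (x 0 - y 0) ^ 2 + (x 1 - y 1) ^ 2 + (x 2 - y 2) ^ 2 ≤ ε ^ 2 := by
  rw [(Bo_compact R u v h).cthickening_eq_biUnion_closedBall hε.le] at hx
  simp only [Set.mem_iUnion, Metric.mem_closedBall, exists_prop] at hx
  obtain ⟨y, hy, hd⟩ := hx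
  refine ⟨y, hy, ?_⟩
  rw [← incl_dist_sq]
  exact pow_le_pow_left₀ dist_nonneg hd 2

lemma incl_nr_diff (p q : ℝ × ℝ) :
    (nr p - nr q) ^ 2 ≤ (p.1 - q.1) ^ 2 + (p.2 - q.2) ^ 2 := by
  have hp := incl_nr_sq p
  have hq := incl_nr_sq q
  have hp0 := incl_nr_nonneg p
  have hq0 := incl_nr_nonneg q
  have hcs : p.1 * q.1 + p.2 * q.2 ≤ nr p * nr q := by
    have h1 : (p.1 * q.1 + p.2 * q.2) ^ 2 ≤ (nr p * nr q) ^ 2 := by
      rw [mul_pow, hp, hq]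
      nlinarith [sq_nonneg (p.1 * q.2 - p.2 * q.1)]
    exact (abs_le_of_sq_le_sq' h1 (mul_nonneg hp0 hq0)).2
  nlinarith

/-- supporting line of a concave function -/
lemma incl_support {R : ℝ} {u : ℝ → ℝ} (h : Cap R u) {a b : ℝ} (ha : 0 < a) (haR : a < R)
    (hb : b ∈ Set.Icc 0 R) (hd : DifferentiableAt ℝ u a) :
    u b ≤ u a + deriv u a * (b - a) := by
  have hma : a ∈ Set.Icc 0 R := ⟨ha.le, haR.le⟩
  rcases lt_trichotomy a b with hab | hab | hab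
  · have h1 := h.conc.slope_le_of_hasDerivAt hma hb hab hd.hasDerivAt
    rw [slope_def_field, div_le_iff₀ (by linarith)] at h1
    linarith
  · subst hab
    simp
  · have h1 := h.conc.le_slope_of_hasDerivAt hb hma hab hd.hasDerivAt
    rw [slope_def_field, le_div_iff₀ (by linarith)] at h1
    nlinarith

lemma incl_cs (q t b ε : ℝ) (hε : 0 < ε) (h : t ^ 2 + b ^ 2 ≤ ε ^ 2) :
    q * t + b ≤ ε * √(1 + q ^ 2) := by
  have h0 : 0 ≤ √(1 + q ^ 2) := Real.sqrt_nonneg _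
  have h1 : √(1 + q ^ 2) ^ 2 = 1 + q ^ 2 := Real.sq_sqrt (by positivity)
  have h2 : (q * t + b) ^ 2 ≤ (ε * √(1 + q ^ 2)) ^ 2 := by
    rw [mul_pow, h1]
    have h3 : (q * t + b) ^ 2 ≤ (t ^ 2 + b ^ 2) * (1 + q ^ 2) := by
      nlinarith [sq_nonneg (q * b - t)]
    have h4 : (t ^ 2 + b ^ 2) * (1 + q ^ 2) ≤ ε ^ 2 * (1 + q ^ 2) :=
      mul_le_mul_of_nonneg_right h (by positivity)
    linarith
  exact (abs_le_of_sq_le_sq' h2 (mul_nonneg hε.le h0)).2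

theorem incl_in (R : ℝ) (u v : ℝ → ℝ) (h : Prof R u v) (ε : ℝ) (hε : 0 < ε) (x : E3)
    (hx : x ∈ Metric.cthickening ε (Bo R u v)) (h0 : 0 < nr (x 0, x 1)) (h1 : nr (x 0, x 1) < R)
    (du : DifferentiableAt ℝ u (nr (x 0, x 1))) (dv : DifferentiableAt ℝ v (nr (x 0, x 1))) :
    x 2 ≤ u (nr (x 0, x 1)) + ε * gr u (nr (x 0, x 1)) ∧
      -v (nr (x 0, x 1)) - ε * gr v (nr (x 0, x 1)) ≤ x 2 := by
  obtain ⟨y, ⟨hy1, hy2, hy3⟩, hd⟩ := incl_near R u v h ε hε x hx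
  have hm := incl_nr_mem (p := (y 0, y 1)) h.cu.hR hy1
  have hn := incl_nr_diff (y 0, y 1) (x 0, x 1)
  simp only at hn
  have hs : (nr (y 0, y 1) - nr (x 0, x 1)) ^ 2 + (x 2 - y 2) ^ 2 ≤ ε ^ 2 := by
    nlinarith
  have hs' : (nr (y 0, y 1) - nr (x 0, x 1)) ^ 2 + (y 2 - x 2) ^ 2 ≤ ε ^ 2 := by
    nlinarith
  constructor
  · have h2 := incl_support h.cu h0 h1 hm du
    have h3 := incl_cs (deriv u (nr (x 0, x 1))) _ _ ε hε hs
    unfold gr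
    linarith
  · have h2 := incl_support h.cv h0 h1 hm dv
    have h3 := incl_cs (deriv v (nr (x 0, x 1))) _ _ ε hε hs'
    unfold gr
    linarith

theorem incl_out (R : ℝ) (u v : ℝ → ℝ) (h : Prof R u v) (ε : ℝ) (hε : 0 < ε) (hεR : ε < R) (x : E3)
    (hx : x ∈ Metric.cthickening ε (Bo R u v)) (h1 : R ≤ nr (x 0, x 1)) :
    nr (x 0, x 1) ≤ R + ε ∧ x 2 ≤ u (R - ε) + ε ∧ -v (R - ε) - ε ≤ x 2 := by
  obtain ⟨y, ⟨hy1, hy2, hy3⟩, hd⟩ := incl_near R u v h ε hε x hx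
  have hm := incl_nr_mem (p := (y 0, y 1)) h.cu.hR hy1
  have hn := incl_nr_diff (x 0, x 1) (y 0, y 1)
  simp only at hn
  have ha : (nr (x 0, x 1) - nr (y 0, y 1)) ^ 2 ≤ ε ^ 2 := by
    nlinarith [sq_nonneg (x 2 - y 2)]
  have hb : (x 2 - y 2) ^ 2 ≤ ε ^ 2 := by
    nlinarith [sq_nonneg (x 0 - y 0), sq_nonneg (x 1 - y 1)]
  have ha' := abs_le_of_sq_le_sq' ha hε.le
  have hb' := abs_le_of_sq_le_sq' hb hε.le
  have hRe : R - ε ∈ Set.Icc 0 R := ⟨by linarith, by linarith⟩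
  have hle : R - ε ≤ nr (y 0, y 1) := by linarith [ha'.2]
  have hu := h.cu.anti hRe hm hle
  have hv := h.cv.anti hRe hm hle
  refine ⟨by linarith [ha'.2, hm.2], by linarith [hb'.2], by linarith [hb'.1]⟩

end Pool.Agent.Lib_helper59.REV
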