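import Pool.Agent.Lib_helper59.REV.Defs
import Pool.Agent.Lib_helper59.REVF.intB
import Pool.Agent.Lib_helper59.REVF.pwi
import Pool.Agent.Lib_helper59.REVF.dscA

/-! # REV, block intA -/

open MeasureTheory Filter Topology

namespace Pool.Agent.Lib_helper59.REV

theorem intA_nr_meas : Measurable nr := by
  unfold nr
  fun_prop

theorem intA_gl_meas (f : ℝ → ℝ) : Measurable (fun p : ℝ × ℝ => gl f p.1 p.2) := by
  unfold gl
  have h1 : Measurable (fun p : ℝ × ℝ => deriv f (nr (p.1, p.2))) :=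
    (measurable_deriv f).comp (intA_nr_meas.comp (by fun_prop))
  have h2 : Measurable (fun p : ℝ × ℝ => nr (p.1, p.2)) := intA_nr_meas.comp (by fun_prop)
  fun_prop

theorem intA_slice_meas (R : ℝ) (f : ℝ → ℝ) :
    Measurable (fun d : ℝ => ∫⁻ s in Set.Ioo (-√(R ^ 2 - d ^ 2)) (√(R ^ 2 - d ^ 2)),
      ENNReal.ofReal (gl f d s)) := by
  have hset : MeasurableSet {p : ℝ × ℝ | -√(R ^ 2 - p.1 ^ 2) < p.2 ∧ p.2 < √(R ^ 2 - p.1 ^ 2)} := by
    have h1 : Measurable (fun p : ℝ × ℝ => √(R ^ 2 - p.1 ^ 2)) := by fun_prop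
    exact (measurableSet_lt h1.neg measurable_snd).inter (measurableSet_lt measurable_snd h1)
  have hF : Measurable (fun p : ℝ × ℝ =>
      Set.indicator {p : ℝ × ℝ | -√(R ^ 2 - p.1 ^ 2) < p.2 ∧ p.2 < √(R ^ 2 - p.1 ^ 2)}
        (fun p => ENNReal.ofReal (gl f p.1 p.2)) p) :=
    ((intA_gl_meas f).ennreal_ofReal).indicator hset
  have := hF.lintegral_prod_right' (ν := (volume : Measure ℝ))
  convert this using 1
  funext d
  rw [← lintegral_indicator measurableSet_Ioo]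
  rfl

theorem L0_meas (R : ℝ) (u v : ℝ → ℝ) : Measurable (L0 R u v) := by
  unfold L0
  exact ((intA_slice_meas R u).add (intA_slice_meas R v)).add measurable_const

theorem intA_ae (R : ℝ) (hR : 0 < R) :
    ∀ᵐ p : ℝ × ℝ ∂(volume.restrict (disc R)), 0 < nr p ∧ nr p < R := by
  have h1 : ∀ᵐ p : ℝ × ℝ ∂(volume.restrict (disc R)), p ∈ disc R :=
    ae_restrict_mem (dsc_meas R)
  have h2 : ∀ᵐ p : ℝ × ℝ ∂(volume.restrict (disc R)), p ≠ (0, 0) := by
    refine ae_restrict_of_ae ?_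
    have : volume ({((0 : ℝ), (0 : ℝ))} : Set (ℝ × ℝ)) = 0 := measure_singleton _
    exact compl_mem_ae_iff.mpr this
  filter_upwards [h1, h2] with p hp hp0
  constructor
  · unfold nr
    apply Real.sqrt_pos.mpr
    rcases eq_or_ne p.1 0 with h | h
    · have h' : p.2 ≠ 0 := fun h' => hp0 (Prod.ext h h')
      positivity
    · positivity
  · unfold nr
    have hp' : p.1 ^ 2 + p.2 ^ 2 < R ^ 2 := hp
    rw [Real.sqrt_lt' hR]
    exact hp'

theorem int_ge (R : ℝ) (u v : ℝ → ℝ) (h : Prof R u v) :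
    ENNReal.ofReal (R / 2) * S1 R u v + ENNReal.ofReal (2 * Real.pi * R ^ 3 / 3) ≤
      ∫⁻ d in Set.Ioo (-R) R, ENNReal.ofReal √(R ^ 2 - d ^ 2) * L0 R u v d := by
  rw [intB_S1 R u v h, intB_L0 R u v h]
  have key : ∀ f : ℝ → ℝ, ∫⁻ p in disc R, ENNReal.ofReal (R * ((p.2 / nr p) ^ 2 * gr f (nr p)) +
        (p.1 / nr p) ^ 2 * √(R ^ 2 - nr p ^ 2)) ≤
      ∫⁻ p in disc R, ENNReal.ofReal (√(R ^ 2 - p.1 ^ 2) * gl f p.1 p.2) := by
    intro f
    refine lintegral_mono_ae ?_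
    filter_upwards [intA_ae R h.cu.hR] with p hp
    exact ENNReal.ofReal_le_ofReal (pwi_main R f p.1 p.2 hp.1 hp.2)
  exact add_le_add (add_le_add (key u) (key v)) le_rfl

end Pool.Agent.Lib_helper59.REV
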