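import Pool.Agent.Lib_helper59.REV.Defs

/-! # REV, block isoA: invariance under isometries -/

open MeasureTheory Filter Topology

namespace Pool.Agent.Lib_helper59.REV

theorem isoA_pre (g : E3 ≃ᵃⁱ[ℝ] E3) (K : Set E3) : volume (g ⁻¹' K) = volume K := by
  have h1 : ∀ x, g x = g.linearIsometryEquiv x + g 0 := by
    intro x
    have := g.map_vadd 0 x
    simpa using this
  have h2 : g ⁻¹' K = g.linearIsometryEquiv ⁻¹' ((fun y : E3 => y + g 0) ⁻¹' K) := by
    ext x
    simp only [Set.mem_preimage]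
    rw [h1 x]
  rw [h2]
  have h3 : MeasurePreserving g.linearIsometryEquiv.toHomeomorph.toMeasurableEquiv
      (volume : Measure E3) volume := g.linearIsometryEquiv.measurePreserving
  have h4 := h3.measure_preimage_equiv ((fun y : E3 => y + g 0) ⁻¹' K)
  have h5 : (g.linearIsometryEquiv.toHomeomorph.toMeasurableEquiv : E3 → E3)
      = g.linearIsometryEquiv := rfl
  rw [h5] at h4
  rw [h4, measure_preimage_add_right]

theorem isoA_img (g : E3 ≃ᵃⁱ[ℝ] E3) (K : Set E3) : g '' K = g.symm ⁻¹' K := by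
  ext x
  constructor
  · rintro ⟨y, hy, rfl⟩
    simpa using hy
  · intro hx
    exact ⟨g.symm x, hx, by simp⟩

theorem isoA_vol (g : E3 ≃ᵃⁱ[ℝ] E3) (K : Set E3) : volume (g '' K) = volume K := by
  rw [isoA_img, isoA_pre]

theorem isoA_thick (g : E3 ≃ᵃⁱ[ℝ] E3) (K : Set E3) (ε : ℝ) :
    Metric.cthickening ε (g '' K) = g '' Metric.cthickening ε K := by
  rw [isoA_img g (Metric.cthickening ε K)]
  ext x
  rw [Metric.mem_cthickening_iff, Set.mem_preimage, Metric.mem_cthickening_iff]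
  have h1 := Metric.infEDist_image g.isometry (x := g.symm x) (t := K)
  rw [g.apply_symm_apply] at h1
  rw [h1]

theorem isoA_bd (g : E3 ≃ᵃⁱ[ℝ] E3) (K : Set E3) : bd (g '' K) = bd K := by
  unfold bd
  congr 1
  funext ε
  rw [isoA_thick, ← Set.image_sdiff g.injective, isoA_vol]

theorem isoA_iot_le (g : E3 ≃ᵃⁱ[ℝ] E3) (K : Set E3) : iot (g '' K) ⊆ iot K := by
  rintro x ⟨P, hP, rfl⟩
  have h1 : P ⁻¹' (g '' K) = (g.symm.toAffineIsometry.comp P) ⁻¹' K := by
    rw [isoA_img]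
    rfl
  rw [h1] at hP ⊢
  exact ⟨_, hP, rfl⟩

theorem isoA_iot (g : E3 ≃ᵃⁱ[ℝ] E3) (K : Set E3) : iot (g '' K) = iot K := by
  refine Set.Subset.antisymm (isoA_iot_le g K) ?_
  have h := isoA_iot_le g.symm (g '' K)
  have h1 : g.symm '' (g '' K) = K := by
    rw [← Set.image_comp]
    simp
  rwa [h1] at h

/-- the linear isometry onto the plane of the last two coordinates -/
noncomputable def isoA_lin : E2 →ₗᵢ[ℝ] E3 where
  toFun p := !₂[0, p 0, p 1]
  map_add' p q := by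
    ext i
    fin_cases i <;> simp
  map_smul' c p := by
    ext i
    fin_cases i <;> simp
  norm_map' p := by
    rw [EuclideanSpace.norm_eq, EuclideanSpace.norm_eq]
    simp [Fin.sum_univ_three, Fin.sum_univ_two]

theorem plane_sec (d : ℝ) : ∃ P : E2 →ᵃⁱ[ℝ] E3, ∀ K : Set E3, P ⁻¹' K = sec K d := by
  refine ⟨(AffineIsometryEquiv.constVAdd ℝ E3 (!₂[d, 0, 0] : E3)).toAffineIsometry.comp
    isoA_lin.toAffineIsometry, fun K => ?_⟩
  ext p
  have h1 : ((AffineIsometryEquiv.constVAdd ℝ E3 (!₂[d, 0, 0] : E3)).toAffineIsometry.comp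
    isoA_lin.toAffineIsometry) p = !₂[d, p 0, p 1] := by
    have h2 : ((AffineIsometryEquiv.constVAdd ℝ E3 (!₂[d, 0, 0] : E3)).toAffineIsometry.comp
      isoA_lin.toAffineIsometry) p = (!₂[d, 0, 0] : E3) + !₂[0, p 0, p 1] := rfl
    rw [h2]
    ext i
    fin_cases i <;> simp
  rw [Set.mem_preimage, h1]
  rfl

end Pool.Agent.Lib_helper59.REV
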