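import Pool.Agent.Lib_helper59.REV.Defs

/-! # REV, block isoB -/

open MeasureTheory Filter Topology

namespace Pool.Agent.Lib_helper59.REV

theorem isoB_axis (c v : E3) (hv : v ≠ 0) : ∃ g : E3 ≃ᵃⁱ[ℝ] E3, ∀ x : E3,
    (g x) 2 = inner ℝ v (x - c) / ‖v‖ ∧ ‖g x‖ = ‖x - c‖ := by
  have hv' : ‖v‖ ≠ 0 := norm_ne_zero_iff.mpr hv
  have hcard : Module.finrank ℝ E3 = Fintype.card (Fin 3) := by simp
  have ho : Orthonormal ℝ (({2} : Set (Fin 3)).domRestrict (fun _ : Fin 3 => (‖v‖)⁻¹ • v)) := by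
    constructor
    · intro i
      show ‖(‖v‖)⁻¹ • v‖ = 1
      rw [norm_smul, norm_inv, norm_norm, inv_mul_cancel₀ hv']
    · intro i j hij
      exact absurd (Subsingleton.elim i j) hij
  obtain ⟨b, hb⟩ := ho.exists_orthonormalBasis_extension_of_card_eq hcard
  have hb2 : b 2 = (‖v‖)⁻¹ • v := hb 2 (by simp)
  refine ⟨(AffineIsometryEquiv.vaddConst ℝ c).symm.trans b.repr.toAffineIsometryEquiv, ?_⟩
  intro x
  have hg : ((AffineIsometryEquiv.vaddConst ℝ c).symm.trans b.repr.toAffineIsometryEquiv) x =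
      b.repr (x - c) := by
    simp
  rw [hg]
  refine ⟨?_, ?_⟩
  · rw [b.repr_apply_apply, hb2, inner_smul_left]
    simp
    rw [div_eq_inv_mul]
  · exact b.repr.norm_map _

end Pool.Agent.Lib_helper59.REV
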