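import Pool.Agent.Lib_helper59.REV.Defs

/-! # REV, block loc -/

open MeasureTheory Filter Topology

namespace Pool.Agent.Lib_helper59.REV

theorem loc_dist (a b c d : ℝ) :
    dist (!₂[a, b] : E2) !₂[c, d] = √((a - c) ^ 2 + (b - d) ^ 2) := by
  rw [EuclideanSpace.dist_eq]
  simp [Real.dist_eq, sq_abs]

theorem loc_main (C : Set E2) (g : ℝ → ℝ) (g' s0 σ : ℝ) (hσ : σ ^ 2 = 1)
    (hg : HasDerivAt g g' s0)
    (hC : ∀ᶠ s in 𝓝 s0, !₂[s, g s] ∈ C) (k : ℝ) (hk : 0 < k) (hk1 : k < √(1 + g' ^ 2)) :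
    ∀ᶠ ε in 𝓝[>] (0:ℝ), ∀ τ : ℝ, 0 < τ → τ ≤ k * ε →
      !₂[s0, g s0 + σ * τ] ∈ Metric.cthickening ε C := by
  set q : ℝ := 1 + g' ^ 2 with hq
  have hq1 : 1 ≤ q := by rw [hq]; nlinarith [sq_nonneg g']
  have hq0 : 0 < q := by linarith
  have hsq : 0 < √q := Real.sqrt_pos.2 hq0
  have hσ1 : |σ| = 1 := by
    have := sq_abs σ
    have h2 : |σ| ^ 2 = 1 := by rw [sq_abs, hσ]
    nlinarith [abs_nonneg σ]
  -- the slack
  set B : ℝ := k * (|g'| / q) with hB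
  have hB0 : 0 ≤ B := by positivity
  set η : ℝ := (1 - k / √q) / (B + 1) with hη
  have h1 : 0 < 1 - k / √q := by
    rw [sub_pos, div_lt_one hsq]
    exact hk1
  have hη0 : 0 < η := by positivity
  have hηB : k / √q + η * B ≤ 1 := by
    have : η * B ≤ 1 - k / √q := by
      rw [hη, div_mul_eq_mul_div, div_le_iff₀ (by positivity)]
      nlinarith
    linarith
  have h2 : ∀ᶠ s in 𝓝 s0, ‖g s - g s0 - (s - s0) • g'‖ ≤ η * ‖s - s0‖ :=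
    (hasDerivAt_iff_isLittleO.1 hg).def hη0
  obtain ⟨r, hr, hr2⟩ := Metric.eventually_nhds_iff.1 (h2.and hC)
  have h3 : ∀ᶠ ε in 𝓝[>] (0:ℝ), ε ∈ Set.Ioo (0:ℝ) (r / (B + 1)) := Ioo_mem_nhdsGT (by positivity)
  filter_upwards [h3] with ε hε τ hτ hτk
  have hε0 := hε.1
  set δ : ℝ := σ * τ * g' / q with hδ
  have hδa : |δ| ≤ B * ε := by
    rw [hδ, abs_div, abs_mul, abs_mul, hσ1, abs_of_pos hτ, abs_of_pos hq0, hB]
    calc 1 * τ * |g'| / q = τ * (|g'| / q) := by ring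
      _ ≤ (k * ε) * (|g'| / q) := by gcongr
      _ = k * (|g'| / q) * ε := by ring
  have hδr : dist (s0 + δ) s0 < r := by
    rw [Real.dist_eq, add_sub_cancel_left]
    refine hδa.trans_lt ?_
    have h4 := hε.2
    rw [lt_div_iff₀ (by positivity)] at h4
    nlinarith
  obtain ⟨h5, h6⟩ := hr2 hδr
  rw [add_sub_cancel_left, smul_eq_mul, Real.norm_eq_abs, Real.norm_eq_abs] at h5
  refine Metric.mem_cthickening_of_dist_le _ _ _ _ h6 ?_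
  have h7 : dist (!₂[s0, g s0 + σ * τ] : E2) !₂[s0 + δ, g s0 + g' * δ] = τ / √q := by
    rw [loc_dist]
    have e1 : (s0 - (s0 + δ)) ^ 2 + (g s0 + σ * τ - (g s0 + g' * δ)) ^ 2 = τ ^ 2 / q := by
      have e2 : (s0 - (s0 + δ)) ^ 2 + (g s0 + σ * τ - (g s0 + g' * δ)) ^ 2 =
          δ ^ 2 + (σ * τ - g' * δ) ^ 2 := by ring
      rw [e2, hδ]
      have e3 : σ * τ - g' * (σ * τ * g' / q) = σ * τ / q := by
        have e6 : g' * (σ * τ * g' / q) = σ * τ * (g' ^ 2 / q) := by ring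
        have e7 : g' ^ 2 / q = 1 - 1 / q := by
          rw [eq_sub_iff_add_eq, ← add_div, div_eq_one_iff_eq hq0.ne', hq, add_comm]
        rw [e6, e7]
        ring
      rw [e3]
      have e4 : (σ * τ * g' / q) ^ 2 + (σ * τ / q) ^ 2 = σ ^ 2 * τ ^ 2 * (g' ^ 2 + 1) / q ^ 2 := by
        rw [div_pow, div_pow, ← add_div]
        congr 1
        ring
      rw [e4, hσ]
      have e5 : g' ^ 2 + 1 = q := by rw [hq]; ring
      rw [e5]
      field_simp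
    rw [e1, Real.sqrt_div' _ hq0.le, Real.sqrt_sq hτ.le]
  have h8 : dist (!₂[s0 + δ, g s0 + g' * δ] : E2) !₂[s0 + δ, g (s0 + δ)] ≤ η * |δ| := by
    rw [loc_dist, sub_self, zero_pow two_ne_zero, zero_add, Real.sqrt_sq_eq_abs]
    have : g s0 + g' * δ - g (s0 + δ) = -(g (s0 + δ) - g s0 - δ * g') := by ring
    rw [this, abs_neg]
    exact h5
  calc dist (!₂[s0, g s0 + σ * τ] : E2) !₂[s0 + δ, g (s0 + δ)]
      ≤ dist (!₂[s0, g s0 + σ * τ] : E2) !₂[s0 + δ, g s0 + g' * δ] +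
        dist (!₂[s0 + δ, g s0 + g' * δ] : E2) !₂[s0 + δ, g (s0 + δ)] := dist_triangle _ _ _
    _ ≤ τ / √q + η * |δ| := by rw [h7]; gcongr
    _ ≤ k * ε / √q + η * (B * ε) := by gcongr
    _ = (k / √q + η * B) * ε := by ring
    _ ≤ 1 * ε := by gcongr
    _ = ε := one_mul _

theorem loc_up (C : Set E2) (g : ℝ → ℝ) (g' s0 : ℝ) (hg : HasDerivAt g g' s0)
    (hC : ∀ᶠ s in 𝓝 s0, !₂[s, g s] ∈ C) (k : ℝ) (hk : 0 < k) (hk1 : k < √(1 + g' ^ 2)) :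
    ∀ᶠ ε in 𝓝[>] (0:ℝ), ∀ τ : ℝ, 0 < τ → τ ≤ k * ε →
      !₂[s0, g s0 + τ] ∈ Metric.cthickening ε C := by
  have h := loc_main C g g' s0 1 (by norm_num) hg hC k hk hk1
  simpa only [one_mul] using h

theorem loc_dn (C : Set E2) (g : ℝ → ℝ) (g' s0 : ℝ) (hg : HasDerivAt g g' s0)
    (hC : ∀ᶠ s in 𝓝 s0, !₂[s, g s] ∈ C) (k : ℝ) (hk : 0 < k) (hk1 : k < √(1 + g' ^ 2)) :
    ∀ᶠ ε in 𝓝[>] (0:ℝ), ∀ τ : ℝ, 0 < τ → τ ≤ k * ε →
      !₂[s0, g s0 - τ] ∈ Metric.cthickening ε C := by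
  have h := loc_main C g g' s0 (-1) (by norm_num) hg hC k hk hk1
  simpa only [neg_one_mul, ← sub_eq_add_neg] using h

end Pool.Agent.Lib_helper59.REV
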