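import Pool.Agent.Lib_helper59.REV.Defs
import Pool.Agent.Lib_helper59.REVF.loc

/-! # REV, block perA -/

open MeasureTheory Filter Topology

namespace Pool.Agent.Lib_helper59.REV

theorem perA_nr_deriv (d s : ℝ) (h0 : 0 < nr (d, s)) :
    HasDerivAt (fun s' => nr (d, s')) (s / nr (d, s)) s := by
  have hpos : 0 < d ^ 2 + s ^ 2 := by
    have : nr (d, s) = √(d ^ 2 + s ^ 2) := rfl
    rw [this] at h0
    exact Real.sqrt_pos.mp h0
  have h1 : HasDerivAt (fun s' : ℝ => d ^ 2 + s' ^ 2) (2 * s) s := by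
    have := (hasDerivAt_pow 2 s).const_add (d ^ 2)
    simpa using this
  have h2 := h1.sqrt hpos.ne'
  have e : (2 * s) / (2 * √(d ^ 2 + s ^ 2)) = s / nr (d, s) := by
    show _ = s / √(d ^ 2 + s ^ 2)
    rw [mul_div_mul_left _ _ (two_ne_zero)]
  rw [e] at h2
  exact h2

theorem perA_mem (R : ℝ) (u v : ℝ → ℝ) (d s z : ℝ) :
    !₂[s, z] ∈ sec (Bo R u v) d ↔
      (d ^ 2 + s ^ 2 ≤ R ^ 2 ∧ -v (nr (d, s)) ≤ z ∧ z ≤ u (nr (d, s))) := by
  simp [sec, Bo]

theorem perA_nonneg (R : ℝ) (u v : ℝ → ℝ) (h : Prof R u v) (d s : ℝ)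
    (hd : d ^ 2 + s ^ 2 ≤ R ^ 2) : -v (nr (d, s)) ≤ u (nr (d, s)) := by
  have hR := h.cu.hR
  have h1 : 0 ≤ nr (d, s) := Real.sqrt_nonneg _
  have h2 : nr (d, s) ≤ R := by
    have : nr (d, s) ≤ √(R ^ 2) := Real.sqrt_le_sqrt hd
    rwa [Real.sqrt_sq hR.le] at this
  have a := h.cu.anti (a := nr (d, s)) (b := R) ⟨h1, h2⟩ ⟨hR.le, le_rfl⟩ h2
  have b := h.cv.anti (a := nr (d, s)) (b := R) ⟨h1, h2⟩ ⟨hR.le, le_rfl⟩ h2
  have := h.hh
  linarith

theorem perA_glu (u : ℝ → ℝ) (d s : ℝ) : 1 ≤ gl u d s := by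
  unfold gl
  rw [Real.one_le_sqrt]
  nlinarith [sq_nonneg (deriv u (nr (d, s)) * (s / nr (d, s)))]

theorem perA_step (R : ℝ) (u v : ℝ → ℝ) (h : Prof R u v) (d s : ℝ) (hd : d ^ 2 + s ^ 2 < R ^ 2)
    (h0 : 0 < nr (d, s)) (du : DifferentiableAt ℝ u (nr (d, s)))
    (dv : DifferentiableAt ℝ v (nr (d, s))) (k1 k2 : ℝ) (hk1 : 0 < k1) (hk2 : 0 < k2)
    (hl1 : k1 < gl u d s) (hl2 : k2 < gl v d s) :
    ENNReal.ofReal k1 + ENNReal.ofReal k2 ≤
      liminf (fun ε : ℝ => volume {z : ℝ | !₂[s, z] ∈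
        Metric.cthickening ε (sec (Bo R u v) d) \ sec (Bo R u v) d} / ENNReal.ofReal ε)
        (𝓝[>] (0:ℝ)) := by
  set M := sec (Bo R u v) d with hM
  have hev : ∀ᶠ s' in 𝓝 s, d ^ 2 + s' ^ 2 < R ^ 2 := by
    have : Continuous (fun s' : ℝ => d ^ 2 + s' ^ 2) := by fun_prop
    exact this.continuousAt.eventually_lt continuousAt_const hd
  have hnr := perA_nr_deriv d s h0
  have hu : HasDerivAt (fun s' => u (nr (d, s'))) (deriv u (nr (d, s)) * (s / nr (d, s))) s :=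
    HasDerivAt.comp s du.hasDerivAt hnr
  have hv : HasDerivAt (fun s' => -v (nr (d, s'))) (-(deriv v (nr (d, s)) * (s / nr (d, s)))) s :=
    (HasDerivAt.comp s dv.hasDerivAt hnr).neg
  have e1 := loc_up M (fun s' => u (nr (d, s'))) _ s hu (by
    filter_upwards [hev] with s' hs'
    rw [hM, perA_mem]
    exact ⟨hs'.le, perA_nonneg R u v h d s' hs'.le, le_rfl⟩) k1 hk1 hl1
  have hl2' : k2 < √(1 + (-(deriv v (nr (d, s)) * (s / nr (d, s)))) ^ 2) := by
    rw [neg_sq]; exact hl2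
  have e2 := loc_dn M (fun s' => -v (nr (d, s'))) _ s hv (by
    filter_upwards [hev] with s' hs'
    rw [hM, perA_mem]
    exact ⟨hs'.le, le_rfl, perA_nonneg R u v h d s' hs'.le⟩) k2 hk2 hl2'
  have e3 : ∀ᶠ ε in 𝓝[>] (0:ℝ), 0 < ε := self_mem_nhdsWithin
  refine le_liminf_of_le (by isBoundedDefault) ?_
  filter_upwards [e1, e2, e3] with ε h1 h2 h3
  have hsub : Set.Ioc (u (nr (d, s))) (u (nr (d, s)) + k1 * ε) ∪
      Set.Ico (-v (nr (d, s)) - k2 * ε) (-v (nr (d, s))) ⊆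
      {z : ℝ | !₂[s, z] ∈ Metric.cthickening ε M \ M} := by
    rintro z (hz | hz)
    · refine ⟨?_, ?_⟩
      · have := h1 (z - u (nr (d, s))) (by linarith [hz.1]) (by linarith [hz.2])
        simpa using this
      · rw [hM, perA_mem]
        rintro ⟨-, -, h5⟩
        exact absurd h5 (not_le.mpr hz.1)
    · refine ⟨?_, ?_⟩
      · have := h2 (-v (nr (d, s)) - z) (by linarith [hz.2]) (by linarith [hz.1])
        simpa using this
      · rw [hM, perA_mem]
        rintro ⟨-, h5, -⟩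
        exact absurd h5 (not_le.mpr hz.2)
  have hdis : Disjoint (Set.Ioc (u (nr (d, s))) (u (nr (d, s)) + k1 * ε))
      (Set.Ico (-v (nr (d, s)) - k2 * ε) (-v (nr (d, s)))) := by
    rw [Set.disjoint_left]
    intro z hz hz'
    have := perA_nonneg R u v h d s hd.le
    have a := hz.1
    have b := hz'.2
    linarith
  have hvol : volume (Set.Ioc (u (nr (d, s))) (u (nr (d, s)) + k1 * ε) ∪
      Set.Ico (-v (nr (d, s)) - k2 * ε) (-v (nr (d, s)))) =
      ENNReal.ofReal (k1 * ε) + ENNReal.ofReal (k2 * ε) := by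
    rw [measure_union hdis measurableSet_Ico, Real.volume_Ioc, Real.volume_Ico]
    congr 2 <;> ring
  have hle := measure_mono (μ := volume) hsub
  rw [hvol, ENNReal.ofReal_mul hk1.le, ENNReal.ofReal_mul hk2.le, ← add_mul] at hle
  rw [ENNReal.le_div_iff_mul_le (Or.inl (by simpa using h3)) (Or.inl ENNReal.ofReal_ne_top)]
  exact hle

theorem perA_main (R : ℝ) (u v : ℝ → ℝ) (h : Prof R u v) (d s : ℝ) (hd : d ^ 2 + s ^ 2 < R ^ 2)
    (h0 : 0 < nr (d, s)) (du : DifferentiableAt ℝ u (nr (d, s)))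
    (dv : DifferentiableAt ℝ v (nr (d, s))) :
    ENNReal.ofReal (gl u d s) + ENNReal.ofReal (gl v d s) ≤
      liminf (fun ε : ℝ => volume {z : ℝ | !₂[s, z] ∈
        Metric.cthickening ε (sec (Bo R u v) d) \ sec (Bo R u v) d} / ENNReal.ofReal ε)
        (𝓝[>] (0:ℝ)) := by
  have ht : Tendsto (fun η : ℝ => ENNReal.ofReal (gl u d s - η) + ENNReal.ofReal (gl v d s - η))
      (𝓝[>] (0:ℝ)) (𝓝 (ENNReal.ofReal (gl u d s) + ENNReal.ofReal (gl v d s))) := by
    have hc : Continuous (fun η : ℝ =>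
        ENNReal.ofReal (gl u d s - η) + ENNReal.ofReal (gl v d s - η)) := by
      have c1 : Continuous (fun η : ℝ => gl u d s - η) := by fun_prop
      have c2 : Continuous (fun η : ℝ => gl v d s - η) := by fun_prop
      exact (ENNReal.continuous_ofReal.comp c1).add (ENNReal.continuous_ofReal.comp c2)
    have := (hc.tendsto 0).mono_left (nhdsWithin_le_nhds (s := Set.Ioi (0:ℝ)))
    simpa using this
  refine le_of_tendsto ht ?_
  have hmem : Set.Ioo (0:ℝ) 1 ∈ 𝓝[>] (0:ℝ) := Ioo_mem_nhdsGT one_pos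
  filter_upwards [hmem] with η hη
  have g1 := perA_glu u d s
  have g2 := perA_glu v d s
  exact perA_step R u v h d s hd h0 du dv _ _ (by linarith [hη.2]) (by linarith [hη.2])
    (by linarith [hη.1]) (by linarith [hη.1])

end Pool.Agent.Lib_helper59.REV
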