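import Pool.Agent.Lib_helper59.REV.Defs

/-! # REV, block slc -/

open MeasureTheory Filter Topology

namespace Pool.Agent.Lib_helper59.REV

theorem slc_int3 (F : E3 → ENNReal) (hF : Measurable F) :
    ∫⁻ x, F x = ∫⁻ z : ℝ, ∫⁻ p : ℝ × ℝ, F !₂[p.1, p.2, z] := by
  have h1 := (PiLp.volume_preserving_toLp (Fin 3)).lintegral_comp hF
  rw [← h1]
  have hm : Measurable (fun a : Fin 3 → ℝ => F (WithLp.toLp 2 a)) :=
    hF.comp (PiLp.volume_preserving_toLp (Fin 3)).measurable
  have e2 := (volume_preserving_piFinSuccAbove (fun _ : Fin 3 => ℝ) 2).symm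
  rw [← e2.lintegral_comp hm]
  have hm2 : Measurable (fun q : ℝ × (Fin 2 → ℝ) =>
      F (WithLp.toLp 2 ((MeasurableEquiv.piFinSuccAbove (fun _ : Fin 3 => ℝ) 2).symm q))) :=
    hm.comp e2.measurable
  have h3 : ∫⁻ q : ℝ × (Fin 2 → ℝ),
      F (WithLp.toLp 2 ((MeasurableEquiv.piFinSuccAbove (fun _ : Fin 3 => ℝ) 2).symm q)) =
      ∫⁻ z : ℝ, ∫⁻ w : Fin 2 → ℝ,
        F (WithLp.toLp 2 ((MeasurableEquiv.piFinSuccAbove (fun _ : Fin 3 => ℝ) 2).symm (z, w))) := by
    exact lintegral_prod _ hm2.aemeasurable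
  refine h3.trans ?_
  refine lintegral_congr fun z => ?_
  have hm3 : Measurable (fun w : Fin 2 → ℝ =>
      F (WithLp.toLp 2 ((MeasurableEquiv.piFinSuccAbove (fun _ : Fin 3 => ℝ) 2).symm (z, w)))) :=
    hm2.comp measurable_prodMk_left
  rw [← (volume_preserving_finTwoArrow ℝ).symm.lintegral_comp hm3]
  refine lintegral_congr fun p => ?_
  congr 2
  funext i
  fin_cases i <;> rfl

theorem slc_meas3 : Measurable (fun q : (ℝ × ℝ) × ℝ => (!₂[q.1.1, q.1.2, q.2] : E3)) := by
  have h : Continuous (fun q : (ℝ × ℝ) × ℝ => (!₂[q.1.1, q.1.2, q.2] : E3)) := by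
    refine (PiLp.continuous_toLp 2 _).comp ?_
    refine continuous_pi fun i => ?_
    fin_cases i <;> simp <;> fun_prop
  exact h.measurable

theorem slc_meas2 : Measurable (fun q : ℝ × ℝ => (!₂[q.1, q.2] : E2)) := by
  have h : Continuous (fun q : ℝ × ℝ => (!₂[q.1, q.2] : E2)) := by
    refine (PiLp.continuous_toLp 2 _).comp ?_
    refine continuous_pi fun i => ?_
    fin_cases i <;> simp <;> fun_prop
  exact h.measurable

theorem slc_col (T : Set E3) (hT : MeasurableSet T) :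
    volume T = ∫⁻ p : ℝ × ℝ, volume {z : ℝ | !₂[p.1, p.2, z] ∈ T} := by
  have h1 : volume T = ∫⁻ x, T.indicator (fun _ => (1:ENNReal)) x := by
    rw [lintegral_indicator hT]
    simp
  have hm : Measurable (T.indicator (fun _ => (1:ENNReal))) := measurable_const.indicator hT
  rw [h1, slc_int3 _ hm]
  have hm2 : Measurable (fun q : ℝ × (ℝ × ℝ) =>
      T.indicator (fun _ => (1:ENNReal)) (!₂[q.2.1, q.2.2, q.1] : E3)) :=
    hm.comp (slc_meas3.comp measurable_swap)
  rw [lintegral_lintegral_swap hm2.aemeasurable]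
  refine lintegral_congr fun p => ?_
  have hS : MeasurableSet {z : ℝ | !₂[p.1, p.2, z] ∈ T} :=
    hT.preimage (slc_meas3.comp measurable_prodMk_left)
  have h2 : (fun z : ℝ => T.indicator (fun _ => (1:ENNReal)) (!₂[p.1, p.2, z] : E3)) =
      {z : ℝ | !₂[p.1, p.2, z] ∈ T}.indicator (fun _ => (1:ENNReal)) := by
    funext z
    rfl
  rw [h2, lintegral_indicator hS]
  simp

theorem slc_E2 (M : Set E2) (hM : MeasurableSet M) :
    volume M = ∫⁻ s : ℝ, volume {z : ℝ | !₂[s, z] ∈ M} := by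
  have h1 : volume M = ∫⁻ x, M.indicator (fun _ => (1:ENNReal)) x := by
    rw [lintegral_indicator hM]
    simp
  have hm : Measurable (M.indicator (fun _ => (1:ENNReal))) := measurable_const.indicator hM
  have h3 := (PiLp.volume_preserving_toLp (Fin 2)).lintegral_comp hm
  have hm1 : Measurable (fun a : Fin 2 → ℝ =>
      M.indicator (fun _ => (1:ENNReal)) (WithLp.toLp 2 a)) :=
    hm.comp (PiLp.volume_preserving_toLp (Fin 2)).measurable
  rw [h1, ← h3, ← (volume_preserving_finTwoArrow ℝ).symm.lintegral_comp hm1]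
  have hm2 : Measurable (fun q : ℝ × ℝ =>
      M.indicator (fun _ => (1:ENNReal)) (!₂[q.1, q.2] : E2)) := hm.comp slc_meas2
  have h4 : ∫⁻ q : ℝ × ℝ, M.indicator (fun _ => (1:ENNReal)) (!₂[q.1, q.2] : E2) =
      ∫⁻ s : ℝ, ∫⁻ z : ℝ, M.indicator (fun _ => (1:ENNReal)) (!₂[s, z] : E2) :=
    lintegral_prod _ hm2.aemeasurable
  refine Eq.trans ?_ (h4.trans ?_)
  · refine lintegral_congr fun q => ?_
    congr 2
  · refine lintegral_congr fun s => ?_
    have hS : MeasurableSet {z : ℝ | !₂[s, z] ∈ M} :=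
      hM.preimage (slc_meas2.comp measurable_prodMk_left)
    have h2 : (fun z : ℝ => M.indicator (fun _ => (1:ENNReal)) (!₂[s, z] : E2)) =
        {z : ℝ | !₂[s, z] ∈ M}.indicator (fun _ => (1:ENNReal)) := by
      funext z
      rfl
    rw [h2, lintegral_indicator hS]
    simp

theorem slc_E3 (T : Set E3) (hT : MeasurableSet T) :
    volume T = ∫⁻ d : ℝ, volume (sec T d) := by
  rw [slc_col T hT]
  have hS : MeasurableSet {q : (ℝ × ℝ) × ℝ | !₂[q.1.1, q.1.2, q.2] ∈ T} :=
    hT.preimage slc_meas3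
  have hm : Measurable (fun p : ℝ × ℝ => volume {z : ℝ | !₂[p.1, p.2, z] ∈ T}) :=
    measurable_measure_prodMk_left hS
  have h1 : ∫⁻ p : ℝ × ℝ, volume {z : ℝ | !₂[p.1, p.2, z] ∈ T} =
      ∫⁻ d : ℝ, ∫⁻ s : ℝ, volume {z : ℝ | !₂[d, s, z] ∈ T} :=
    lintegral_prod _ hm.aemeasurable
  rw [h1]
  refine lintegral_congr fun d => ?_
  have hsec : MeasurableSet (sec T d) := by
    have h2 : Measurable (fun p : E2 => (!₂[d, p 0, p 1] : E3)) := by
      have h3 : Continuous (fun p : E2 => (!₂[d, p 0, p 1] : E3)) := by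
        refine (PiLp.continuous_toLp 2 _).comp ?_
        refine continuous_pi fun i => ?_
        fin_cases i <;> simp <;> fun_prop
      exact h3.measurable
    exact hT.preimage h2
  rw [slc_E2 _ hsec]
  refine lintegral_congr fun s => ?_
  congr 1

end Pool.Agent.Lib_helper59.REV
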