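import Pool.Agent.Lib_helper59.REV.Defs
import Pool.Agent.Lib_helper59.REVF.slc
import Pool.Agent.Lib_helper59.REVF.incl
import Pool.Agent.Lib_helper59.REVF.perA

/-! # REV, block perB : lower bound for the perimeter of a section -/

open MeasureTheory Filter Topology

namespace Pool.Agent.Lib_helper59.REV

/-- the equivalence `ℝ × ℝ → E2` -/
noncomputable def perB_e : ℝ × ℝ ≃ᵐ E2 :=
  (MeasurableEquiv.finTwoArrow (α := ℝ)).symm.trans (MeasurableEquiv.toLp 2 (Fin 2 → ℝ))

theorem perB_e_apply (q : ℝ × ℝ) : perB_e q = !₂[q.1, q.2] := by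
  ext i
  fin_cases i <;> rfl

theorem perB_meas (S : Set E2) (hS : MeasurableSet S) :
    Measurable (fun s : ℝ => volume {z : ℝ | !₂[s, z] ∈ S}) := by
  have h1 : MeasurableSet (perB_e ⁻¹' S) := perB_e.measurable hS
  have h2 := measurable_measure_prodMk_left (ν := (volume : Measure ℝ)) h1
  have h3 : (fun s : ℝ => volume {z : ℝ | !₂[s, z] ∈ S}) =
      fun s : ℝ => volume (Prod.mk s ⁻¹' (perB_e ⁻¹' S)) := by
    funext s
    congr 1
  rw [h3]
  exact h2

theorem perB_closed (R : ℝ) (u v : ℝ → ℝ) (h : Prof R u v) (d : ℝ) :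
    IsClosed (sec (Bo R u v) d) := by
  have h1 : Continuous (fun p : E2 => (!₂[d, p 0, p 1] : E3)) := by
    fun_prop
  exact (Bo_compact R u v h).isClosed.preimage h1

theorem perB_dist (s y z : ℝ) : dist (!₂[s, z] : E2) !₂[y, z] = |s - y| := by
  rw [EuclideanSpace.dist_eq, Fin.sum_univ_two]
  simp [Real.dist_eq, Real.sqrt_sq_eq_abs]

theorem perB_side (R : ℝ) (u v : ℝ → ℝ) (h : Prof R u v) (d : ℝ) (hd : -R < d) (hd' : d < R)
    (ε s : ℝ) (h1 : √(R ^ 2 - d ^ 2) < |s|) (h2 : |s| ≤ √(R ^ 2 - d ^ 2) + ε) :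
    ENNReal.ofReal (u R + v R) ≤ volume {z : ℝ | !₂[s, z] ∈
        Metric.cthickening ε (sec (Bo R u v) d) \ sec (Bo R u v) d} := by
  have hR : 0 < R := h.cu.hR
  have hY0 : 0 ≤ R ^ 2 - d ^ 2 := by nlinarith
  have hY2 : √(R ^ 2 - d ^ 2) ^ 2 = R ^ 2 - d ^ 2 := Real.sq_sqrt hY0
  set Y := √(R ^ 2 - d ^ 2) with hY
  have hYn : 0 ≤ Y := Real.sqrt_nonneg _
  have hsub : Set.Icc (-v R) (u R) ⊆ {z : ℝ | !₂[s, z] ∈
        Metric.cthickening ε (sec (Bo R u v) d) \ sec (Bo R u v) d} := by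
    intro z hz
    refine ⟨?_, ?_⟩
    · -- the point y = ± Y
      obtain ⟨y, hy2, hys⟩ : ∃ y : ℝ, y ^ 2 = R ^ 2 - d ^ 2 ∧ |s - y| ≤ ε := by
        rcases le_or_gt 0 s with hs | hs
        · refine ⟨Y, hY2, ?_⟩
          rw [abs_of_nonneg hs] at h1 h2
          rw [abs_of_nonneg (by linarith)]
          linarith
        · refine ⟨-Y, by rw [neg_sq]; exact hY2, ?_⟩
          rw [abs_of_neg hs] at h1 h2
          rw [abs_of_nonpos (by linarith)]
          linarith
      refine Metric.mem_cthickening_of_dist_le _ (!₂[y, z] : E2) ε _ ?_ ?_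
      · have hn : nr (d, y) = R := by
          unfold nr
          rw [show (d, y).1 ^ 2 + (d, y).2 ^ 2 = R ^ 2 by simp only; rw [hy2]; ring]
          exact Real.sqrt_sq hR.le
        have h3 : (!₂[d, (!₂[y, z] : E2) 0, (!₂[y, z] : E2) 1] : E3) ∈ Bo R u v := by
          refine ⟨?_, ?_, ?_⟩
          · simp
            rw [hy2]
            linarith
          · simp
            rw [hn]
            linarith [hz.1]
          · simp
            rw [hn]
            exact hz.2
        exact h3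
      · rw [perB_dist]
        exact hys
    · intro h3
      have h4 : (!₂[d, (!₂[s, z] : E2) 0, (!₂[s, z] : E2) 1] : E3) ∈ Bo R u v := h3
      have h5 := h4.1
      simp at h5
      have h6 : Y ^ 2 < |s| ^ 2 := pow_lt_pow_left₀ h1 hYn (by norm_num)
      rw [sq_abs] at h6
      linarith
  calc ENNReal.ofReal (u R + v R) = volume (Set.Icc (-v R) (u R)) := by
        rw [Real.volume_Icc]
        congr 1
        ring
    _ ≤ _ := measure_mono hsub

theorem perB_main (R : ℝ) (u v : ℝ → ℝ) (h : Prof R u v) (d : ℝ) (hd : -R < d) (hd' : d < R)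
    (hdif : ∀ᵐ s : ℝ, d ^ 2 + s ^ 2 < R ^ 2 → 0 < nr (d, s) ∧ nr (d, s) < R ∧
      DifferentiableAt ℝ u (nr (d, s)) ∧ DifferentiableAt ℝ v (nr (d, s))) :
    L0 R u v d ≤ bd (sec (Bo R u v) d) := by
  have hR : 0 < R := h.cu.hR
  have hY0 : 0 < R ^ 2 - d ^ 2 := by nlinarith
  have hMc : IsClosed (sec (Bo R u v) d) := perB_closed R u v h d
  set M := sec (Bo R u v) d with hM
  set Y := √(R ^ 2 - d ^ 2) with hY
  have hYp : 0 < Y := Real.sqrt_pos.mpr hY0
  have hY2 : Y ^ 2 = R ^ 2 - d ^ 2 := Real.sq_sqrt hY0.le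
  have hSm : ∀ ε : ℝ, MeasurableSet (Metric.cthickening ε M \ M) := fun ε =>
    Metric.isClosed_cthickening.measurableSet.diff hMc.measurableSet
  let f : ℝ → ℝ → ENNReal := fun ε s =>
    volume {z : ℝ | !₂[s, z] ∈ Metric.cthickening ε M \ M} / ENNReal.ofReal ε
  have hfm : ∀ ε, Measurable (f ε) := fun ε => (perB_meas _ (hSm ε)).div_const _
  -- lower bound for the volume
  have hlow : ∀ᶠ ε : ℝ in 𝓝[>] (0:ℝ),
      (∫⁻ s in Set.Ioo (-Y) Y, f ε s) + ENNReal.ofReal (2 * (u R + v R)) ≤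
        volume (Metric.cthickening ε M \ M) / ENNReal.ofReal ε := by
    filter_upwards [self_mem_nhdsWithin] with ε hε
    rw [Set.mem_Ioi] at hε
    have he0 : ENNReal.ofReal ε ≠ 0 := by simpa using hε
    have heT : ENNReal.ofReal ε ≠ ⊤ := ENNReal.ofReal_ne_top
    set g : ℝ → ENNReal := fun s => volume {z : ℝ | !₂[s, z] ∈ Metric.cthickening ε M \ M} with hg
    have hgm : Measurable g := perB_meas _ (hSm ε)
    have e1 : volume (Metric.cthickening ε M \ M) = ∫⁻ s, g s := slc_E2 _ (hSm ε)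
    have e2 : (∫⁻ s in Set.Ioo (-Y) Y, f ε s) = (∫⁻ s in Set.Ioo (-Y) Y, g s) / ENNReal.ofReal ε := by
      simp only [f, div_eq_mul_inv]
      rw [lintegral_mul_const _ hgm]
    have hd1 : Disjoint (Set.Ioo (-Y) Y) (Set.Ioc Y (Y + ε)) := by
      rw [Set.disjoint_left]
      intro x hx hx'
      exact absurd hx.2 (not_lt.mpr hx'.1.le)
    have hd2 : Disjoint (Set.Ioo (-Y) Y ∪ Set.Ioc Y (Y + ε)) (Set.Ico (-(Y + ε)) (-Y)) := by
      rw [Set.disjoint_left]
      rintro x (hx | hx) hx'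
      · exact absurd hx.1 (not_lt.mpr hx'.2.le)
      · have h1 := hx.1
        have h2 := hx'.2
        linarith
    have e3 : (∫⁻ s in Set.Ioo (-Y) Y, g s) + (∫⁻ s in Set.Ioc Y (Y + ε), g s) +
        (∫⁻ s in Set.Ico (-(Y + ε)) (-Y), g s) ≤ ∫⁻ s, g s := by
      rw [← lintegral_union measurableSet_Ioc hd1, ← lintegral_union measurableSet_Ico hd2]
      exact setLIntegral_le_lintegral _ _
    have hsum0 : 0 ≤ u R + v R := h.hh
    have e4 : ENNReal.ofReal ε * ENNReal.ofReal (u R + v R) ≤ ∫⁻ s in Set.Ioc Y (Y + ε), g s := by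
      calc ENNReal.ofReal ε * ENNReal.ofReal (u R + v R)
          = ∫⁻ s in Set.Ioc Y (Y + ε), ENNReal.ofReal (u R + v R) := by
            rw [setLIntegral_const, Real.volume_Ioc, mul_comm]
            congr 2
            ring
        _ ≤ _ := by
            refine setLIntegral_mono_ae' measurableSet_Ioc (Eventually.of_forall fun s hs => ?_)
            have hs0 : 0 < s := lt_trans hYp hs.1
            exact perB_side R u v h d hd hd' ε s (by rw [abs_of_pos hs0]; exact hs.1)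
              (by rw [abs_of_pos hs0]; exact hs.2)
    have e5 : ENNReal.ofReal ε * ENNReal.ofReal (u R + v R) ≤
        ∫⁻ s in Set.Ico (-(Y + ε)) (-Y), g s := by
      calc ENNReal.ofReal ε * ENNReal.ofReal (u R + v R)
          = ∫⁻ s in Set.Ico (-(Y + ε)) (-Y), ENNReal.ofReal (u R + v R) := by
            rw [setLIntegral_const, Real.volume_Ico, mul_comm]
            congr 2
            ring
        _ ≤ _ := by
            refine setLIntegral_mono_ae' measurableSet_Ico (Eventually.of_forall fun s hs => ?_)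
            have hs0 : s < 0 := by linarith [hs.2]
            exact perB_side R u v h d hd hd' ε s (by rw [abs_of_neg hs0]; linarith [hs.2])
              (by rw [abs_of_neg hs0]; linarith [hs.1])
    have e6 : ENNReal.ofReal (2 * (u R + v R)) =
        (ENNReal.ofReal ε * ENNReal.ofReal (u R + v R) +
          ENNReal.ofReal ε * ENNReal.ofReal (u R + v R)) / ENNReal.ofReal ε := by
      rw [← two_mul, ← mul_assoc, mul_comm 2 (ENNReal.ofReal ε), mul_assoc,
        mul_comm (ENNReal.ofReal ε), mul_div_assoc, ENNReal.div_self he0 heT, mul_one,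
        ENNReal.ofReal_mul (by norm_num)]
      norm_num
    rw [e1, e2, e6, ← ENNReal.add_div]
    refine ENNReal.div_le_div_right ?_ _
    calc (∫⁻ s in Set.Ioo (-Y) Y, g s) + (ENNReal.ofReal ε * ENNReal.ofReal (u R + v R) +
          ENNReal.ofReal ε * ENNReal.ofReal (u R + v R))
        ≤ (∫⁻ s in Set.Ioo (-Y) Y, g s) + ((∫⁻ s in Set.Ioc Y (Y + ε), g s) +
          ∫⁻ s in Set.Ico (-(Y + ε)) (-Y), g s) := by gcongr
      _ ≤ _ := by rw [← add_assoc]; exact e3
  -- Fatou
  have hF : (∫⁻ s in Set.Ioo (-Y) Y, liminf (fun ε => f ε s) (𝓝[>] 0)) ≤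
      liminf (fun ε => ∫⁻ s in Set.Ioo (-Y) Y, f ε s) (𝓝[>] 0) := lintegral_liminf_le hfm
  have hpt : (∫⁻ s in Set.Ioo (-Y) Y, (ENNReal.ofReal (gl u d s) + ENNReal.ofReal (gl v d s))) ≤
      ∫⁻ s in Set.Ioo (-Y) Y, liminf (fun ε => f ε s) (𝓝[>] 0) := by
    refine setLIntegral_mono_ae' measurableSet_Ioo ?_
    filter_upwards [hdif] with s hs hsY
    have hs2 : s ^ 2 < Y ^ 2 := by
      have := abs_lt.mpr hsY
      rw [← sq_abs]
      exact pow_lt_pow_left₀ this (abs_nonneg _) (by norm_num)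
    have hs3 : d ^ 2 + s ^ 2 < R ^ 2 := by linarith
    obtain ⟨a1, -, a2, a3⟩ := hs hs3
    exact perA_main R u v h d s hs3 a1 a2 a3
  unfold bd L0
  calc (∫⁻ s in Set.Ioo (-Y) Y, ENNReal.ofReal (gl u d s)) +
        (∫⁻ s in Set.Ioo (-Y) Y, ENNReal.ofReal (gl v d s)) + ENNReal.ofReal (2 * (u R + v R))
      ≤ (∫⁻ s in Set.Ioo (-Y) Y, (ENNReal.ofReal (gl u d s) + ENNReal.ofReal (gl v d s))) +
        ENNReal.ofReal (2 * (u R + v R)) := by
        gcongr
        exact le_lintegral_add _ _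
    _ ≤ liminf (fun ε => ∫⁻ s in Set.Ioo (-Y) Y, f ε s) (𝓝[>] 0) +
        ENNReal.ofReal (2 * (u R + v R)) := by
        gcongr
        exact hpt.trans hF
    _ = liminf (fun ε => (∫⁻ s in Set.Ioo (-Y) Y, f ε s) +
        ENNReal.ofReal (2 * (u R + v R))) (𝓝[>] 0) := by
        rw [liminf_add_const]
        · isBoundedDefault
        · isBoundedDefault
    _ ≤ liminf (fun ε : ℝ => volume (Metric.cthickening ε M \ M) / ENNReal.ofReal ε)
        (𝓝[>] (0:ℝ)) := by
        exact liminf_le_liminf hlow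

end Pool.Agent.Lib_helper59.REV
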