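import Pool.Agent.Lib_helper59.REV.Defs
import Pool.Agent.Lib_helper59.REVF.slc
import Pool.Agent.Lib_helper59.REVF.incl

/-! # REV, block posA -/

open MeasureTheory Filter Topology

namespace Pool.Agent.Lib_helper59.REV

theorem posA_w (R : ℝ) (u v : ℝ → ℝ) (h : Prof R u v) (r : ℝ) (h0 : 0 ≤ r) (h1 : r < R) :
    0 < u r + v r := by
  have hR : 0 < R := h.cu.hR
  have ha : 0 ≤ 1 - r / R := by rw [sub_nonneg, div_le_one hR]; exact h1.le
  have hb : 0 ≤ r / R := div_nonneg h0 hR.le
  have hab : (1 - r / R) + r / R = 1 := by ring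
  have m0 : (0:ℝ) ∈ Set.Icc 0 R := ⟨le_rfl, hR.le⟩
  have m1 : R ∈ Set.Icc 0 R := ⟨hR.le, le_rfl⟩
  have hu := h.cu.conc.2 m0 m1 ha hb hab
  have hv := h.cv.conc.2 m0 m1 ha hb hab
  have e : (1 - r / R) • (0:ℝ) + (r / R) • R = r := by
    simp only [smul_eq_mul, mul_zero, zero_add]
    field_simp
  rw [e] at hu hv
  simp only [smul_eq_mul] at hu hv
  have h2 : 0 < 1 - r / R := by rw [sub_pos, div_lt_one hR]; exact h1
  have h3 : 0 < (1 - r / R) * (u 0 + v 0) := mul_pos h2 h.pos
  have h4 : 0 ≤ (r / R) * (u R + v R) := mul_nonneg (div_nonneg h0 hR.le) h.hh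
  nlinarith

theorem posA_sec (R : ℝ) (u v : ℝ → ℝ) (h : Prof R u v) (d : ℝ) (hd : -R < d) (hd' : d < R) :
    0 < volume (sec (Bo R u v) d) := by
  have hR : 0 < R := h.cu.hR
  have hr0 : nr (d, 0) < R := by
    unfold nr
    rw [Real.sqrt_lt' hR]
    nlinarith
  have hr0' : 0 ≤ nr (d, 0) := Real.sqrt_nonneg _
  have hw := posA_w R u v h (nr (d, 0)) hr0' hr0
  set m : ℝ := (u (nr (d, 0)) - v (nr (d, 0))) / 2 with hm
  have hmem : sec (Bo R u v) d ∈ 𝓝 (!₂[(0:ℝ), m] : E2) := by
    have t0 : Tendsto (fun p : E2 => p 0) (𝓝 (!₂[(0:ℝ), m] : E2)) (𝓝 0) := by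
      have : Continuous (fun p : E2 => p 0) := by fun_prop
      exact this.tendsto (!₂[(0:ℝ), m] : E2)
    have t1 : Tendsto (fun p : E2 => p 1) (𝓝 (!₂[(0:ℝ), m] : E2)) (𝓝 m) := by
      have : Continuous (fun p : E2 => p 1) := by fun_prop
      exact this.tendsto (!₂[(0:ℝ), m] : E2)
    have tn : Tendsto (fun p : E2 => nr (d, p 0)) (𝓝 (!₂[(0:ℝ), m] : E2)) (𝓝 (nr (d, 0))) := by
      have hc : Continuous (fun s : ℝ => nr (d, s)) := by
        unfold nr; fun_prop
      exact (hc.tendsto 0).comp t0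
    have elt : ∀ᶠ p in 𝓝 (!₂[(0:ℝ), m] : E2), nr (d, p 0) < R := tn.eventually_lt_const hr0
    have tw : Tendsto (fun p : E2 => nr (d, p 0)) (𝓝 (!₂[(0:ℝ), m] : E2))
        (𝓝[Set.Icc 0 R] (nr (d, 0))) := by
      rw [tendsto_nhdsWithin_iff]
      refine ⟨tn, ?_⟩
      filter_upwards [elt] with p hp
      exact ⟨Real.sqrt_nonneg _, hp.le⟩
    have tu : Tendsto (fun p : E2 => u (nr (d, p 0))) (𝓝 (!₂[(0:ℝ), m] : E2))
        (𝓝 (u (nr (d, 0)))) := (h.cu.cont _ ⟨hr0', hr0.le⟩).tendsto.comp tw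
    have tv : Tendsto (fun p : E2 => v (nr (d, p 0))) (𝓝 (!₂[(0:ℝ), m] : E2))
        (𝓝 (v (nr (d, 0)))) := (h.cv.cont _ ⟨hr0', hr0.le⟩).tendsto.comp tw
    have e1 : ∀ᶠ p in 𝓝 (!₂[(0:ℝ), m] : E2), p 1 < u (nr (d, p 0)) :=
      t1.eventually_lt tu (by rw [hm]; linarith)
    have e2 : ∀ᶠ p in 𝓝 (!₂[(0:ℝ), m] : E2), - v (nr (d, p 0)) < p 1 :=
      tv.neg.eventually_lt t1 (by rw [hm]; linarith)
    filter_upwards [elt, e1, e2] with p h1 h2 h3
    show (!₂[d, p 0, p 1] : E3) ∈ Bo R u v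
    have k1 : d ^ 2 + (p 0) ^ 2 ≤ R ^ 2 := by
      unfold nr at h1
      rw [Real.sqrt_lt' hR] at h1
      exact h1.le
    exact ⟨k1, h3.le, h2.le⟩
  exact MeasureTheory.Measure.measure_pos_of_mem_nhds volume hmem

theorem posA_col (R : ℝ) (u v : ℝ → ℝ) (h : Prof R u v) (ε : ℝ) (hε : 0 < ε) :
    ENNReal.ofReal ε * volume (disc R) ≤
      volume (Metric.cthickening ε (Bo R u v) \ Bo R u v) := by
  have hR : 0 < R := h.cu.hR
  have hK : IsClosed (Bo R u v) := (Bo_compact R u v h).isClosed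
  have hm : MeasurableSet (Metric.cthickening ε (Bo R u v) \ Bo R u v) :=
    Metric.isClosed_cthickening.measurableSet.diff hK.measurableSet
  rw [slc_col _ hm]
  have hd : MeasurableSet (disc R) := by
    have : IsOpen (disc R) := by
      unfold disc
      exact isOpen_lt (by fun_prop) continuous_const
    exact this.measurableSet
  calc ENNReal.ofReal ε * volume (disc R) = ∫⁻ _ in disc R, ENNReal.ofReal ε := by
        rw [setLIntegral_const]
    _ ≤ ∫⁻ p in disc R,
        volume {z : ℝ | !₂[p.1, p.2, z] ∈ Metric.cthickening ε (Bo R u v) \ Bo R u v} := by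
        apply setLIntegral_mono' hd
        intro p hp
        have hpR : nr p < R := by
          unfold nr
          rw [Real.sqrt_lt' hR]
          exact hp
        have hw := posA_w R u v h (nr p) (Real.sqrt_nonneg _) hpR
        have hsub : Set.Ioc (u (nr p)) (u (nr p) + ε) ⊆
            {z : ℝ | !₂[p.1, p.2, z] ∈ Metric.cthickening ε (Bo R u v) \ Bo R u v} := by
          intro z hz
          constructor
          · have hin : (!₂[p.1, p.2, u (nr p)] : E3) ∈ Bo R u v := by
              refine ⟨?_, ?_, ?_⟩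
              · exact le_of_lt hp
              · show - v (nr p) ≤ u (nr p)
                linarith
              · exact le_rfl
            refine Metric.mem_cthickening_of_dist_le _ _ _ _ hin ?_
            rw [EuclideanSpace.dist_eq]
            simp only [Fin.sum_univ_three]
            have e0 : dist ((!₂[p.1, p.2, z] : E3) 0) ((!₂[p.1, p.2, u (nr p)] : E3) 0) = 0 := by
              simp
            have e1 : dist ((!₂[p.1, p.2, z] : E3) 1) ((!₂[p.1, p.2, u (nr p)] : E3) 1) = 0 := by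
              simp
            have e2 : dist ((!₂[p.1, p.2, z] : E3) 2) ((!₂[p.1, p.2, u (nr p)] : E3) 2)
                = z - u (nr p) := by
              simp only [Real.dist_eq]
              exact abs_of_pos (by have := hz.1; simpa using this)
            rw [e0, e1, e2]
            have : 0 < z - u (nr p) := by linarith [hz.1]
            rw [show (0:ℝ) ^ 2 + 0 ^ 2 + (z - u (nr p)) ^ 2 = (z - u (nr p)) ^ 2 by ring,
              Real.sqrt_sq this.le]
            linarith [hz.2]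
          · intro hb
            have : z ≤ u (nr p) := hb.2.2
            linarith [hz.1]
        calc ENNReal.ofReal ε = volume (Set.Ioc (u (nr p)) (u (nr p) + ε)) := by
              rw [Real.volume_Ioc]; congr 1; ring
          _ ≤ _ := measure_mono hsub
    _ ≤ _ := setLIntegral_le_lintegral _ _

theorem posA_bd (R : ℝ) (u v : ℝ → ℝ) (h : Prof R u v) : 0 < bd (Bo R u v) := by
  have hR : 0 < R := h.cu.hR
  have hpos : 0 < volume (disc R) := by
    have ho : IsOpen (disc R) := by
      unfold disc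
      exact isOpen_lt (by fun_prop) continuous_const
    refine ho.measure_pos volume ⟨(0, 0), ?_⟩
    show (0:ℝ) ^ 2 + 0 ^ 2 < R ^ 2
    nlinarith [pow_pos hR 2]
  refine lt_of_lt_of_le hpos ?_
  unfold bd
  refine le_liminf_of_le (by isBoundedDefault) ?_
  filter_upwards [self_mem_nhdsWithin] with ε hε
  have hε' : (0:ℝ) < ε := hε
  rw [ENNReal.le_div_iff_mul_le (Or.inl (by simpa using hε')) (Or.inl ENNReal.ofReal_ne_top),
    mul_comm]
  exact posA_col R u v h ε hε'

end Pool.Agent.Lib_helper59.REV
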