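import Pool.Agent.Lib_helper59.REV.Defs

/-! # REV, block posB -/

open MeasureTheory Filter Topology

namespace Pool.Agent.Lib_helper59.REV

theorem posB_sub (K : Set E3) (hc : Convex ℝ K) (hk : IsCompact K) (c : E3) (ρ : ℝ) (hρ : 0 < ρ)
    (hb : Metric.closedBall c ρ ⊆ K) (ε : ℝ) (hε : 0 < ε) :
    Metric.cthickening ε K ⊆ AffineMap.homothety c (1 + ε / ρ) '' K := by
  intro y hy
  rw [hk.cthickening_eq_biUnion_closedBall hε.le] at hy
  simp only [Set.mem_iUnion, exists_prop, Metric.mem_closedBall] at hy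
  obtain ⟨x, hx, hxy⟩ := hy
  have h1 : 0 < 1 + ε / ρ := by positivity
  -- the point of the ball
  have hb1 : c + (ρ / ε) • (y - x) ∈ K := by
    apply hb
    rw [Metric.mem_closedBall, dist_eq_norm]
    have : c + (ρ / ε) • (y - x) - c = (ρ / ε) • (y - x) := by abel
    rw [this, norm_smul, Real.norm_eq_abs, abs_of_pos (by positivity), ← dist_eq_norm]
    calc ρ / ε * dist y x ≤ ρ / ε * ε := by gcongr
      _ = ρ := by field_simp
  refine ⟨(1 / (1 + ε / ρ)) • x + ((ε / ρ) / (1 + ε / ρ)) • (c + (ρ / ε) • (y - x)), ?_, ?_⟩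
  · refine hc hx hb1 (by positivity) (by positivity) ?_
    field_simp
  · rw [AffineMap.homothety_apply]
    simp only [vsub_eq_sub, vadd_eq_add]
    have e1 : (1 + ε / ρ) * (1 / (1 + ε / ρ)) = 1 := by field_simp
    have e2 : (1 + ε / ρ) * ((ε / ρ) / (1 + ε / ρ)) = ε / ρ := by field_simp
    have e3 : ε / ρ * (ρ / ε) = 1 := by field_simp
    rw [smul_sub, smul_add, smul_smul, smul_smul, e1, e2, smul_add, smul_smul, e3, add_smul]
    module

theorem posB_fin (K : Set E3) (hc : Convex ℝ K) (hk : IsCompact K) (hi : (interior K).Nonempty) :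
    bd K < ⊤ ∧ volume K < ⊤ := by
  have hV : volume K < ⊤ := hk.measure_lt_top
  refine ⟨?_, hV⟩
  obtain ⟨c, hcK⟩ := hi
  obtain ⟨ρ0, hρ0, hb0⟩ := Metric.isOpen_iff.1 isOpen_interior c hcK
  set ρ := ρ0 / 2 with hρ
  have hρp : 0 < ρ := by positivity
  have hb : Metric.closedBall c ρ ⊆ K :=
    ((Metric.closedBall_subset_ball (by rw [hρ]; linarith)).trans hb0).trans interior_subset
  set V : ℝ := (volume K).toReal with hVd
  have hVe : volume K = ENNReal.ofReal V := by rw [hVd, ENNReal.ofReal_toReal hV.ne]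
  have hV0 : 0 ≤ V := ENNReal.toReal_nonneg
  have key : ∀ᶠ ε in 𝓝[>] (0:ℝ),
      volume (Metric.cthickening ε K \ K) / ENNReal.ofReal ε ≤ ENNReal.ofReal (7 * V / ρ) := by
    have h1 : ∀ᶠ ε in 𝓝[>] (0:ℝ), ε ∈ Set.Ioo (0:ℝ) ρ := Ioo_mem_nhdsGT hρp
    filter_upwards [h1] with ε hε
    have h2 := posB_sub K hc hk c ρ hρp hb ε hε.1
    have h3 : volume (Metric.cthickening ε K) ≤ ENNReal.ofReal ((1 + ε / ρ) ^ 3 * V) := by
      refine (measure_mono h2).trans ?_
      rw [Measure.addHaar_image_homothety, hVe, ← ENNReal.ofReal_mul (abs_nonneg _)]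
      have hfr : Module.finrank ℝ E3 = 3 := by simp [E3]
      have hq : 0 ≤ 1 + ε / ρ := by
        have := hε.1
        positivity
      rw [hfr, abs_of_nonneg (by positivity)]
    have h4 : volume (Metric.cthickening ε K \ K) ≤ ENNReal.ofReal (7 * V / ρ * ε) := by
      rw [measure_sdiff (Metric.self_subset_cthickening K) hk.measurableSet.nullMeasurableSet hV.ne]
      refine (tsub_le_tsub_right h3 _).trans ?_
      rw [hVe, ← ENNReal.ofReal_sub _ hV0]
      apply ENNReal.ofReal_le_ofReal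
      set t := ε / ρ with ht
      have ht0 : 0 ≤ t := by
        have := hε.1
        positivity
      have ht1 : t ≤ 1 := by
        rw [ht, div_le_one hρp]
        exact hε.2.le
      have h5 : (1 + t) ^ 3 - 1 ≤ 7 * t := by nlinarith [mul_nonneg ht0 ht0, mul_nonneg ht0 (sub_nonneg.2 ht1), mul_nonneg (mul_nonneg ht0 ht0) (sub_nonneg.2 ht1)]
      calc (1 + t) ^ 3 * V - V = ((1 + t) ^ 3 - 1) * V := by ring
        _ ≤ 7 * t * V := by gcongr
        _ = 7 * V / ρ * ε := by rw [ht]; ring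
    refine (ENNReal.div_le_div_right h4 _).trans ?_
    have h6 : 0 ≤ 7 * V / ρ := by positivity
    rw [ENNReal.ofReal_mul h6]
    rw [mul_div_assoc]
    exact (mul_le_mul_right ENNReal.div_self_le_one _).trans_eq (mul_one _)
  have h7 : bd K ≤ ENNReal.ofReal (7 * V / ρ) := by
    unfold bd
    calc _ ≤ liminf (fun _ : ℝ => ENNReal.ofReal (7 * V / ρ)) (𝓝[>] (0:ℝ)) := liminf_le_liminf key
      _ = _ := liminf_const _
  exact h7.trans_lt ENNReal.ofReal_lt_top

end Pool.Agent.Lib_helper59.REV
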