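import Pool.Agent.Lib_helper59.REV.Defs

/-! # REV, block prfB -/

open MeasureTheory Filter Topology

namespace Pool.Agent.Lib_helper59.REV

theorem prfB_nr (r : ℝ) (hr : 0 ≤ r) : nr (r, 0) = r := by
  unfold nr
  simp [Real.sqrt_sq hr]

/-- continuity from the left at `R` -/
theorem prfB_main (R : ℝ) (u : ℝ → ℝ) (hR : 0 < R) (hu : ConcaveOn ℝ (Set.Icc 0 R) u)
    (hua : AntitoneOn u (Set.Icc 0 R))
    (hend : ∀ L : ℝ, (∀ r ∈ Set.Ico 0 R, L ≤ u r) → L ≤ u R) :
    ContinuousOn u (Set.Icc 0 R) := by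
  have h0 : (0:ℝ) ∈ Set.Icc 0 R := ⟨le_refl _, hR.le⟩
  have hRm : R ∈ Set.Icc (0:ℝ) R := ⟨hR.le, le_refl _⟩
  intro r hr
  rcases eq_or_lt_of_le hr.1 with h | h
  · -- r = 0
    subst h
    rw [ContinuousWithinAt]
    have hlow : ∀ᶠ s in 𝓝[Set.Icc 0 R] (0:ℝ), (1 - s / R) * u 0 + (s / R) * u R ≤ u s := by
      filter_upwards [self_mem_nhdsWithin] with s hs
      have ha : (0:ℝ) ≤ 1 - s / R := by rw [sub_nonneg, div_le_one hR]; exact hs.2
      have hb : (0:ℝ) ≤ s / R := div_nonneg hs.1 hR.le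
      have hc := hu.2 h0 hRm ha hb (by ring)
      simp only [smul_eq_mul, mul_zero, zero_add] at hc
      rwa [div_mul_cancel₀ _ hR.ne'] at hc
    have hup : ∀ᶠ s in 𝓝[Set.Icc 0 R] (0:ℝ), u s ≤ u 0 := by
      filter_upwards [self_mem_nhdsWithin] with s hs
      exact hua h0 hs hs.1
    refine tendsto_of_tendsto_of_tendsto_of_le_of_le' ?_ tendsto_const_nhds hlow hup
    have hc : Continuous (fun s : ℝ => (1 - s / R) * u 0 + (s / R) * u R) := by fun_prop
    have := (hc.tendsto 0).mono_left (nhdsWithin_le_nhds (s := Set.Icc 0 R))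
    simpa using this
  · rcases eq_or_lt_of_le hr.2 with h' | h'
    · -- r = R
      subst h'
      rw [ContinuousWithinAt]
      rw [Metric.tendsto_nhdsWithin_nhds]
      intro ε hε
      have hex : ∃ s ∈ Set.Ico 0 r, u s < u r + ε := by
        by_contra hcon
        push Not at hcon
        have := hend _ hcon
        linarith
      obtain ⟨s, hs, hs2⟩ := hex
      refine ⟨r - s, by linarith [hs.2], ?_⟩
      intro x hx hxd
      rw [Real.dist_eq] at hxd ⊢
      have hxs : s < x := by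
        have := (abs_lt.mp hxd).1
        linarith
      have h1 : u x ≤ u s := hua ⟨hs.1, hs.2.le⟩ hx hxs.le
      have h2 : u r ≤ u x := hua hx hRm hx.2
      rw [abs_lt]
      constructor <;> linarith
    · have hi : ContinuousOn u (interior (Set.Icc 0 R)) := hu.continuousOn_interior
      rw [interior_Icc] at hi
      have := hi.continuousAt (Ioo_mem_nhds h h')
      exact this.continuousWithinAt

theorem caps_cont (R : ℝ) (u v : ℝ → ℝ) (hR : 0 < R) (hu : ConcaveOn ℝ (Set.Icc 0 R) u)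
    (hua : AntitoneOn u (Set.Icc 0 R)) (hv : AntitoneOn v (Set.Icc 0 R)) (hh : 0 ≤ u R + v R)
    (hcl : IsClosed (Bo R u v)) : ContinuousOn u (Set.Icc 0 R) := by
  apply prfB_main R u hR hu hua
  intro L hL
  by_contra hcon
  push Not at hcon
  have hRm : R ∈ Set.Icc (0:ℝ) R := ⟨hR.le, le_refl _⟩
  -- the points (r, 0, L) are in the body
  have hmem : ∀ r ∈ Set.Ico 0 R, (!₂[r, 0, L] : E3) ∈ Bo R u v := by
    intro r hr
    have hrm : r ∈ Set.Icc (0:ℝ) R := ⟨hr.1, hr.2.le⟩
    refine ⟨?_, ?_, ?_⟩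
    · simp
      nlinarith [hr.1, hr.2]
    · simp only [Matrix.cons_val_zero, Matrix.cons_val_one, Matrix.cons_val]
      rw [prfB_nr r hr.1]
      have h1 := hv hrm hRm hr.2.le
      linarith
    · simp only [Matrix.cons_val_zero, Matrix.cons_val_one, Matrix.cons_val]
      rw [prfB_nr r hr.1]
      exact hL r hr
  have hlim : Tendsto (fun r : ℝ => (!₂[r, 0, L] : E3)) (𝓝[<] R) (𝓝 !₂[R, 0, L]) := by
    have hc : Continuous (fun r : ℝ => (!₂[r, 0, L] : E3)) := by
      refine (PiLp.continuous_toLp 2 _).comp ?_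
      refine continuous_pi ?_
      intro i
      fin_cases i <;> simp <;> fun_prop
    exact (hc.tendsto R).mono_left nhdsWithin_le_nhds
  have hin : (!₂[R, 0, L] : E3) ∈ Bo R u v := by
    refine hcl.mem_of_tendsto hlim ?_
    filter_upwards [Ioo_mem_nhdsLT hR] with r hr
    exact hmem r ⟨hr.1.le, hr.2⟩
  have h3 := hin.2.2
  simp only [Matrix.cons_val_zero, Matrix.cons_val_one, Matrix.cons_val] at h3
  rw [prfB_nr R hR.le] at h3
  linarith

theorem caps_cont' (R : ℝ) (u v : ℝ → ℝ) (hR : 0 < R) (hv : ConcaveOn ℝ (Set.Icc 0 R) v)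
    (hva : AntitoneOn v (Set.Icc 0 R)) (hu : AntitoneOn u (Set.Icc 0 R)) (hh : 0 ≤ u R + v R)
    (hcl : IsClosed (Bo R u v)) : ContinuousOn v (Set.Icc 0 R) := by
  apply prfB_main R v hR hv hva
  intro L hL
  by_contra hcon
  push Not at hcon
  have hRm : R ∈ Set.Icc (0:ℝ) R := ⟨hR.le, le_refl _⟩
  have hmem : ∀ r ∈ Set.Ico 0 R, (!₂[r, 0, -L] : E3) ∈ Bo R u v := by
    intro r hr
    have hrm : r ∈ Set.Icc (0:ℝ) R := ⟨hr.1, hr.2.le⟩
    refine ⟨?_, ?_, ?_⟩
    · simp
      nlinarith [hr.1, hr.2]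
    · simp only [Matrix.cons_val_zero, Matrix.cons_val_one, Matrix.cons_val]
      rw [prfB_nr r hr.1]
      have := hL r hr
      linarith
    · simp only [Matrix.cons_val_zero, Matrix.cons_val_one, Matrix.cons_val]
      rw [prfB_nr r hr.1]
      have h1 := hu hrm hRm hr.2.le
      linarith
  have hlim : Tendsto (fun r : ℝ => (!₂[r, 0, -L] : E3)) (𝓝[<] R) (𝓝 !₂[R, 0, -L]) := by
    have hc : Continuous (fun r : ℝ => (!₂[r, 0, -L] : E3)) := by
      refine (PiLp.continuous_toLp 2 _).comp ?_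
      refine continuous_pi ?_
      intro i
      fin_cases i <;> simp <;> fun_prop
    exact (hc.tendsto R).mono_left nhdsWithin_le_nhds
  have hin : (!₂[R, 0, -L] : E3) ∈ Bo R u v := by
    refine hcl.mem_of_tendsto hlim ?_
    filter_upwards [Ioo_mem_nhdsLT hR] with r hr
    exact hmem r ⟨hr.1.le, hr.2⟩
  have h3 := hin.2.1
  simp only [Matrix.cons_val_zero, Matrix.cons_val_one, Matrix.cons_val] at h3
  rw [prfB_nr R hR.le] at h3
  linarith

end Pool.Agent.Lib_helper59.REV
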