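import Pool.Agent.Lib_helper59.REVF.slc
import Pool.Agent.Lib_helper59.REVF.incl
import Pool.Agent.Lib_helper59.REVF.dif
import Pool.Agent.Lib_helper59.REVF.dscA

/-! # REV, block srf -/

open MeasureTheory Filter Topology

namespace Pool.Agent.Lib_helper59.REV

theorem srf_nr_meas : Measurable nr := by
  unfold nr
  have : Measurable (fun p : ℝ × ℝ => p.1 ^ 2 + p.2 ^ 2) := by fun_prop
  exact this.sqrt

theorem srf_gr_meas (u : ℝ → ℝ) :
    Measurable (fun p : ℝ × ℝ => ENNReal.ofReal (gr u (nr p))) := by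
  have h1 : Measurable (fun r : ℝ => gr u r) := by
    unfold gr
    exact (((measurable_deriv u).pow_const 2).const_add 1).sqrt
  exact (h1.comp srf_nr_meas).ennreal_ofReal

theorem srf_mem_disc (R : ℝ) (hR : 0 < R) (p : ℝ × ℝ) : p ∈ disc R ↔ nr p < R := by
  have h0 : (0:ℝ) ≤ p.1 ^ 2 + p.2 ^ 2 := by positivity
  show p.1 ^ 2 + p.2 ^ 2 < R ^ 2 ↔ √(p.1 ^ 2 + p.2 ^ 2) < R
  rw [Real.sqrt_lt h0 hR.le]

theorem srf_shell_meas (R : ℝ) (u v : ℝ → ℝ) (h : Prof R u v) (ε : ℝ) :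
    MeasurableSet (Metric.cthickening ε (Bo R u v) \ Bo R u v) :=
  Metric.isClosed_cthickening.measurableSet.diff (Bo_compact R u v h).measurableSet

/-- the bound for one column over the open disc -/
theorem srf_col_in (R : ℝ) (u v : ℝ → ℝ) (h : Prof R u v) (ε : ℝ) (hε : 0 < ε) (p : ℝ × ℝ)
    (h0 : 0 < nr p) (h1 : nr p < R)
    (du : DifferentiableAt ℝ u (nr p)) (dv : DifferentiableAt ℝ v (nr p)) :
    volume {z : ℝ | !₂[p.1, p.2, z] ∈ Metric.cthickening ε (Bo R u v) \ Bo R u v} ≤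
      ENNReal.ofReal ε * (ENNReal.ofReal (gr u (nr p)) + ENNReal.ofReal (gr v (nr p))) := by
  have hsub : {z : ℝ | !₂[p.1, p.2, z] ∈ Metric.cthickening ε (Bo R u v) \ Bo R u v} ⊆
      Set.Icc (u (nr p)) (u (nr p) + ε * gr u (nr p)) ∪
        Set.Icc (-v (nr p) - ε * gr v (nr p)) (-v (nr p)) := by
    intro z hz
    obtain ⟨hz1, hz2⟩ : !₂[p.1, p.2, z] ∈ Metric.cthickening ε (Bo R u v) ∧
      !₂[p.1, p.2, z] ∉ Bo R u v := hz
    have hin := incl_in R u v h ε hε !₂[p.1, p.2, z] hz1 h0 h1 du dv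
    have e0 : (!₂[p.1, p.2, z] : E3) 0 = p.1 := rfl
    have e1 : (!₂[p.1, p.2, z] : E3) 1 = p.2 := rfl
    have e2 : (!₂[p.1, p.2, z] : E3) 2 = z := rfl
    have hnr : nr ((!₂[p.1, p.2, z] : E3) 0, (!₂[p.1, p.2, z] : E3) 1) = nr p := rfl
    rw [hnr, e2] at hin
    obtain ⟨hin1, hin2⟩ := hin
    have hdisc : p.1 ^ 2 + p.2 ^ 2 ≤ R ^ 2 :=
      le_of_lt ((srf_mem_disc R h.cu.hR p).mpr h1)
    by_cases hc : z ≤ u (nr p)
    · right
      have : ¬ (-v (nr p) ≤ z) := fun hcc => hz2 ⟨hdisc, hcc, hc⟩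
      exact ⟨hin2, (not_le.mp this).le⟩
    · left
      exact ⟨(not_le.mp hc).le, hin1⟩
  refine (measure_mono hsub).trans ((measure_union_le _ _).trans ?_)
  rw [Real.volume_Icc, Real.volume_Icc, mul_add, ← ENNReal.ofReal_mul hε.le,
    ← ENNReal.ofReal_mul hε.le]
  refine add_le_add ?_ ?_
  · refine ENNReal.ofReal_le_ofReal (le_of_eq ?_)
    ring
  · refine ENNReal.ofReal_le_ofReal (le_of_eq ?_)
    ring

/-- the bound for one column outside of the open disc -/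
theorem srf_col_out (R : ℝ) (u v : ℝ → ℝ) (h : Prof R u v) (ε : ℝ) (hε : 0 < ε) (hεR : ε < R)
    (p : ℝ × ℝ) (h1 : R ≤ nr p) :
    volume {z : ℝ | !₂[p.1, p.2, z] ∈ Metric.cthickening ε (Bo R u v) \ Bo R u v} ≤
      Set.indicator {p : ℝ × ℝ | R ≤ nr p ∧ nr p ≤ R + ε}
        (fun _ => ENNReal.ofReal (u (R - ε) + v (R - ε) + 2 * ε)) p := by
  by_cases hp : nr p ≤ R + ε
  · rw [Set.indicator_of_mem (show p ∈ {p : ℝ × ℝ | R ≤ nr p ∧ nr p ≤ R + ε} from ⟨h1, hp⟩)]
    have hsub : {z : ℝ | !₂[p.1, p.2, z] ∈ Metric.cthickening ε (Bo R u v) \ Bo R u v} ⊆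
        Set.Icc (-v (R - ε) - ε) (u (R - ε) + ε) := by
      intro z hz
      have hz1 : !₂[p.1, p.2, z] ∈ Metric.cthickening ε (Bo R u v) := hz.1
      have hout := incl_out R u v h ε hε hεR !₂[p.1, p.2, z] hz1 h1
      exact ⟨hout.2.2, hout.2.1⟩
    refine (measure_mono hsub).trans ?_
    rw [Real.volume_Icc]
    refine ENNReal.ofReal_le_ofReal (le_of_eq ?_)
    ring
  · have hempty : {z : ℝ | !₂[p.1, p.2, z] ∈ Metric.cthickening ε (Bo R u v) \ Bo R u v} = ∅ := by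
      refine Set.eq_empty_of_forall_notMem fun z hz => ?_
      have hz1 : !₂[p.1, p.2, z] ∈ Metric.cthickening ε (Bo R u v) := hz.1
      exact hp (incl_out R u v h ε hε hεR !₂[p.1, p.2, z] hz1 h1).1
    rw [hempty, measure_empty]
    exact zero_le

theorem srf_vol (R : ℝ) (u v : ℝ → ℝ) (h : Prof R u v) (ε : ℝ) (hε : 0 < ε) (hεR : ε < R) :
    volume (Metric.cthickening ε (Bo R u v) \ Bo R u v) ≤
      ENNReal.ofReal ε * ((∫⁻ p in disc R, ENNReal.ofReal (gr u (nr p))) +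
        (∫⁻ p in disc R, ENNReal.ofReal (gr v (nr p)))) +
      ENNReal.ofReal ε * ENNReal.ofReal
        (Real.pi * (2 * R + ε) * (u (R - ε) + v (R - ε) + 2 * ε)) := by
  have hR := h.cu.hR
  rw [slc_col _ (srf_shell_meas R u v h ε)]
  have hmd : MeasurableSet (disc R) := dsc_meas R
  have hman : MeasurableSet {p : ℝ × ℝ | R ≤ nr p ∧ nr p ≤ R + ε} :=
    (measurableSet_le measurable_const srf_nr_meas).inter
      (measurableSet_le srf_nr_meas measurable_const)
  have hS : Measurable (fun p : ℝ × ℝ =>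
      ENNReal.ofReal (gr u (nr p)) + ENNReal.ofReal (gr v (nr p))) :=
    (srf_gr_meas u).add (srf_gr_meas v)
  have hF : Measurable (fun p : ℝ × ℝ => ENNReal.ofReal ε *
      (ENNReal.ofReal (gr u (nr p)) + ENNReal.ofReal (gr v (nr p)))) := hS.const_mul _
  calc ∫⁻ p : ℝ × ℝ, volume {z : ℝ | !₂[p.1, p.2, z] ∈ Metric.cthickening ε (Bo R u v) \ Bo R u v}
      ≤ ∫⁻ p : ℝ × ℝ, ((disc R).indicator (fun p => ENNReal.ofReal ε *
          (ENNReal.ofReal (gr u (nr p)) + ENNReal.ofReal (gr v (nr p)))) p +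
        Set.indicator {p : ℝ × ℝ | R ≤ nr p ∧ nr p ≤ R + ε}
        (fun _ => ENNReal.ofReal (u (R - ε) + v (R - ε) + 2 * ε)) p) := by
        refine lintegral_mono_ae ?_
        filter_upwards [dif_disc R u h.cu, dif_disc R v h.cv] with p hu hv
        by_cases hp : p ∈ disc R
        · obtain ⟨h0, h1, du⟩ := hu hp
          obtain ⟨-, -, dv⟩ := hv hp
          rw [Set.indicator_of_mem hp]
          exact (srf_col_in R u v h ε hε p h0 h1 du dv).trans le_self_add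
        · have hp' : R ≤ nr p := by
            rw [srf_mem_disc R hR] at hp
            exact not_lt.mp hp
          exact (srf_col_out R u v h ε hε hεR p hp').trans le_add_self
    _ = (∫⁻ p : ℝ × ℝ, (disc R).indicator (fun p => ENNReal.ofReal ε *
          (ENNReal.ofReal (gr u (nr p)) + ENNReal.ofReal (gr v (nr p)))) p) +
        ∫⁻ p : ℝ × ℝ, Set.indicator {p : ℝ × ℝ | R ≤ nr p ∧ nr p ≤ R + ε}
        (fun _ => ENNReal.ofReal (u (R - ε) + v (R - ε) + 2 * ε)) p :=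
        lintegral_add_left (hF.indicator hmd) _
    _ = _ := by
        rw [lintegral_indicator hmd, lintegral_indicator hman, setLIntegral_const,
          lintegral_const_mul _ hS,
          lintegral_add_left (srf_gr_meas u), dsc_ann R (R + ε) hR (by linarith)]
        congr 1
        have hv0 : 0 ≤ u (R - ε) + v (R - ε) + 2 * ε := by
          have hRm : R ∈ Set.Icc 0 R := ⟨hR.le, le_refl _⟩
          have hRe : R - ε ∈ Set.Icc 0 R := ⟨by linarith, by linarith⟩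
          have a1 := h.cu.anti hRe hRm (by linarith)
          have a2 := h.cv.anti hRe hRm (by linarith)
          have a3 := h.hh
          linarith
        rw [← ENNReal.ofReal_mul hv0, ← ENNReal.ofReal_mul hε.le]
        congr 1
        ring

theorem srf_cont (R : ℝ) (u : ℝ → ℝ) (h : Cap R u) :
    Tendsto (fun ε : ℝ => u (R - ε)) (𝓝[>] (0:ℝ)) (𝓝 (u R)) := by
  have hR := h.hR
  have hRm : R ∈ Set.Icc 0 R := ⟨hR.le, le_refl _⟩
  have hc := h.cont R hRm
  refine hc.tendsto.comp ?_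
  refine tendsto_nhdsWithin_iff.mpr ⟨?_, ?_⟩
  · have : Tendsto (fun ε : ℝ => R - ε) (𝓝 0) (𝓝 (R - 0)) :=
      (continuous_const.sub continuous_id).tendsto 0
    rw [sub_zero] at this
    exact this.mono_left nhdsWithin_le_nhds
  · filter_upwards [Ioo_mem_nhdsGT hR] with ε hε
    exact ⟨by linarith [hε.2], by linarith [hε.1]⟩

theorem srf_lim (R : ℝ) (u v : ℝ → ℝ) (h : Prof R u v) :
    Tendsto (fun ε : ℝ => ((∫⁻ p in disc R, ENNReal.ofReal (gr u (nr p))) +
        (∫⁻ p in disc R, ENNReal.ofReal (gr v (nr p)))) + ENNReal.ofReal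
        (Real.pi * (2 * R + ε) * (u (R - ε) + v (R - ε) + 2 * ε))) (𝓝[>] (0:ℝ))
      (𝓝 (S1 R u v)) := by
  unfold S1
  refine Tendsto.const_add _ ?_
  refine ENNReal.tendsto_ofReal ?_
  have hid : Tendsto (fun ε : ℝ => ε) (𝓝[>] (0:ℝ)) (𝓝 0) := nhdsWithin_le_nhds
  have h1 : Tendsto (fun ε : ℝ => Real.pi * (2 * R + ε) * (u (R - ε) + v (R - ε) + 2 * ε))
      (𝓝[>] (0:ℝ)) (𝓝 (Real.pi * (2 * R + 0) * (u R + v R + 2 * 0))) :=
    ((hid.const_add _).const_mul _).mul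
      (((srf_cont R u h.cu).add (srf_cont R v h.cv)).add (hid.const_mul _))
  have he : Real.pi * (2 * R + 0) * (u R + v R + 2 * 0) = 2 * Real.pi * R * (u R + v R) := by ring
  rw [he] at h1
  exact h1

theorem srf_le (R : ℝ) (u v : ℝ → ℝ) (h : Prof R u v) : bd (Bo R u v) ≤ S1 R u v := by
  have hR := h.cu.hR
  unfold bd
  rw [← (srf_lim R u v h).liminf_eq]
  refine liminf_le_liminf ?_
  filter_upwards [Ioo_mem_nhdsGT hR] with ε hε
  have hε0 : ENNReal.ofReal ε ≠ 0 := by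
    rw [Ne, ENNReal.ofReal_eq_zero, not_le]
    exact hε.1
  refine ENNReal.div_le_of_le_mul ?_
  refine (srf_vol R u v h ε hε.1 hε.2).trans (le_of_eq ?_)
  rw [← mul_add, mul_comm]

end Pool.Agent.Lib_helper59.REV
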