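import Pool.Agent.Lib_helper59.REVF.prfA
import Pool.Agent.Lib_helper59.REVF.prfB
import Pool.Agent.Lib_helper59.REVF.slc
import Pool.Agent.Lib_helper59.REVF.dif
import Pool.Agent.Lib_helper59.REVF.oned
import Pool.Agent.Lib_helper59.REVF.incl
import Pool.Agent.Lib_helper59.REVF.srf
import Pool.Agent.Lib_helper59.REVF.perB
import Pool.Agent.Lib_helper59.REVF.intA
import Pool.Agent.Lib_helper59.REVF.posA
import Pool.Agent.Lib_helper59.REVF.posB
import Pool.Agent.Lib_helper59.REVF.fin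
import Pool.Agent.Lib_helper59.REVF.isoA
import Pool.Agent.Lib_helper59.REVF.isoB
import Pool.Agent.Lib_helper59.REVF.eqF
import Pool.Agent.Lib_helper59.REVF.eqG
import Pool.Agent.Lib_helper59.REVF.eqH
import Pool.Agent.Lib_helper59.REVF.eqI
import Pool.Agent.Lib_helper59.REVF.eqJ

/-! # REV, assembly: Steinhaus' inequality for convex bodies of revolution -/

open MeasureTheory Filter Topology

namespace Pool.Agent.Lib_helper59.REV

theorem top_prof (K : Set E3) (hc : Convex ℝ K) (hk : IsCompact K) (hi : (interior K).Nonempty)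
    (hr : ∀ x y : E3, x 2 = y 2 → x 0 ^ 2 + x 1 ^ 2 = y 0 ^ 2 + y 1 ^ 2 → x ∈ K → y ∈ K) :
    ∃ (R : ℝ) (u v : ℝ → ℝ), Prof R u v ∧ K = Bo R u v := by
  obtain ⟨R, u, v, hR, cu, au, cv, av, hh, hp, hK⟩ := exists_caps K hc hk hi hr
  have hcl : IsClosed (Bo R u v) := hK ▸ hk.isClosed
  exact ⟨R, u, v, ⟨⟨hR, cu, au, caps_cont R u v hR cu au av hh hcl⟩,
    ⟨hR, cv, av, caps_cont' R u v hR cv av au hh hcl⟩, hh, hp⟩, hK⟩

theorem top_nonneg (K : Set E3) : ∀ x ∈ iot K, 0 ≤ x := by
  rintro x ⟨P, -, rfl⟩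
  positivity

theorem top_core (R : ℝ) (u v : ℝ → ℝ) (h : Prof R u v) (hc : Convex ℝ (Bo R u v))
    (hi : (interior (Bo R u v)).Nonempty) :
    4 * Real.pi / 9 * sInf (iot (Bo R u v)) ^ 2 ≤
      (volume (Bo R u v)).toReal ^ 2 / (bd (Bo R u v)).toReal ^ 3 ∧
    (4 * Real.pi / 9 * sInf (iot (Bo R u v)) ^ 2 =
      (volume (Bo R u v)).toReal ^ 2 / (bd (Bo R u v)).toReal ^ 3 →
      Bo R u v = Metric.closedBall (!₂[0, 0, u R] : E3) R) := by
  have hk : IsCompact (Bo R u v) := Bo_compact R u v h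
  obtain ⟨hS, hV⟩ := posB_fin _ hc hk hi
  have hS0 := posA_bd R u v h
  have hSp : 0 < (bd (Bo R u v)).toReal := ENNReal.toReal_pos hS0.ne' hS.ne
  have hm : 0 ≤ sInf (iot (Bo R u v)) := Real.sInf_nonneg (top_nonneg _)
  have hR : 0 < R := h.cu.hR
  set m := sInf (iot (Bo R u v)) with hmdef
  have hA : ∀ᵐ d : ℝ, d ∈ Set.Ioo (-R) R →
      ENNReal.ofReal m * L0 R u v d ^ 2 ≤ volume (sec (Bo R u v) d) := by
    filter_upwards [dif_sec R u h.cu, dif_sec R v h.cv] with d hdu hdv hd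
    have h1 : L0 R u v d ≤ bd (sec (Bo R u v) d) := by
      refine perB_main R u v h d hd.1 hd.2 ?_
      filter_upwards [hdu, hdv] with s h1 h2 h3
      exact ⟨(h1 h3).1, (h1 h3).2.1, (h1 h3).2.2, (h2 h3).2.2⟩
    rcases hm.eq_or_lt with h0 | h0
    · rw [← h0]
      simp
    · obtain ⟨P, hP⟩ := plane_sec d
      have h2 : (volume (sec (Bo R u v) d)).toReal / (bd (sec (Bo R u v) d)).toReal ^ 2 ∈
          iot (Bo R u v) := by
        refine ⟨P, ?_, ?_⟩
        · rw [hP]
          exact posA_sec R u v h d hd.1 hd.2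
        · rw [hP]
      have h3 : m ≤ (volume (sec (Bo R u v) d)).toReal / (bd (sec (Bo R u v) d)).toReal ^ 2 :=
        csInf_le ⟨0, fun x hx => top_nonneg _ x hx⟩ h2
      have h4 : (bd (sec (Bo R u v) d)).toReal ≠ 0 := by
        intro h5
        rw [h5] at h3
        simp at h3
        linarith
      have h5 : bd (sec (Bo R u v) d) ≠ ⊤ := by
        intro h6
        rw [h6] at h4
        simp at h4
      have h6 : 0 < (bd (sec (Bo R u v) d)).toReal :=
        lt_of_le_of_ne ENNReal.toReal_nonneg (Ne.symm h4)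
      rw [le_div_iff₀ (by positivity)] at h3
      calc ENNReal.ofReal m * L0 R u v d ^ 2
          ≤ ENNReal.ofReal m * bd (sec (Bo R u v) d) ^ 2 := by gcongr
        _ = ENNReal.ofReal (m * (bd (sec (Bo R u v) d)).toReal ^ 2) := by
            rw [ENNReal.ofReal_mul hm, ENNReal.ofReal_pow ENNReal.toReal_nonneg,
              ENNReal.ofReal_toReal h5]
        _ ≤ ENNReal.ofReal (volume (sec (Bo R u v) d)).toReal := ENNReal.ofReal_le_ofReal h3
        _ ≤ volume (sec (Bo R u v) d) := ENNReal.ofReal_toReal_le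
  have hVA : ∫⁻ d : ℝ, volume (sec (Bo R u v) d) =
      ENNReal.ofReal (volume (Bo R u v)).toReal := by
    rw [← slc_E3 _ hk.isClosed.measurableSet, ENNReal.ofReal_toReal hV.ne]
  have hI : ENNReal.ofReal (R / 2 * (bd (Bo R u v)).toReal + 2 * Real.pi * R ^ 3 / 3) ≤
      ∫⁻ d in Set.Ioo (-R) R, ENNReal.ofReal √(R ^ 2 - d ^ 2) * L0 R u v d := by
    refine le_trans ?_ (int_ge R u v h)
    rw [ENNReal.ofReal_add (by positivity) (by positivity), ENNReal.ofReal_mul (by positivity),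
      ENNReal.ofReal_toReal hS.ne]
    gcongr
    exact srf_le R u v h
  refine ⟨?_, fun heq => ?_⟩
  · have hf := fin_main R m (bd (Bo R u v)).toReal (volume (Bo R u v)).toReal (L0 R u v)
      (fun d => volume (sec (Bo R u v) d)) hR hm ENNReal.toReal_nonneg ENNReal.toReal_nonneg
      (L0_meas R u v) hA hVA (one_w2 R hR) hI
    rw [le_div_iff₀ (by positivity)]
    exact hf
  · have hVp : 0 < (volume (Bo R u v)).toReal := by
      refine ENNReal.toReal_pos ?_ hV.ne
      exact (lt_of_lt_of_le (isOpen_interior.measure_pos volume hi)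
        (measure_mono interior_subset)).ne'
    rw [eq_div_iff (by positivity)] at heq
    obtain ⟨hSeq, hX⟩ := eqF_main R m (bd (Bo R u v)).toReal (volume (Bo R u v)).toReal (L0 R u v)
      (fun d => volume (sec (Bo R u v) d)) hR hm ENNReal.toReal_nonneg hVp
      (L0_meas R u v) hA hVA (one_w2 R hR) hI heq
    have hle := int_ge R u v h
    rw [hX] at hle
    have hfin : S1 R u v ≠ ⊤ := by
      intro htop
      rw [htop, ENNReal.mul_top (by simpa using hR), top_add] at hle
      exact ENNReal.ofReal_ne_top (top_le_iff.mp hle)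
    have hge : ENNReal.ofReal (4 * Real.pi * R ^ 2) ≤ S1 R u v := by
      rw [← hSeq, ENNReal.ofReal_toReal hS.ne]
      exact srf_le R u v h
    have hle' : S1 R u v ≤ ENNReal.ofReal (4 * Real.pi * R ^ 2) := by
      have h1 : (ENNReal.ofReal (R / 2) * S1 R u v +
          ENNReal.ofReal (2 * Real.pi * R ^ 3 / 3)).toReal ≤
          (ENNReal.ofReal (8 * Real.pi * R ^ 3 / 3)).toReal :=
        ENNReal.toReal_mono ENNReal.ofReal_ne_top hle
      rw [ENNReal.toReal_add (ENNReal.mul_ne_top ENNReal.ofReal_ne_top hfin)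
        ENNReal.ofReal_ne_top, ENNReal.toReal_mul, ENNReal.toReal_ofReal (by positivity),
        ENNReal.toReal_ofReal (by positivity), ENNReal.toReal_ofReal (by positivity)] at h1
      rw [← ENNReal.ofReal_toReal hfin]
      apply ENNReal.ofReal_le_ofReal
      have h2 : R / 2 * (S1 R u v).toReal ≤ R / 2 * (4 * Real.pi * R ^ 2) := by
        nlinarith
      exact le_of_mul_le_mul_left h2 (by positivity)
    have hE : ∫⁻ d in Set.Ioo (-R) R, ENNReal.ofReal √(R ^ 2 - d ^ 2) * L0 R u v d ≤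
        ENNReal.ofReal (R / 2) * S1 R u v + ENNReal.ofReal (2 * Real.pi * R ^ 3 / 3) := by
      rw [hX]
      calc ENNReal.ofReal (8 * Real.pi * R ^ 3 / 3)
          = ENNReal.ofReal (R / 2) * ENNReal.ofReal (4 * Real.pi * R ^ 2) +
            ENNReal.ofReal (2 * Real.pi * R ^ 3 / 3) := by
            rw [← ENNReal.ofReal_mul (by positivity),
              ← ENNReal.ofReal_add (by positivity) (by positivity)]
            congr 1
            ring
        _ ≤ _ := by gcongr
    obtain ⟨h1, h2⟩ := eqG_main R u v h hfin hE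
    exact eqJ_main R u v h (eqI_main R u h.cu (eqH_main R u h.cu h1))
      (eqI_main R v h.cv (eqH_main R v h.cv h2)) hle'

/-- Steinhaus' inequality for convex bodies of revolution -/
theorem top_main (K : Set E3) (hc : Convex ℝ K) (hk : IsCompact K) (hi : (interior K).Nonempty)
    (c v : E3) (hv : v ≠ 0) (hr : ∀ x y : E3, inner ℝ v (x - c) = inner ℝ v (y - c) →
      ‖x - c‖ = ‖y - c‖ → x ∈ K → y ∈ K) :
    4 * Real.pi / 9 * sInf (iot K) ^ 2 ≤ (volume K).toReal ^ 2 / (bd K).toReal ^ 3 ∧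
    (4 * Real.pi / 9 * sInf (iot K) ^ 2 = (volume K).toReal ^ 2 / (bd K).toReal ^ 3 →
      ∃ (x : E3) (r : ℝ), 0 < r ∧ K = Metric.closedBall x r) := by
  obtain ⟨g, hg⟩ := isoB_axis c v hv
  have hc' : Convex ℝ (g '' K) := by
    have := hc.affine_image (g.toAffineEquiv : E3 →ᵃ[ℝ] E3)
    exact this
  have hk' : IsCompact (g '' K) := hk.image g.continuous
  have hi' : (interior (g '' K)).Nonempty := by
    have h1 : g '' K = g.toHomeomorph '' K := rfl
    rw [h1, ← g.toHomeomorph.image_interior]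
    exact hi.image _
  have hr' : ∀ x y : E3, x 2 = y 2 → x 0 ^ 2 + x 1 ^ 2 = y 0 ^ 2 + y 1 ^ 2 →
      x ∈ g '' K → y ∈ g '' K := by
    rintro x y h2 h01 ⟨x', hx', rfl⟩
    refine ⟨g.symm y, ?_, g.apply_symm_apply y⟩
    have h3 := hg x'
    have h4 := hg (g.symm y)
    rw [g.apply_symm_apply] at h4
    have hvn : ‖v‖ ≠ 0 := norm_ne_zero_iff.mpr hv
    refine hr x' _ ?_ ?_ hx'
    · have h5 : inner ℝ v (x' - c) / ‖v‖ = inner ℝ v (g.symm y - c) / ‖v‖ := by
        rw [← h3.1, ← h4.1, h2]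
      exact (div_left_inj' hvn).mp h5
    · rw [← h3.2, ← h4.2, EuclideanSpace.norm_eq, EuclideanSpace.norm_eq, Fin.sum_univ_three,
        Fin.sum_univ_three]
      simp only [Real.norm_eq_abs, sq_abs]
      rw [h01, h2]
  obtain ⟨R, u, w, hP, hK⟩ := top_prof _ hc' hk' hi' hr'
  have h := top_core R u w hP (hK ▸ hc') (hK ▸ hi')
  rw [← hK, isoA_vol, isoA_bd, isoA_iot] at h
  refine ⟨h.1, fun he => ⟨g.symm !₂[0, 0, u R], R, hP.cu.hR, ?_⟩⟩
  have h1 := h.2 he
  have h2 : K = g ⁻¹' (g '' K) := (Set.preimage_image_eq K g.injective).symm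
  rw [h2, h1]
  ext x
  rw [Set.mem_preimage, Metric.mem_closedBall, Metric.mem_closedBall]
  rw [← g.dist_map x (g.symm _), g.apply_symm_apply]

end Pool.Agent.Lib_helper59.REV
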