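import Pool.Agent.Lib_helper59.REV.Defs

/-! # REV, block fin -/

open MeasureTheory Filter Topology

namespace Pool.Agent.Lib_helper59.REV

theorem fin_amgm (a b : ℝ) (ha : 0 ≤ a) (hb : 0 ≤ b) : 256 * a ^ 3 * b ≤ (3 * a + b) ^ 4 := by
  have h1 : (3 * a + b) ^ 4 - 256 * a ^ 3 * b =
      (a - b) ^ 2 * (81 * a ^ 2 + 14 * a * b + b ^ 2) := by ring
  have h2 : 0 ≤ (a - b) ^ 2 * (81 * a ^ 2 + 14 * a * b + b ^ 2) := by positivity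
  linarith

theorem fin_cs (μ : Measure ℝ) (w L : ℝ → ENNReal) (hw : AEMeasurable w μ)
    (hL : AEMeasurable L μ) :
    (∫⁻ d, w d * L d ∂μ) ^ 2 ≤ (∫⁻ d, w d ^ 2 ∂μ) * (∫⁻ d, L d ^ 2 ∂μ) := by
  have h := ENNReal.lintegral_mul_le_Lp_mul_Lq μ
    (Real.HolderConjugate.two_two) hw hL
  have h2 : (∫⁻ d, w d * L d ∂μ) ^ 2 ≤
      ((∫⁻ d, w d ^ (2:ℝ) ∂μ) ^ (1 / (2:ℝ)) * (∫⁻ d, L d ^ (2:ℝ) ∂μ) ^ (1 / (2:ℝ))) ^ 2 := by
    exact pow_le_pow_left' h 2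
  have h3 : ∀ x : ENNReal, (x ^ (1 / (2:ℝ))) ^ 2 = x := by
    intro x
    rw [← ENNReal.rpow_natCast, ← ENNReal.rpow_mul]
    norm_num
  rw [mul_pow, h3, h3] at h2
  simpa [ENNReal.rpow_two] using h2

theorem fin_main (R m S V : ℝ) (L A : ℝ → ENNReal) (hR : 0 < R) (hm : 0 ≤ m) (hS : 0 ≤ S)
    (hV : 0 ≤ V) (hL : Measurable L)
    (hA : ∀ᵐ d : ℝ, d ∈ Set.Ioo (-R) R → ENNReal.ofReal m * L d ^ 2 ≤ A d)
    (hVA : ∫⁻ d : ℝ, A d = ENNReal.ofReal V)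
    (hw : ∫⁻ d in Set.Ioo (-R) R, ENNReal.ofReal √(R ^ 2 - d ^ 2) ^ 2 =
      ENNReal.ofReal (4 * R ^ 3 / 3))
    (hI : ENNReal.ofReal (R / 2 * S + 2 * Real.pi * R ^ 3 / 3) ≤
      ∫⁻ d in Set.Ioo (-R) R, ENNReal.ofReal √(R ^ 2 - d ^ 2) * L d) :
    4 * Real.pi / 9 * m ^ 2 * S ^ 3 ≤ V ^ 2 := by
  have hpi := Real.pi_pos
  set J : ℝ := R / 2 * S + 2 * Real.pi * R ^ 3 / 3 with hJ
  have hJ0 : 0 ≤ J := by positivity
  have h1 : ENNReal.ofReal m * ∫⁻ d in Set.Ioo (-R) R, L d ^ 2 ≤ ENNReal.ofReal V := by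
    calc ENNReal.ofReal m * ∫⁻ d in Set.Ioo (-R) R, L d ^ 2
        = ∫⁻ d in Set.Ioo (-R) R, ENNReal.ofReal m * L d ^ 2 := by
          rw [lintegral_const_mul _ (hL.pow_const 2)]
      _ ≤ ∫⁻ d in Set.Ioo (-R) R, A d :=
          lintegral_mono_ae ((ae_restrict_iff' measurableSet_Ioo).mpr hA)
      _ ≤ ∫⁻ d, A d := setLIntegral_le_lintegral _ _
      _ = ENNReal.ofReal V := hVA
  have h2 := fin_cs (volume.restrict (Set.Ioo (-R) R))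
    (fun d => ENNReal.ofReal √(R ^ 2 - d ^ 2)) L
    (by
      have : Measurable fun d : ℝ => ENNReal.ofReal √(R ^ 2 - d ^ 2) := by
        refine ENNReal.measurable_ofReal.comp ?_
        exact (Real.continuous_sqrt.comp (by fun_prop)).measurable
      exact this.aemeasurable) hL.aemeasurable
  rw [hw] at h2
  have h3 : ENNReal.ofReal J ^ 2 ≤
      ENNReal.ofReal (4 * R ^ 3 / 3) * ∫⁻ d in Set.Ioo (-R) R, L d ^ 2 :=
    (pow_le_pow_left' hI 2).trans h2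
  have h4 : ENNReal.ofReal m * ENNReal.ofReal J ^ 2 ≤
      ENNReal.ofReal (4 * R ^ 3 / 3) * ENNReal.ofReal V := by
    calc ENNReal.ofReal m * ENNReal.ofReal J ^ 2
        ≤ ENNReal.ofReal m *
          (ENNReal.ofReal (4 * R ^ 3 / 3) * ∫⁻ d in Set.Ioo (-R) R, L d ^ 2) := by gcongr
      _ = ENNReal.ofReal (4 * R ^ 3 / 3) *
          (ENNReal.ofReal m * ∫⁻ d in Set.Ioo (-R) R, L d ^ 2) := by ring
      _ ≤ _ := by gcongr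
  rw [← ENNReal.ofReal_pow hJ0, ← ENNReal.ofReal_mul hm, ← ENNReal.ofReal_mul (by positivity)] at h4
  have h5 : m * J ^ 2 ≤ 4 * R ^ 3 / 3 * V := by
    rwa [ENNReal.ofReal_le_ofReal_iff (by positivity)] at h4
  have h6 : J = 2 * R * (S / 4 + Real.pi * R ^ 2 / 3) := by rw [hJ]; ring
  rw [h6] at h5
  have h7 : 3 * m * (S / 4 + Real.pi * R ^ 2 / 3) ^ 2 ≤ R * V := by
    have h8 : 4 * R ^ 2 / 3 * (3 * m * (S / 4 + Real.pi * R ^ 2 / 3) ^ 2) ≤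
        4 * R ^ 2 / 3 * (R * V) := by nlinarith [h5]
    exact le_of_mul_le_mul_left h8 (by positivity)
  have h9 : (3 * m * (S / 4 + Real.pi * R ^ 2 / 3) ^ 2) ^ 2 ≤ (R * V) ^ 2 := by
    apply pow_le_pow_left₀ (by positivity) h7
  have h10 := fin_amgm (S / 12) (Real.pi * R ^ 2 / 3) (by positivity) (by positivity)
  have h11 : 3 * (S / 12) + Real.pi * R ^ 2 / 3 = S / 4 + Real.pi * R ^ 2 / 3 := by ring
  rw [h11] at h10
  have h12 : R ^ 2 * (4 * Real.pi / 9 * m ^ 2 * S ^ 3) ≤ R ^ 2 * V ^ 2 := by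
    calc R ^ 2 * (4 * Real.pi / 9 * m ^ 2 * S ^ 3)
        = 9 * m ^ 2 * (256 * (S / 12) ^ 3 * (Real.pi * R ^ 2 / 3)) := by ring
      _ ≤ 9 * m ^ 2 * (S / 4 + Real.pi * R ^ 2 / 3) ^ 4 := by gcongr
      _ = (3 * m * (S / 4 + Real.pi * R ^ 2 / 3) ^ 2) ^ 2 := by ring
      _ ≤ (R * V) ^ 2 := h9
      _ = R ^ 2 * V ^ 2 := by ring
  exact le_of_mul_le_mul_left h12 (by positivity)

end Pool.Agent.Lib_helper59.REV
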