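import Pool.Agent.Lib_helper59.REV.Defs

/-! # REV, block prfA : the profile of a convex body of revolution -/

open MeasureTheory Filter Topology

namespace Pool.Agent.Lib_helper59.REV

theorem prfA_sq_nr (a b : ℝ) : nr (a, b) ^ 2 = a ^ 2 + b ^ 2 := by
  unfold nr
  exact Real.sq_sqrt (by positivity)

theorem prfA_nr_nonneg (p : ℝ × ℝ) : 0 ≤ nr p := Real.sqrt_nonneg _

/-- the meridian section -/
def prfA_M (K : Set E3) : Set (ℝ × ℝ) := {p | (!₂[p.1, 0, p.2] : E3) ∈ K}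

theorem prfA_cont : Continuous fun p : ℝ × ℝ => (!₂[p.1, 0, p.2] : E3) := by
  refine (PiLp.continuous_toLp 2 _).comp ?_
  refine continuous_pi fun i => ?_
  fin_cases i
  · exact continuous_fst
  · exact continuous_const
  · exact continuous_snd

theorem prfA_coord (i : Fin 3) : Continuous fun x : E3 => x i := by fun_prop

theorem prfA_compact {K : Set E3} (hk : IsCompact K) : IsCompact (prfA_M K) := by
  have h1 : IsCompact (K ∩ {x : E3 | x 1 = 0}) :=
    hk.inter_right (isClosed_eq (prfA_coord 1) continuous_const)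
  have h2 : Continuous fun x : E3 => (x 0, x 2) := (prfA_coord 0).prodMk (prfA_coord 2)
  have h3 : prfA_M K = (fun x : E3 => (x 0, x 2)) '' (K ∩ {x : E3 | x 1 = 0}) := by
    ext p
    constructor
    · intro hp
      refine ⟨!₂[p.1, 0, p.2], ⟨hp, by simp⟩, by simp⟩
    · rintro ⟨x, ⟨hx, hx1⟩, rfl⟩
      have e : (!₂[x 0, 0, x 2] : E3) = x := by
        ext i
        fin_cases i
        · simp
        · simpa using hx1.symm
        · simp
      show (!₂[x 0, 0, x 2] : E3) ∈ K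
      rw [e]
      exact hx
  rw [h3]
  exact h1.image h2

theorem prfA_conv {K : Set E3} (hc : Convex ℝ K) {p q : ℝ × ℝ} (hp : p ∈ prfA_M K)
    (hq : q ∈ prfA_M K) {a b : ℝ} (ha : 0 ≤ a) (hb : 0 ≤ b) (hab : a + b = 1) :
    (a * p.1 + b * q.1, a * p.2 + b * q.2) ∈ prfA_M K := by
  have h := hc hp hq ha hb hab
  have e : a • (!₂[p.1, 0, p.2] : E3) + b • !₂[q.1, 0, q.2] =
      !₂[a * p.1 + b * q.1, 0, a * p.2 + b * q.2] := by
    ext i
    fin_cases i <;> simp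
  rw [e] at h
  exact h

theorem prfA_shrink {K : Set E3} (hc : Convex ℝ K)
    (hr : ∀ x y : E3, x 2 = y 2 → x 0 ^ 2 + x 1 ^ 2 = y 0 ^ 2 + y 1 ^ 2 → x ∈ K → y ∈ K)
    {r s z : ℝ} (h : (s, z) ∈ prfA_M K) (h0 : 0 ≤ r) (h1 : r ≤ s) : (r, z) ∈ prfA_M K := by
  rcases eq_or_lt_of_le (h0.trans h1) with hs | hs
  · have : r = s := le_antisymm h1 (hs ▸ h0)
    rw [this]
    exact h
  · have h2 : (-s, z) ∈ prfA_M K := hr _ _ (by simp) (by simp) h
    have h3 := prfA_conv hc h h2 (a := (1 + r / s) / 2) (b := (1 - r / s) / 2)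
      (by positivity) (by
        have : r / s ≤ 1 := (div_le_one hs).mpr h1
        linarith) (by ring)
    have e1 : (1 + r / s) / 2 * s + (1 - r / s) / 2 * (-s) = r := by
      field_simp
      ring
    have e2 : (1 + r / s) / 2 * z + (1 - r / s) / 2 * z = z := by ring
    simp only at h3
    rw [e1, e2] at h3
    exact h3

theorem prfA_mem {K : Set E3}
    (hr : ∀ x y : E3, x 2 = y 2 → x 0 ^ 2 + x 1 ^ 2 = y 0 ^ 2 + y 1 ^ 2 → x ∈ K → y ∈ K)
    (x : E3) : x ∈ K ↔ (nr (x 0, x 1), x 2) ∈ prfA_M K := by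
  have e : (!₂[nr (x 0, x 1), 0, x 2] : E3) 0 ^ 2 + (!₂[nr (x 0, x 1), 0, x 2] : E3) 1 ^ 2 =
      x 0 ^ 2 + x 1 ^ 2 := by
    simp [prfA_sq_nr]
  constructor
  · intro h
    exact hr x _ (by simp) e.symm h
  · intro h
    exact hr _ x (by simp) e h

theorem prfA_Z {K : Set E3} (hk : IsCompact K) (r : ℝ) : IsCompact {z | (r, z) ∈ prfA_M K} := by
  have h1 : IsCompact (prfA_M K ∩ {p : ℝ × ℝ | p.1 = r}) :=
    (prfA_compact hk).inter_right (isClosed_eq continuous_fst continuous_const)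
  have h2 : {z | (r, z) ∈ prfA_M K} = Prod.snd '' (prfA_M K ∩ {p : ℝ × ℝ | p.1 = r}) := by
    ext z
    constructor
    · intro hz
      exact ⟨(r, z), ⟨hz, rfl⟩, rfl⟩
    · rintro ⟨⟨a, b⟩, ⟨hp, rfl⟩, rfl⟩
      exact hp
  rw [h2]
  exact h1.image continuous_snd

/-- the interior gives points -/
theorem prfA_int {K : Set E3} (hi : (interior K).Nonempty) :
    ∃ (c : E3) (ρ : ℝ), 0 < ρ ∧ ∀ (i : Fin 3) (t : ℝ), |t| ≤ ρ →
      c + t • EuclideanSpace.single i (1 : ℝ) ∈ K := by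
  obtain ⟨c, hc⟩ := hi
  obtain ⟨ε, hε, hb⟩ := Metric.isOpen_iff.mp isOpen_interior c hc
  refine ⟨c, ε / 2, by positivity, fun i t ht => interior_subset (hb ?_)⟩
  rw [Metric.mem_ball, dist_eq_norm, add_sub_cancel_left, norm_smul, PiLp.norm_single,
    norm_one, mul_one, Real.norm_eq_abs]
  linarith

theorem exists_caps (K : Set E3) (hc : Convex ℝ K) (hk : IsCompact K) (hi : (interior K).Nonempty)
    (hr : ∀ x y : E3, x 2 = y 2 → x 0 ^ 2 + x 1 ^ 2 = y 0 ^ 2 + y 1 ^ 2 → x ∈ K → y ∈ K) :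
    ∃ (R : ℝ) (u v : ℝ → ℝ), 0 < R ∧ ConcaveOn ℝ (Set.Icc 0 R) u ∧ AntitoneOn u (Set.Icc 0 R) ∧
      ConcaveOn ℝ (Set.Icc 0 R) v ∧ AntitoneOn v (Set.Icc 0 R) ∧ 0 ≤ u R + v R ∧ 0 < u 0 + v 0 ∧
      K = Bo R u v := by
  obtain ⟨c, ρ, hρ, hin⟩ := prfA_int hi
  have hM := prfA_compact hk
  have hA : IsCompact (Prod.fst '' prfA_M K) := hM.image continuous_fst
  have hAne : (Prod.fst '' prfA_M K).Nonempty := by
    have h1 := (prfA_mem hr _).mp (hin 0 0 (by simpa using hρ.le))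
    exact ⟨_, ⟨_, h1, rfl⟩⟩
  set R := sSup (Prod.fst '' prfA_M K) with hR
  have hRmem : R ∈ Prod.fst '' prfA_M K := hA.sSup_mem hAne
  have hle : ∀ r z, (r, z) ∈ prfA_M K → r ≤ R := fun r z h =>
    le_csSup hA.bddAbove ⟨(r, z), h, rfl⟩
  have hRpos : 0 < R := by
    by_contra hneg
    have hx : ∀ x ∈ K, x 0 = 0 := by
      intro x hx
      have h1 := hle _ _ ((prfA_mem hr x).mp hx)
      have b1 : nr (x 0, x 1) = 0 :=
        le_antisymm (h1.trans (not_lt.mp hneg)) (prfA_nr_nonneg _)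
      have a1 := prfA_sq_nr (x 0) (x 1)
      rw [b1] at a1
      have : x 0 ^ 2 = 0 := by nlinarith [sq_nonneg (x 0), sq_nonneg (x 1)]
      exact pow_eq_zero_iff (two_ne_zero) |>.mp this
    have h1 := hx _ (hin 0 ρ (by rw [abs_of_pos hρ]))
    have h2 := hx _ (hin 0 (-ρ) (by rw [abs_neg, abs_of_pos hρ]))
    simp at h1 h2
    linarith
  have hRz : ∃ z, (R, z) ∈ prfA_M K := by
    obtain ⟨⟨a, b⟩, h, hab⟩ := hRmem
    exact ⟨b, by rw [← hab]; exact h⟩
  have hZc := prfA_Z hk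
  have hZne : ∀ r ∈ Set.Icc 0 R, {z | (r, z) ∈ prfA_M K}.Nonempty := by
    intro r hrr
    obtain ⟨z, hz⟩ := hRz
    exact ⟨z, prfA_shrink hc hr hz hrr.1 hrr.2⟩
  obtain ⟨u, hu⟩ : ∃ u : ℝ → ℝ, ∀ r, u r = sSup {z | (r, z) ∈ prfA_M K} := ⟨_, fun _ => rfl⟩
  obtain ⟨v, hv⟩ : ∃ v : ℝ → ℝ, ∀ r, v r = -sInf {z | (r, z) ∈ prfA_M K} := ⟨_, fun _ => rfl⟩
  have um : ∀ r ∈ Set.Icc 0 R, (r, u r) ∈ prfA_M K := fun r hrr => by
    rw [hu]
    exact (hZc r).sSup_mem (hZne r hrr)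
  have vm : ∀ r ∈ Set.Icc 0 R, (r, -v r) ∈ prfA_M K := fun r hrr => by
    rw [hv, neg_neg]
    exact (hZc r).sInf_mem (hZne r hrr)
  have ule : ∀ r z, (r, z) ∈ prfA_M K → z ≤ u r := fun r z h => by
    rw [hu]
    exact le_csSup (hZc r).bddAbove h
  have vle : ∀ r z, (r, z) ∈ prfA_M K → -v r ≤ z := fun r z h => by
    rw [hv, neg_neg]
    exact csInf_le (hZc r).bddBelow h
  have h0R : (0 : ℝ) ∈ Set.Icc 0 R := ⟨le_rfl, hRpos.le⟩
  have hRR : R ∈ Set.Icc 0 R := ⟨hRpos.le, le_rfl⟩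
  refine ⟨R, u, v, hRpos, ⟨convex_Icc 0 R, ?_⟩, ?_, ⟨convex_Icc 0 R, ?_⟩, ?_, ?_, ?_, ?_⟩
  · intro r hr1 s hs1 a b ha hb hab
    have h := prfA_conv hc (um r hr1) (um s hs1) ha hb hab
    simpa [smul_eq_mul] using ule _ _ h
  · intro r hr1 s hs1 hrs
    exact ule _ _ (prfA_shrink hc hr (um s hs1) hr1.1 hrs)
  · intro r hr1 s hs1 a b ha hb hab
    have h := prfA_conv hc (vm r hr1) (vm s hs1) ha hb hab
    have h2 := vle _ _ h
    simp only [smul_eq_mul] at h2 ⊢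
    linarith
  · intro r hr1 s hs1 hrs
    have h2 := vle _ _ (prfA_shrink hc hr (vm s hs1) hr1.1 hrs)
    linarith
  · have := ule _ _ (vm R hRR)
    linarith
  · have h1 := (prfA_mem hr _).mp (hin 2 ρ (by rw [abs_of_pos hρ]))
    have h2 := (prfA_mem hr _).mp (hin 2 (-ρ) (by rw [abs_neg, abs_of_pos hρ]))
    have h3 := ule _ _ (prfA_shrink hc hr h1 le_rfl (prfA_nr_nonneg _))
    have h4 := vle _ _ (prfA_shrink hc hr h2 le_rfl (prfA_nr_nonneg _))
    simp at h3 h4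
    linarith
  · ext x
    rw [prfA_mem hr x]
    constructor
    · intro h
      have h1 := hle _ _ h
      refine ⟨?_, vle _ _ h, ule _ _ h⟩
      rw [← prfA_sq_nr]
      exact pow_le_pow_left₀ (prfA_nr_nonneg _) h1 2
    · rintro ⟨h1, h2, h3⟩
      rw [← prfA_sq_nr] at h1
      have h4 : nr (x 0, x 1) ≤ R := le_of_sq_le_sq h1 hRpos.le
      have h5 : nr (x 0, x 1) ∈ Set.Icc 0 R := ⟨prfA_nr_nonneg _, h4⟩
      have h6 := um _ h5
      have h7 := vm _ h5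
      rcases eq_or_lt_of_le (h2.trans h3) with h8 | h8
      · have : x 2 = u (nr (x 0, x 1)) := le_antisymm h3 (h8 ▸ h2)
        rw [this]
        exact h6
      · have h9 : 0 < u (nr (x 0, x 1)) - -v (nr (x 0, x 1)) := sub_pos.mpr h8
        have h := prfA_conv hc h6 h7
          (a := (x 2 - -v (nr (x 0, x 1))) / (u (nr (x 0, x 1)) - -v (nr (x 0, x 1))))
          (b := (u (nr (x 0, x 1)) - x 2) / (u (nr (x 0, x 1)) - -v (nr (x 0, x 1))))
          (div_nonneg (by linarith) h9.le) (div_nonneg (by linarith) h9.le) (by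
            rw [← add_div, div_eq_one_iff_eq h9.ne']
            ring)
        have e1 : (x 2 - -v (nr (x 0, x 1))) / (u (nr (x 0, x 1)) - -v (nr (x 0, x 1))) *
            nr (x 0, x 1) + (u (nr (x 0, x 1)) - x 2) /
            (u (nr (x 0, x 1)) - -v (nr (x 0, x 1))) * nr (x 0, x 1) = nr (x 0, x 1) := by
          field_simp
          ring
        have e2 : (x 2 - -v (nr (x 0, x 1))) / (u (nr (x 0, x 1)) - -v (nr (x 0, x 1))) *
            u (nr (x 0, x 1)) + (u (nr (x 0, x 1)) - x 2) /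
            (u (nr (x 0, x 1)) - -v (nr (x 0, x 1))) * (-v (nr (x 0, x 1))) = x 2 := by
          field_simp
          ring
        simp only at h
        rw [e1, e2] at h
        exact h

end Pool.Agent.Lib_helper59.REV
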